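import Mathlib
/-! FDX-Arith. Integer arithmetic for the part sizes. `yA, yB, -M` are the deviations of the parts.
`arith1`: the case without bad pairs. PLAN: if yA, yB ≥ 0: `y(y-1)(y-2) ≥ 0` for integers y ≥ 0, and `3 s ≥ M(M+1)(2M+1) ≥ M(M+1)(M+2)`. Otherwise say
yB = -P, 1 ≤ P ≤ M, yA = M + P + r ≥ M + P: for M ≥ 2 `(M+P)(M+P-1)(M+P-2) + M(M+1)(M-1) ≥ P(P+1)(P+2)` (P ≤ M) and `y(y-1)(y-2)` is increasing for
y ≥ 2; for M = P = 1: r = 0 use `h2` (`s ≥ 4 + 1 + 1`), r = 1: 6 - 12 + 6, r = 2: 24 - 12.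
`arith2`: two negative deviations, one at most -3: the sum is not negative (expand: `3MP(M+P) ≥ 6M²+6MP+6P²` for 3 ≤ P ≤ M).
`arith3`: the bound of the sum for large M: `S = yA + yB = M + r`, `∑_{A,B} y(y-1)(y-2) = S³/4 - 3S²/2 + 2S + (3S-6) z²`, z = (yA - yB)/2, S ≥ 2.
`arith4`: crude bound. All variables real here except where integers are needed. -/
namespace FDX

private theorem cube_nonneg (y : ℤ) (hy : 0 ≤ y) : 0 ≤ y * (y - 1) * (y - 2) := by
  obtain h | h | h : y = 0 ∨ y = 1 ∨ 2 ≤ y := by omega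
  · rw [h]; norm_num
  · rw [h]; norm_num
  · exact mul_nonneg (mul_nonneg hy (by omega)) (by omega)

private theorem arith1a (P M r : ℤ) (hM : 1 ≤ M) (hr0 : 0 ≤ r) (hr : r ≤ 2) (hP : 1 ≤ P)
    (hPM : P ≤ M) (s : ℤ) (h1 : M * (M + 1) * (2 * M + 1) ≤ 3 * s)
    (h2 : r = 0 → (M + r + P) ^ 2 + P ^ 2 + M ^ 2 ≤ s) :
    0 ≤ (M + r + P) * (M + r + P - 1) * (M + r + P - 2) + (-P) * (-P - 1) * (-P - 2) +
      (-M) * (-M - 1) * (-M - 2) + 3 * s := by
  by_cases hM2 : 2 ≤ M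
  · have key : 0 ≤ (M + r + P) * (M + r + P - 1) * (M + r + P - 2) + (-P) * (-P - 1) * (-P - 2) +
        M * (M + 1) * (M - 1) := by
      by_cases hP2 : 2 ≤ P
      · obtain ⟨w, rfl⟩ : ∃ w, P = 2 + w := ⟨P - 2, by ring⟩
        obtain ⟨u, rfl⟩ : ∃ u, M = 2 + w + u := ⟨M - (2 + w), by ring⟩
        have hw : 0 ≤ w := by omega
        have hu : 0 ≤ u := by omega
        ring_nf
        positivity
      · have hP1 : P = 1 := by omega
        subst hP1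
        obtain ⟨u, rfl⟩ : ∃ u, M = 2 + u := ⟨M - 2, by ring⟩
        have hu : 0 ≤ u := by omega
        ring_nf
        positivity
    nlinarith [key, h1]
  · have hM1 : M = 1 := by omega
    subst hM1
    have hP1 : P = 1 := by omega
    subst hP1
    obtain h | h | h : r = 0 ∨ r = 1 ∨ r = 2 := by omega
    · have h3 := h2 h
      subst h
      norm_num at h3 ⊢
      omega
    · subst h
      norm_num at h1 ⊢
      omega
    · subst h
      norm_num at h1 ⊢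
      omega

theorem arith1 (yA yB M r : ℤ) (hM : 1 ≤ M) (hr0 : 0 ≤ r) (hr : r ≤ 2) (hs : yA + yB = M + r)
    (hA : -M ≤ yA) (hB : -M ≤ yB) (s : ℤ) (h1 : M * (M + 1) * (2 * M + 1) ≤ 3 * s)
    (h2 : r = 0 → yA ^ 2 + yB ^ 2 + M ^ 2 ≤ s) :
    0 ≤ yA * (yA - 1) * (yA - 2) + yB * (yB - 1) * (yB - 2) + (-M) * (-M - 1) * (-M - 2) + 3 * s := by
  by_cases hB0 : 0 ≤ yB
  · by_cases hA0 : 0 ≤ yA
    · have h3 := cube_nonneg yA hA0
      have h4 := cube_nonneg yB hB0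
      have h5 : 0 ≤ M * (M + 1) * (M - 1) := mul_nonneg (mul_nonneg (by omega) (by omega)) (by omega)
      nlinarith [h1, h3, h4, h5]
    · obtain ⟨P, rfl⟩ : ∃ P, yA = -P := ⟨-yA, by ring⟩
      obtain rfl : yB = M + r + P := by omega
      have h3 := arith1a P M r hM hr0 hr (by omega) (by omega) s h1 (fun h => by
        have := h2 h
        nlinarith [this])
      nlinarith [h3]
  · obtain ⟨P, rfl⟩ : ∃ P, yB = -P := ⟨-yB, by ring⟩
    obtain rfl : yA = M + r + P := by omega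
    have h3 := arith1a P M r hM hr0 hr (by omega) (by omega) s h1 (fun h => by
      have := h2 h
      nlinarith [this])
    nlinarith [h3]

private theorem arith2a (P M r : ℤ) (hM : 3 ≤ M) (hr0 : 0 ≤ r) (hP : 3 ≤ P) :
    0 ≤ (M + r + P) * (M + r + P - 1) * (M + r + P - 2) + (-P) * (-P - 1) * (-P - 2) +
      (-M) * (-M - 1) * (-M - 2) := by
  obtain ⟨w, rfl⟩ : ∃ w, P = 3 + w := ⟨P - 3, by ring⟩
  obtain ⟨u, rfl⟩ : ∃ u, M = 3 + u := ⟨M - 3, by ring⟩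
  have hw : 0 ≤ w := by omega
  have hu : 0 ≤ u := by omega
  ring_nf
  positivity

theorem arith2 (yA yB M r : ℤ) (hM : 3 ≤ M) (hr0 : 0 ≤ r) (hs : yA + yB = M + r)
    (hA : -M ≤ yA) (hB : -M ≤ yB) (h3 : yA ≤ -3 ∨ yB ≤ -3) :
    0 ≤ yA * (yA - 1) * (yA - 2) + yB * (yB - 1) * (yB - 2) + (-M) * (-M - 1) * (-M - 2) := by
  rcases h3 with h3 | h3
  · obtain ⟨P, rfl⟩ : ∃ P, yA = -P := ⟨-yA, by ring⟩
    obtain rfl : yB = M + r + P := by omega
    have h4 := arith2a P M r hM hr0 (by omega)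
    linarith [h4]
  · obtain ⟨P, rfl⟩ : ∃ P, yB = -P := ⟨-yB, by ring⟩
    obtain rfl : yA = M + r + P := by omega
    have h4 := arith2a P M r hM hr0 (by omega)
    linarith [h4]

theorem arith3 (yA yB M r : ℝ) (hM : 50000 ≤ M) (hr0 : 0 ≤ r) (hr : r ≤ 2) (hs : yA + yB = M + r) :
    -(yA * (yA - 1) * (yA - 2) + yB * (yB - 1) * (yB - 2) + (-M) * (-M - 1) * (-M - 2)) ≤
      7501 / 10000 * M ^ 3 := by
  obtain ⟨z, rfl⟩ : ∃ z, yA = (M + r) / 2 + z := ⟨yA - (M + r) / 2, by ring⟩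
  obtain rfl : yB = (M + r) / 2 - z := by linarith
  have e : ((M + r) / 2 + z) * ((M + r) / 2 + z - 1) * ((M + r) / 2 + z - 2) +
      ((M + r) / 2 - z) * ((M + r) / 2 - z - 1) * ((M + r) / 2 - z - 2) =
      (M + r) ^ 3 / 4 - 3 * (M + r) ^ 2 / 2 + 2 * (M + r) + (3 * (M + r) - 6) * z ^ 2 := by ring
  rw [e]
  have h1 : 0 ≤ (3 * (M + r) - 6) * z ^ 2 := mul_nonneg (by linarith) (sq_nonneg z)
  have h2 : M ^ 3 ≤ (M + r) ^ 3 := pow_le_pow_left₀ (by linarith) (by linarith) 3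
  have h3 : (M + r) ^ 2 ≤ (M + 2) ^ 2 := pow_le_pow_left₀ (by linarith) (by linarith) 2
  have h4 : 50000 * M ^ 2 ≤ M ^ 3 := by
    have : M ^ 3 = M * M ^ 2 := by ring
    rw [this]
    exact mul_le_mul_of_nonneg_right hM (sq_nonneg M)
  have h5 : 50000 * M ≤ M ^ 2 := by
    have : M ^ 2 = M * M := by ring
    rw [this]
    exact mul_le_mul_of_nonneg_right hM (by linarith)
  have e2 : (-M) * (-M - 1) * (-M - 2) = -(M ^ 3 + 3 * M ^ 2 + 2 * M) := by ring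
  have e3 : (M + 2) ^ 2 = M ^ 2 + 4 * M + 4 := by ring
  rw [e2]
  linarith [h1, h2, h3, h4, h5, e3]

private theorem arith4a (y M : ℤ) (hM : 1 ≤ M) (hy : -M ≤ y) :
    -(y * (y - 1) * (y - 2)) ≤ 6 * M ^ 3 := by
  by_cases hy0 : 0 ≤ y
  · have h1 := cube_nonneg y hy0
    have h2 : 0 ≤ M ^ 3 := by positivity
    linarith
  · obtain ⟨P, rfl⟩ : ∃ P, y = -P := ⟨-y, by ring⟩
    have hP : 1 ≤ P := by omega
    have hPM : P ≤ M := by omega
    have e : -(-P * (-P - 1) * (-P - 2)) = P * (P + 1) * (P + 2) := by ring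
    rw [e]
    have h1 : P * (P + 1) ≤ M * (2 * M) :=
      mul_le_mul hPM (by omega) (by omega) (by omega)
    have h2 : P * (P + 1) * (P + 2) ≤ M * (2 * M) * (3 * M) :=
      mul_le_mul h1 (by omega) (by omega) (by positivity)
    calc P * (P + 1) * (P + 2) ≤ M * (2 * M) * (3 * M) := h2
      _ = 6 * M ^ 3 := by ring

theorem arith4 (yA yB M : ℤ) (hM : 1 ≤ M) (hA : -M ≤ yA) (hB : -M ≤ yB) :
    -(yA * (yA - 1) * (yA - 2) + yB * (yB - 1) * (yB - 2) + (-M) * (-M - 1) * (-M - 2)) ≤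
      18 * M ^ 3 := by
  have h1 := arith4a yA M hM hA
  have h2 := arith4a yB M hM hB
  have h3 := arith4a (-M) M hM le_rfl
  linarith

end FDX
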