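import Pool.Agent.FDX.Pt
import Pool.Agent.FDF.B1
/-! FDX-Bd1. PLAN: as FDF/B1.lean with `L = LL G w` (`10 L² ≤ 1/100 + 1/10^8`, so `L ≤ .03163`). `hx`: `∑ (pp j - 1/3)² = gam + Bin - Bcr ≤ .0226 +
1/10^8 + 1/10^10 - 10 L²`, `(pp j - 1/3)² ≤ (2/3) ∑`, and `(.1228 - 27 L²)² ≥ .01507984 - 6.6312 L²`. For `bb_small` prove first the variant
of `FDF.profile` (FDF/Prof.lean) with the hypothesis `hS : ∑ a i (p i - a i) ≤ 51/10000 + L/3 - 475/100 L²` (same proof: at the end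
`.0043595 - L/3 + 6.505 L² > 0`; `t4` with `(L - 1/39.03)²`), then copy. `pt` is FDX.pt (Pt.lean), it has `≤ ... + 1/10^15`. -/
namespace FDX
open Finset FDF
open scoped BigOperators Classical
variable {V : Type} {G : OG V} [Fintype V] {w : V → ℝ} {f : V → Fin 3}

private lemma bd1_single (q p m M : ℝ) (hm0 : 0 ≤ m) (hmp : m ≤ p / 2) (hq : q ≤ p) (hmM : m ≤ M) :
    m * (q / 2) ≤ m * (p - m) ∧ m * (q - M) ≤ m * (p - m) :=
  ⟨mul_le_mul_of_nonneg_left (by linarith) hm0, mul_le_mul_of_nonneg_left (by linarith) hm0⟩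

private lemma bd1_mM (p0 p1 p2 m0 m1 m2 L : ℝ)
    (h0 : 0 ≤ m0) (h1 : 0 ≤ m1) (h2 : 0 ≤ m2)
    (g0 : m0 ≤ p0 / 2) (g1 : m1 ≤ p1 / 2) (g2 : m2 ≤ p2 / 2)
    (q0 : 21053 / 100000 + 27 * L ^ 2 ≤ p0) (q1 : 21053 / 100000 + 27 * L ^ 2 ≤ p1)
    (q2 : 21053 / 100000 + 27 * L ^ 2 ≤ p2)
    (hS : m0 * (p0 - m0) + m1 * (p1 - m1) + m2 * (p2 - m2) ≤
      51 / 10000 + L / 3 - 475 / 100 * L ^ 2) : m0 + m1 + m2 < 65 / 1000 := by
  by_contra hcon
  push Not at hcon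
  have hL2 : 0 ≤ L ^ 2 := sq_nonneg L
  obtain ⟨q, hqdef⟩ : ∃ q : ℝ, q = 21053 / 100000 + 27 * L ^ 2 := ⟨_, rfl⟩
  rw [← hqdef] at q0 q1 q2
  obtain ⟨M, hM⟩ : ∃ M : ℝ, M = m0 + m1 + m2 := ⟨_, rfl⟩
  have s0 := bd1_single q p0 m0 M h0 g0 q0 (by linarith)
  have s1 := bd1_single q p1 m1 M h1 g1 q1 (by linarith)
  have s2 := bd1_single q p2 m2 M h2 g2 q2 (by linarith)
  rw [← hM] at hcon
  have hq : 21053 / 100000 ≤ q := by linarith
  have t1 : M * (q / 2) ≤ 51 / 10000 + L / 3 - 475 / 100 * L ^ 2 := by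
    have : M * (q / 2) = m0 * (q / 2) + m1 * (q / 2) + m2 * (q / 2) := by rw [hM]; ring
    linarith [s0.1, s1.1, s2.1]
  have t2 : M * (q - M) ≤ 51 / 10000 + L / 3 - 475 / 100 * L ^ 2 := by
    have : M * (q - M) = m0 * (q - M) + m1 * (q - M) + m2 * (q - M) := by
      nth_rewrite 1 [hM]; ring
    linarith [s0.2, s1.2, s2.2]
  have t3 : 65 / 1000 * (q - 65 / 1000) ≤ 51 / 10000 + L / 3 - 475 / 100 * L ^ 2 := by
    rcases le_total M (q / 2) with h | h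
    · have : 0 ≤ (M - 65 / 1000) * (q - M - 65 / 1000) :=
        mul_nonneg (by linarith) (by linarith)
      nlinarith
    · have h' : q / 2 * (q / 2) ≤ M * (q / 2) :=
        mul_le_mul_of_nonneg_right h (by linarith)
      have : 0 ≤ (q / 2 - 65 / 1000) ^ 2 := sq_nonneg _
      nlinarith
  have t4 : 0 ≤ (L - 1 / 39.03) ^ 2 := sq_nonneg _
  rw [hqdef] at t3
  nlinarith

private lemma bd1_half (a p : ℝ) (ha0 : 0 ≤ a) (hap : a ≤ p) :
    ∃ m : ℝ, 0 ≤ m ∧ m ≤ p / 2 ∧ a * (p - a) = m * (p - m) ∧ (m = a ∨ m = p - a) := by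
  rcases le_total a (p / 2) with h | h
  · exact ⟨a, ha0, h, rfl, Or.inl rfl⟩
  · exact ⟨p - a, by linarith, by linarith, by ring, Or.inr rfl⟩

private lemma bd1_profile (p a : Fin 3 → ℝ) (L : ℝ) (ha0 : ∀ i, 0 ≤ a i)
    (hap : ∀ i, a i ≤ p i) (hp : ∑ i, p i = 1) (hpl : ∀ i, 21053 / 100000 + 27 * L ^ 2 ≤ p i)
    (hpu : ∀ i, p i ≤ 1 / 3 + 1228 / 10000 - 27 * L ^ 2)
    (hn1 : 17 / 100 < ∑ i, a i) (hn2 : ∑ i, a i < 1 / 3 + 1315 / 10000)
    (hS : ∑ i, a i * (p i - a i) ≤ 51 / 10000 + L / 3 - 475 / 100 * L ^ 2) :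
    ∃ i, (p i - a i) + (∑ j, if j = i then 0 else a j) < 65 / 1000 := by
  rw [Fin.sum_univ_three] at hp hn1 hn2 hS
  obtain ⟨m0, h0, g0, e0, c0⟩ := bd1_half (a 0) (p 0) (ha0 0) (hap 0)
  obtain ⟨m1, h1, g1, e1, c1⟩ := bd1_half (a 1) (p 1) (ha0 1) (hap 1)
  obtain ⟨m2, h2, g2, e2, c2⟩ := bd1_half (a 2) (p 2) (ha0 2) (hap 2)
  rw [e0, e1, e2] at hS
  have hM := bd1_mM (p 0) (p 1) (p 2) m0 m1 m2 L h0 h1 h2 g0 g1 g2 (hpl 0) (hpl 1) (hpl 2) hS
  have hL2 : 0 ≤ L ^ 2 := sq_nonneg L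
  have u0 := hpu 0
  have u1 := hpu 1
  have u2 := hpu 2
  have s0 : ∑ j : Fin 3, (if j = 0 then 0 else a j) = a 1 + a 2 := by
    rw [Fin.sum_univ_three]; simp
  have s1 : ∑ j : Fin 3, (if j = 1 then 0 else a j) = a 0 + a 2 := by
    rw [Fin.sum_univ_three]; simp
  have s2 : ∑ j : Fin 3, (if j = 2 then 0 else a j) = a 0 + a 1 := by
    rw [Fin.sum_univ_three]; simp
  rcases c0 with c0 | c0 <;> rcases c1 with c1 | c1 <;> rcases c2 with c2 | c2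
  · exfalso; linarith
  · exact ⟨2, by rw [s2]; linarith⟩
  · exact ⟨1, by rw [s1]; linarith⟩
  · exfalso; linarith
  · exact ⟨0, by rw [s0]; linarith⟩
  · exfalso; linarith
  · exfalso; linarith
  · exfalso; linarith

private lemma bd1_Bin_nonneg (h : PartX G w f) : 0 ≤ G.Bin w f :=
  Finset.sum_nonneg fun v _ => mul_nonneg (h.near.pos v).le
    (G.bin_nonneg w f (fun v => (h.near.pos v).le) v)

private lemma bd1_Bcr_nonneg (h : PartX G w f) : 0 ≤ G.Bcr w f :=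
  Finset.sum_nonneg fun v _ => mul_nonneg (h.near.pos v).le
    (G.bcr_nonneg w f (fun v => (h.near.pos v).le) v)

private lemma bd1_LL_nonneg : 0 ≤ LL G w := Real.sqrt_nonneg _

private lemma bd1_LLsq (h : PartX G w f) : 10 * LL G w ^ 2 ≤ 1 / 100 + 1 / 10 ^ 8 := by
  have h1 := G.Btot_eq w f
  have h2 := bd1_Bin_nonneg h
  have h3 := bd1_Bcr_nonneg h
  have h4 := h.small
  linarith

private lemma bd1_Bin_le (h : PartX G w f) :
    G.Bin w f ≤ 1 / 100 + 1 / 10 ^ 8 - 10 * LL G w ^ 2 := by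
  have h1 := G.Btot_eq w f
  have h3 := bd1_Bcr_nonneg h
  have h4 := h.small
  linarith

private lemma bd1_third (a b c S : ℝ) (h0 : a + b + c = 0) (h : a ^ 2 + b ^ 2 + c ^ 2 ≤ S) :
    c ^ 2 ≤ 2 / 3 * S := by
  obtain rfl : c = -(a + b) := by linarith
  nlinarith [sq_nonneg (a - b)]

theorem PartX.LL_le (h : PartX G w f) : LL G w ≤ 3163 / 100000 := by
  have h1 := bd1_LLsq h
  have h0 : 0 ≤ LL G w := bd1_LL_nonneg
  by_contra hc
  push Not at hc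
  nlinarith

theorem PartX.hx (h : PartX G w f) (j : Fin 3) :
    |pp w f j - 1 / 3| ≤ 1228 / 10000 - 27 * LL G w ^ 2 := by
  have hs := G.sum_sq w f h.near.sum
  have hB := bd1_Bin_le h
  have hC := bd1_Bcr_nonneg h
  have hT : 0 ≤ G.T1 w := OG.T1_nonneg (fun v => (h.near.pos v).le)
  have hc := h.c1
  have hp := pp_sum w f h.near.sum
  have hL := bd1_LLsq h
  set L := LL G w
  have hL2 : 0 ≤ L ^ 2 := sq_nonneg L
  have key : (pp w f j - 1 / 3) ^ 2 ≤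
      2 / 3 * (226 / 10000 + 1 / 10 ^ 8 + 1 / 10 ^ 10 - 10 * L ^ 2) := by
    have h1 : ∑ j, (pp w f j - 1 / 3) ^ 2 ≤
        226 / 10000 + 1 / 10 ^ 8 + 1 / 10 ^ 10 - 10 * L ^ 2 := by
      rw [hs]; linarith
    rw [Fin.sum_univ_three] at h1 hp
    have hj : j = 0 ∨ j = 1 ∨ j = 2 := by fin_cases j <;> simp
    rcases hj with rfl | rfl | rfl
    · exact bd1_third _ _ _ _ (by linarith : (pp w f 1 - 1 / 3) + (pp w f 2 - 1 / 3) +
        (pp w f 0 - 1 / 3) = 0) (by linarith)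
    · exact bd1_third _ _ _ _ (by linarith : (pp w f 0 - 1 / 3) + (pp w f 2 - 1 / 3) +
        (pp w f 1 - 1 / 3) = 0) (by linarith)
    · exact bd1_third _ _ _ _ (by linarith : (pp w f 0 - 1 / 3) + (pp w f 1 - 1 / 3) +
        (pp w f 2 - 1 / 3) = 0) (by linarith)
  apply abs_le_of_sq_le_sq
  · refine key.trans ?_
    nlinarith [sq_nonneg (L ^ 2)]
  · linarith

theorem PartX.bb_small (h : PartX G w f) (v : V) : G.bb w f v < 65 / 1000 := by
  have hw : ∀ v, 0 ≤ w v := fun v => (h.near.pos v).le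
  have hL := bd1_LLsq h
  have hL' := h.LL_le
  have hL0 : 0 ≤ LL G w := bd1_LL_nonneg
  have hB := bd1_Bin_le h
  have hpt := pt h.near v
  have hchi := G.chi_nonneg w hw v
  have hcg := G.chi_ge w f hw v
  have hx := fun j => abs_le.mp (h.hx j)
  set L := LL G w
  set N := G.nn w v
  have hsq : 0 ≤ (G.oo w v - 1 / 3 + L / 2) ^ 2 := sq_nonneg _
  have hsq' : 0 ≤ (N - 1 / 3 + L / 2) ^ 2 := sq_nonneg _
  obtain ⟨i, hi⟩ := bd1_profile (pp w f) (G.al w f v) L (G.al_nonneg w f hw v)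
    (G.al_le w f hw v) (pp_sum w f h.near.sum)
    (fun i => by have := (hx i).1; linarith) (fun i => by have := (hx i).2; linarith)
    (by
      rw [G.al_sum w f v]
      show 17 / 100 < N
      by_contra hc
      push Not at hc
      have h1 : (N - 1 / 3 + L / 2) ^ 2 ≤ 2 / 3 * L + L ^ 2 / 2 + 1 / 10 ^ 15 := by linarith
      nlinarith)
    (by
      rw [G.al_sum w f v]
      show N < _
      by_contra hc
      push Not at hc
      have h1 : (N - 1 / 3 + L / 2) ^ 2 ≤ 2 / 3 * L + L ^ 2 / 2 + 1 / 10 ^ 15 := by linarith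
      nlinarith)
    (by linarith)
  exact lt_of_le_of_lt (G.min_le w h.near.pos f h.min v i) hi

end FDX
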