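import Pool.Agent.FDX.Bd1
/-! FDX-Bd2. PLAN: the beginning of `Part.lab` in FDF/B2.lean: `phi_ge` (FDF/PPhi.lean), `bb < .065` and `|x_j| ≤ .1228`: pointwise
`bin + ∑_{i≠f v} (1 + 3(x_i + x_{f v})) al v i - 3 bb² ≥ .436 bb` (coefficients `1 - .195`, `1 - .3684 - .195 = .4366`).
`sum_sq_le`: `sum_sq` (`∑ (pp j - 1/3)² = gam + Bin - Bcr`), `c1` and `T1_ge`: `T1 ≥ .24 Bin + .87 Bcr`, so `7 T1 + Bcr - Bin ≥ 0`. -/
namespace FDX
open Finset FDF
open scoped BigOperators Classical
variable {V : Type} {G : OG V} [Fintype V] {w : V → ℝ} {f : V → Fin 3}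

private lemma bd2_fin3_cases (i : Fin 3) : i = 0 ∨ i = 1 ∨ i = 2 := by
  fin_cases i <;> simp

private lemma bd2_pair (h : PartX G w f) (i j : Fin 3) (hij : i ≠ j) :
    2 / 3 - 1228 / 10000 ≤ pp w f i + pp w f j := by
  have hps : pp w f 0 + pp w f 1 + pp w f 2 = 1 := by
    have := pp_sum w f h.near.sum
    rwa [Fin.sum_univ_three] at this
  have hL2 : 0 ≤ LL G w ^ 2 := sq_nonneg _
  have hx2 : ∀ j, pp w f j - 1 / 3 ≤ 1228 / 10000 := fun j =>
    (abs_le.mp ((h.hx j).trans (by linarith))).2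
  have h0 := hx2 0
  have h1 := hx2 1
  have h2 := hx2 2
  rcases bd2_fin3_cases i with rfl | rfl | rfl <;> rcases bd2_fin3_cases j with rfl | rfl | rfl <;>
    first
      | exact absurd rfl hij
      | linarith

private lemma bd2_bbsq (h : PartX G w f) (v : V) :
    G.bb w f v ^ 2 ≤ 65 / 1000 * G.bb w f v := by
  have hw : ∀ v, 0 ≤ w v := fun v => (h.near.pos v).le
  have h1 := h.bb_small v
  have h2 : 0 ≤ G.bb w f v :=
    add_nonneg (OG.bin_nonneg w f G hw v) (OG.bcr_nonneg w f G hw v)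
  nlinarith

theorem PartX.phi436 (h : PartX G w f) : 3 * xxx w f + 436 / 1000 * G.Btot w f ≤ Phi G w := by
  have hw : ∀ v, 0 ≤ w v := fun v => (h.near.pos v).le
  have hA : ∀ v, 436 / 1000 * G.bb w f v ≤ G.bin w f v +
        (∑ i, if i = f v then 0 else
          (1 + 3 * ((pp w f i - 1 / 3) + (pp w f (f v) - 1 / 3))) * G.al w f v i)
        - 3 * G.bb w f v ^ 2 := by
    intro v
    have h1 : 6316 / 10000 * G.bcr w f v ≤ ∑ i, if i = f v then 0 else
          (1 + 3 * ((pp w f i - 1 / 3) + (pp w f (f v) - 1 / 3))) * G.al w f v i := by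
      rw [OG.bcr_eq w f G v, Finset.mul_sum]
      refine Finset.sum_le_sum fun i _ => ?_
      by_cases hi : i = f v
      · rw [if_pos hi, if_pos hi, mul_zero]
      · rw [if_neg hi, if_neg hi]
        refine mul_le_mul_of_nonneg_right ?_ (OG.al_nonneg w f G hw v i)
        have := bd2_pair h i (f v) hi
        linarith
    have h2 := bd2_bbsq h v
    have h3 : G.bb w f v = G.bin w f v + G.bcr w f v := rfl
    have h4 := OG.bin_nonneg w f G hw v
    have h5 := OG.bcr_nonneg w f G hw v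
    rw [h3] at h2 ⊢
    linarith
  have hBtot : 436 / 1000 * G.Btot w f ≤ ∑ v, w v * (G.bin w f v +
        (∑ i, if i = f v then 0 else
          (1 + 3 * ((pp w f i - 1 / 3) + (pp w f (f v) - 1 / 3))) * G.al w f v i)
        - 3 * G.bb w f v ^ 2) := by
    unfold OG.Btot
    rw [Finset.mul_sum]
    refine Finset.sum_le_sum fun v _ => ?_
    have := mul_le_mul_of_nonneg_left (hA v) (hw v)
    linarith
  have h1 := OG.phi_ge G w f hw h.near.sum
  unfold xxx Phi
  linarith

theorem PartX.sum_sq_le (h : PartX G w f) : ∑ j, (pp w f j - 1 / 3) ^ 2 ≤ 126 / 10000 + 1 / 10 ^ 10 := by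
  have hw : ∀ v, 0 ≤ w v := fun v => (h.near.pos v).le
  have hx1 : ∀ j, -(1228 / 10000) ≤ pp w f j - 1 / 3 := fun j => by
    have hL2 : 0 ≤ LL G w ^ 2 := sq_nonneg _
    exact (abs_le.mp ((h.hx j).trans (by linarith))).1
  have hT : ∀ v, 24 / 100 * G.bin w f v + 87 / 100 * G.bcr w f v ≤
      3 * (pp w f (f v) * G.bin w f v +
      (∑ i, if i = f v then 0 else (pp w f i + pp w f (f v)) * G.al w f v i)
      - 2 * G.bb w f v ^ 2) := by
    intro v
    have h1 : 54 / 100 * G.bcr w f v ≤ ∑ i, if i = f v then 0 else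
          (pp w f i + pp w f (f v)) * G.al w f v i := by
      rw [OG.bcr_eq w f G v, Finset.mul_sum]
      refine Finset.sum_le_sum fun i _ => ?_
      by_cases hi : i = f v
      · rw [if_pos hi, if_pos hi, mul_zero]
      · rw [if_neg hi, if_neg hi]
        refine mul_le_mul_of_nonneg_right ?_ (OG.al_nonneg w f G hw v i)
        have := bd2_pair h i (f v) hi
        linarith
    have h2 := bd2_bbsq h v
    have h3 : G.bb w f v = G.bin w f v + G.bcr w f v := rfl
    have h4 := OG.bin_nonneg w f G hw v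
    have h5 := OG.bcr_nonneg w f G hw v
    have h6 : 21 / 100 * G.bin w f v ≤ pp w f (f v) * G.bin w f v := by
      refine mul_le_mul_of_nonneg_right ?_ h4
      have := hx1 (f v)
      linarith
    rw [h3] at h2 ⊢
    linarith
  have hTsum : 24 / 100 * G.Bin w f + 87 / 100 * G.Bcr w f ≤ G.T1 w := by
    refine le_trans ?_ (OG.T1_ge G w f hw)
    unfold OG.Bin OG.Bcr
    rw [Finset.mul_sum, Finset.mul_sum, Finset.mul_sum, ← Finset.sum_add_distrib]
    refine Finset.sum_le_sum fun v _ => ?_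
    have := mul_le_mul_of_nonneg_left (hT v) (hw v)
    linarith
  have hBin0 : 0 ≤ G.Bin w f :=
    Finset.sum_nonneg fun v _ => mul_nonneg (hw v) (OG.bin_nonneg w f G hw v)
  have hBcr0 : 0 ≤ G.Bcr w f :=
    Finset.sum_nonneg fun v _ => mul_nonneg (hw v) (OG.bcr_nonneg w f G hw v)
  have h1 := OG.sum_sq w f G h.near.sum
  have h2 := h.c1
  rw [h1]
  linarith

end FDX
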