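import Pool.Agent.FDX.Bd2
/-! FDX-Bd3. Smallness of `bb` and `be1` in the nearly optimal case (as in FDF/B3.lean): for every `v`,
`∑_j al (pp - al) ≤ chi + Bin/2 ≤ .0082`, and the profiles are small. -/
namespace FDX
open Finset FDF
open scoped BigOperators Classical
variable {V : Type} {G : OG V} [Fintype V] {w : V → ℝ} {f : V → Fin 3}

/-- sum over the three parts, written with the three labels -/
private lemma bd3_sum_lab {iA iB iC : Fin 3} (hab : iA ≠ iB) (hac : iA ≠ iC) (hbc : iB ≠ iC)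
    (g : Fin 3 → ℝ) : ∑ j, g j = g iA + g iB + g iC := by
  rw [Fin.sum_univ_three]
  fin_cases iA <;> fin_cases iB <;> fin_cases iC <;> simp at hab hac hbc ⊢ <;> ring

private lemma bd3_m {iA iB iC : Fin 3} {m : ℝ} (l : LabX G w f iA iB iC m) :
    m ≤ 917 / 10000 := by
  have h2 := l.abs2
  have hm := l.m0
  by_contra hc
  push Not at hc
  have h3 : (917 / 10000 : ℝ) ^ 2 < m ^ 2 := by
    apply pow_lt_pow_left₀ hc (by norm_num) (by norm_num)
  norm_num at h2 h3
  linarith

private lemma bd3_S_le (h : PartX G w f) {iA iB iC : Fin 3} {m : ℝ} (l : LabX G w f iA iB iC m)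
    (v : V) : ∑ j, G.al w f v j * (pp w f j - G.al w f v j) ≤ 82 / 10000 := by
  have hw : ∀ v, 0 ≤ w v := fun v => (h.near.pos v).le
  have hc := G.chi_ge w f hw v
  have hp := FDX.pt h.near v
  have hB : G.Btot w f = G.Bin w f + G.Bcr w f := G.Btot_eq w f
  have hcr : 0 ≤ G.Bcr w f :=
    Finset.sum_nonneg fun u _ => mul_nonneg (hw u) (G.bcr_nonneg w f hw u)
  have hin : 0 ≤ G.Bin w f :=
    Finset.sum_nonneg fun u _ => mul_nonneg (hw u) (G.bin_nonneg w f hw u)
  have h1 := l.abs1
  have hl : 0 < LL G w := LL_pos hw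
  have s1 := sq_nonneg (G.nn w v - 1 / 3 + LL G w / 2)
  have s2 := sq_nonneg (G.oo w v - 1 / 3 + LL G w / 2)
  obtain ⟨L, hL⟩ : ∃ L, L = LL G w := ⟨_, rfl⟩
  rw [← hL] at hp h1 hl s1 s2
  have hl2 : L ^ 2 ≤ 5779 / 10 ^ 7 := by nlinarith
  have hl3 : L ≤ 2405 / 100000 := by
    by_contra hcc
    push Not at hcc
    have h3 : (2405 / 100000 : ℝ) ^ 2 < L ^ 2 :=
      pow_lt_pow_left₀ hcc (by norm_num) (by norm_num)
    norm_num at hl2 h3
    linarith
  have hchi : G.chi w v ≤ L / 3 + L ^ 2 / 4 + 1 / 2 * (1 / 10 ^ 15) := by linarith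
  have hBin : G.Bin w f ≤ (5779 / 10 ^ 7 - L ^ 2) / (435 / 1000) := by
    rw [le_div_iff₀ (by norm_num)]
    linarith
  have s3 := sq_nonneg (L - 2405 / 100000)
  have e1 : L / 3 + L ^ 2 / 4 + 1 / 2 * (1 / 10 ^ 15) +
      (5779 / 10 ^ 7 - L ^ 2) / (435 / 1000) / 2 ≤ 82 / 10000 := by
    norm_num at s3 ⊢
    nlinarith
  linarith

private lemma bd3_mu_ge {x p q M : ℝ} (hx : 0 ≤ x) (hxM : x ≤ M) (hq : q ≤ p) :
    x * (q - M) ≤ x * (p - x) := by
  apply mul_le_mul_of_nonneg_left _ hx
  linarith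

theorem PartX.bb_small2 (h : PartX G w f) {iA iB iC : Fin 3} {m : ℝ} (l : LabX G w f iA iB iC m) (v : V) :
    G.bb w f v < 411 / 10000 := by
  have hw : ∀ v, 0 ≤ w v := fun v => (h.near.pos v).le
  have hm := l.m0
  have hm1 := bd3_m l
  have hS := bd3_S_le h l v
  have hb := h.bb_small v
  have hq : ∀ j, 24163 / 100000 ≤ pp w f j := by
    have hA := l.hA; have hB := l.hB; have hC := l.hC
    intro j
    have hj : j = iA ∨ j = iB ∨ j = iC := by
      have := l.ab; have := l.ac; have := l.bc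
      fin_cases iA <;> fin_cases iB <;> fin_cases iC <;> fin_cases j <;> simp_all
    rcases hj with rfl | rfl | rfl
    · norm_num at hA ⊢
      linarith
    · norm_num at hB ⊢
      linarith
    · rw [hC]; linarith
  have hbin := G.bin_eq w f v
  have hbcr := G.bcr_eq w f v
  have hbin0 := G.bin_nonneg w f hw v
  have ha0 := G.al_nonneg w f hw v
  refine round2 _ (24163 / 100000) hb le_rfl ?_
  refine le_trans ?_ hS
  have hbb : G.bb w f v = G.bin w f v + ∑ j, if j = f v then 0 else G.al w f v j := by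
    unfold OG.bb; rw [hbcr]
  set M := G.bb w f v with hM
  have key : ∀ j, (if j = f v then G.bin w f v else G.al w f v j) * (24163 / 100000 - M) ≤
      G.al w f v j * (pp w f j - G.al w f v j) := by
    have hle : ∀ j, (if j = f v then 0 else G.al w f v j) ≤ ∑ j, if j = f v then 0 else G.al w f v j := by
      intro j
      refine Finset.single_le_sum (f := fun j => if j = f v then 0 else G.al w f v j) (fun i _ => ?_) (Finset.mem_univ j)
      split_ifs
      · exact le_rfl
      · exact ha0 i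
    have hsum0 : 0 ≤ ∑ j, if j = f v then 0 else G.al w f v j := by
      refine Finset.sum_nonneg fun i _ => ?_
      split_ifs
      · exact le_rfl
      · exact ha0 i
    intro j
    by_cases hj : j = f v
    · subst hj
      rw [if_pos rfl]
      have h3 : G.al w f v (f v) * (pp w f (f v) - G.al w f v (f v)) =
          G.bin w f v * (pp w f (f v) - G.bin w f v) := by rw [hbin]; ring
      rw [h3]
      exact bd3_mu_ge hbin0 (by rw [hbb]; linarith) (hq _)
    · rw [if_neg hj]
      refine bd3_mu_ge (ha0 j) ?_ (hq _)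
      have h4 := hle j
      rw [if_neg hj] at h4
      rw [hbb]; linarith
  have hMs : M = ∑ j, if j = f v then G.bin w f v else G.al w f v j := by
    rw [hbb]
    have : ∀ j, (if j = f v then G.bin w f v else G.al w f v j) =
        (if j = f v then G.bin w f v else 0) + (if j = f v then 0 else G.al w f v j) := by
      intro j; split_ifs <;> simp
    rw [Finset.sum_congr rfl fun j _ => this j, Finset.sum_add_distrib]
    simp
  calc M * (24163 / 100000 - M) = ∑ j, (if j = f v then G.bin w f v else G.al w f v j) * (24163 / 100000 - M) := by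
        rw [← Finset.sum_mul, ← hMs]
    _ ≤ _ := Finset.sum_le_sum fun j _ => key j

private theorem bd3_round3 (M : ℝ) (hM : M < 411 / 10000)
    (h : M * (1 / 3 - 1 / 10 ^ 12 - M) ≤ 82 / 10000) : M < 268 / 10000 := by
  by_contra hcon
  push Not at hcon
  have : 0 ≤ (M - 268 / 10000) * (1 / 3 - 1 / 10 ^ 12 - M - 268 / 10000) :=
    mul_nonneg (by linarith) (by norm_num; linarith)
  norm_num at h this
  nlinarith

private lemma bd3_be1_aux (h : PartX G w f) {iA iB iC : Fin 3} {m : ℝ} (l : LabX G w f iA iB iC m)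
    (v : V) (i j k : Fin 3) (hij : i ≠ j) (hik : i ≠ k) (hjk : j ≠ k)
    (hi : 1 / 3 - 1 / 10 ^ 12 ≤ pp w f i) (hj : 1 / 3 - 1 / 10 ^ 12 ≤ pp w f j)
    (hv : f v = i) : G.bin w f v + G.al w f v j < 268 / 10000 := by
  have hw : ∀ v, 0 ≤ w v := fun v => (h.near.pos v).le
  have hS := bd3_S_le h l v
  have hb := h.bb_small2 l v
  have hbin := G.bin_eq w f v
  have hbcr := G.bcr_eq w f v
  have hbin0 := G.bin_nonneg w f hw v
  have ha0 := G.al_nonneg w f hw v
  have hak := G.al_le w f hw v k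
  rw [bd3_sum_lab hij hik hjk] at hS hbcr
  have hbb : G.bb w f v = G.bin w f v + (G.al w f v j + G.al w f v k) := by
    unfold OG.bb; rw [hbcr, hv]
    rw [if_pos rfl, if_neg (Ne.symm hij), if_neg (Ne.symm hik)]; ring
  have hlt : G.bin w f v + G.al w f v j < 411 / 10000 := by
    have := ha0 k
    linarith
  refine bd3_round3 _ hlt (le_trans ?_ hS)
  have e1 : G.al w f v i * (pp w f i - G.al w f v i) = G.bin w f v * (pp w f i - G.bin w f v) := by
    rw [hbin, hv]; ring
  rw [e1]
  have k1 := bd3_mu_ge (x := G.bin w f v) (p := pp w f i) (q := 1 / 3 - 1 / 10 ^ 12)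
    (M := G.bin w f v + G.al w f v j) hbin0 (by have := ha0 j; linarith) hi
  have k2 := bd3_mu_ge (x := G.al w f v j) (p := pp w f j) (q := 1 / 3 - 1 / 10 ^ 12)
    (M := G.bin w f v + G.al w f v j) (ha0 j) (by linarith) hj
  have k3 : 0 ≤ G.al w f v k * (pp w f k - G.al w f v k) := mul_nonneg (ha0 k) (by linarith)
  linarith

theorem PartX.be1_small (h : PartX G w f) {iA iB iC : Fin 3} {m : ℝ} (l : LabX G w f iA iB iC m) (v : V) :
    OG.be1 G w f iA iB v < 268 / 10000 := by
  unfold OG.be1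
  split_ifs with hA hB
  · exact bd3_be1_aux h l v iA iB iC l.ab l.ac l.bc l.hA l.hB hA
  · exact bd3_be1_aux h l v iB iA iC (Ne.symm l.ab) l.bc l.ac l.hB l.hA hB
  · norm_num

end FDX
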