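import Pool.Agent.FDX.Bd3
/-! FDX-Bd4. PLAN: as FDF/B4.lean (private lemmas `s3`, `p3`, `off3`, `three`, `numA`, `numC`, `numA2`, `numC2`, `point1`, `point2`: copy). Changes: in
the place of `0 ≤ xA`, `0 ≤ xB` only `-(1/10^12) ≤ xA`, `-(1/10^12) ≤ xB` (`l.hA`, `l.hB`), `xA + xB = m > 0`, `m ≤ .0917`; `fin1` pointwise:
`9195/10000 * be1 + 1/10000 * bb ≤ bin + ∑ ... - 3 bb²` (be: `1 - 3*.0268 = .9196`; al_C: `1 - 3 x_B - 3*.0822 - .0001 > 0`), no sign of
the product needed (it stays `3 * xxx`); `fin2` pointwise with 427/100 as before (there is room: `6 - 42*.0268 = 4.87`). -/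
namespace FDX
open Finset FDF
open scoped BigOperators Classical
variable {V : Type} {G : OG V} [Fintype V] {w : V → ℝ} {f : V → Fin 3}

private lemma s3 (x : Fin 3 → ℝ) {a b c : Fin 3} (hab : a ≠ b) (hac : a ≠ c) (hbc : b ≠ c) :
    ∑ i, x i = x a + x b + x c := by
  rw [Fin.sum_univ_three]
  fin_cases a <;> fin_cases b <;> fin_cases c <;> simp at hab hac hbc <;> simp <;> ring

private lemma off3 (x : Fin 3 → ℝ) {a b c : Fin 3} (hab : a ≠ b) (hac : a ≠ c) (hbc : b ≠ c) :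
    (∑ i, if i = a then 0 else x i) = x b + x c := by
  rw [s3 _ hab hac hbc, if_pos rfl, if_neg hab.symm, if_neg hac.symm, zero_add]

private lemma three {iA iB iC : Fin 3} (hab : iA ≠ iB) (hac : iA ≠ iC) (hbc : iB ≠ iC)
    (j : Fin 3) : j = iA ∨ j = iB ∨ j = iC := by
  revert hab hac hbc
  revert iA iB iC j
  decide

private lemma m_bd {m : ℝ} (h2 : 3 / 2 * m ^ 2 ≤ 126 / 10000 + 1 / 10 ^ 9) :
    m ≤ 917 / 10000 := by
  norm_num at h2 ⊢
  nlinarith

private lemma numA (m xA xB bi aB aC be bb : ℝ) (hm : m ≤ 917 / 10000) (hm0 : 0 < m)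
    (hA : -(1 / 10 ^ 12) ≤ xA) (hs : xA + xB = m) (haB : 0 ≤ aB)
    (haC : 0 ≤ aC) (hbi : 0 ≤ bi)
    (hbe : be = bi + aB) (hbb : bb = bi + (aB + aC)) (h1 : bb < 411 / 10000)
    (h2 : be < 268 / 10000) :
    9195 / 10000 * be + 1 / 10000 * bb ≤ bi + ((1 + 3 * (xB + xA)) * aB +
      (1 + 3 * (-m + xA)) * aC) - 3 * bb ^ 2 := by
  have hA' : -(1 / 10000) ≤ xA := by
    refine le_trans ?_ hA
    norm_num
  have e1 : bb = be + aC := by rw [hbe, hbb]; ring
  have hbe0 : 0 ≤ be := by rw [hbe]; linarith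
  have k1 : be * be ≤ 268 / 10000 * be := mul_le_mul_of_nonneg_right h2.le hbe0
  have k2 : aC * (be + bb) ≤ aC * (822 / 10000) := by
    refine mul_le_mul_of_nonneg_left ?_ haC
    linarith
  have k3 : bb ^ 2 = be * be + aC * (be + bb) := by rw [e1]; ring
  have k4 : 0 ≤ (xB + xA) * aB := mul_nonneg (by linarith) haB
  have k5 : xB * aC ≤ 918 / 10000 * aC := mul_le_mul_of_nonneg_right (by linarith) haC
  have k6 : -m + xA = -xB := by linarith
  rw [k6, k3]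
  have k7 : bi = be - aB := by rw [hbe]; ring
  rw [k7]
  nlinarith

private lemma numC (m xA xB bi aA aB bb : ℝ) (hm : m ≤ 917 / 10000)
    (hA : -(1 / 10 ^ 12) ≤ xA) (hB : -(1 / 10 ^ 12) ≤ xB) (hs : xA + xB = m) (hbi : 0 ≤ bi)
    (haA : 0 ≤ aA) (haB : 0 ≤ aB)
    (hbb : bb = bi + (aA + aB)) (h1 : bb < 411 / 10000) :
    1 / 10000 * bb ≤ bi + ((1 + 3 * (xA + -m)) * aA + (1 + 3 * (xB + -m)) * aB)
      - 3 * bb ^ 2 := by
  have hA' : -(1 / 10000) ≤ xA := by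
    refine le_trans ?_ hA
    norm_num
  have hB' : -(1 / 10000) ≤ xB := by
    refine le_trans ?_ hB
    norm_num
  have hbb0 : 0 ≤ bb := by rw [hbb]; linarith
  have k1 : bb * bb ≤ 411 / 10000 * bb := mul_le_mul_of_nonneg_right h1.le hbb0
  have k2 : xA + -m = -xB := by linarith
  have k3 : xB + -m = -xA := by linarith
  have k4 : xB * aA ≤ 918 / 10000 * aA := mul_le_mul_of_nonneg_right (by linarith) haA
  have k5 : xA * aB ≤ 918 / 10000 * aB := mul_le_mul_of_nonneg_right (by linarith) haB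
  rw [k2, k3]
  nlinarith

private lemma numA2 (m xA xB bi aB aC be bb : ℝ) (hm : m ≤ 917 / 10000) (hm0 : 0 < m)
    (hA : -(1 / 10 ^ 12) ≤ xA) (hs : xA + xB = m) (hbi : 0 ≤ bi) (haB : 0 ≤ aB)
    (haC : 0 ≤ aC)
    (hbe : be = bi + aB) (hbb : bb = bi + (aB + aC)) (h1 : bb < 411 / 10000)
    (h2 : be < 268 / 10000) :
    427 / 100 * be ≤ 21 * ((1 / 3 + xA) * bi + (((1 / 3 + xB) + (1 / 3 + xA)) * aB +
      ((1 / 3 - m) + (1 / 3 + xA)) * aC) - 2 * bb ^ 2) - bi + (aB + aC) := by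
  have hA' : -(1 / 10000) ≤ xA := by
    refine le_trans ?_ hA
    norm_num
  have e1 : bb = be + aC := by rw [hbe, hbb]; ring
  have hbe0 : 0 ≤ be := by rw [hbe]; linarith
  have k1 : be * be ≤ 268 / 10000 * be := mul_le_mul_of_nonneg_right h2.le hbe0
  have k2 : aC * (be + bb) ≤ aC * (822 / 10000) := by
    refine mul_le_mul_of_nonneg_left ?_ haC
    linarith
  have k3 : bb ^ 2 = be * be + aC * (be + bb) := by rw [e1]; ring
  have k4 : 0 ≤ (xB + xA) * aB := mul_nonneg (by linarith) haB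
  have k5 : xB * aC ≤ 918 / 10000 * aC := mul_le_mul_of_nonneg_right (by linarith) haC
  have k6 : (1 / 3 - m) + (1 / 3 + xA) = 2 / 3 - xB := by linarith
  have k7 : bi = be - aB := by rw [hbe]; ring
  have k8 : -(1 / 10000) * bi ≤ xA * bi := mul_le_mul_of_nonneg_right hA' hbi
  have k9 : aB ≤ be := by rw [hbe]; linarith
  rw [k6, k3]
  have k10 : (1 / 3 + xA) * bi = 1 / 3 * bi + xA * bi := by ring
  rw [k10]
  nlinarith

private lemma numC2 (m xA xB bi aA aB bb : ℝ) (hm : m ≤ 917 / 10000)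
    (hA : -(1 / 10 ^ 12) ≤ xA) (hB : -(1 / 10 ^ 12) ≤ xB) (hs : xA + xB = m) (hbi : 0 ≤ bi)
    (haA : 0 ≤ aA) (haB : 0 ≤ aB)
    (hbb : bb = bi + (aA + aB)) (h1 : bb < 411 / 10000) :
    0 ≤ 21 * ((1 / 3 - m) * bi + (((1 / 3 + xA) + (1 / 3 - m)) * aA +
      ((1 / 3 + xB) + (1 / 3 - m)) * aB) - 2 * bb ^ 2) - bi + (aA + aB) := by
  have hA' : -(1 / 10000) ≤ xA := by
    refine le_trans ?_ hA
    norm_num
  have hB' : -(1 / 10000) ≤ xB := by
    refine le_trans ?_ hB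
    norm_num
  have hbb0 : 0 ≤ bb := by rw [hbb]; linarith
  have k1 : bb * bb ≤ 411 / 10000 * bb := mul_le_mul_of_nonneg_right h1.le hbb0
  have k2 : (1 / 3 + xA) + (1 / 3 - m) = 2 / 3 - xB := by linarith
  have k3 : (1 / 3 + xB) + (1 / 3 - m) = 2 / 3 - xA := by linarith
  have k4 : xB * aA ≤ 918 / 10000 * aA := mul_le_mul_of_nonneg_right (by linarith) haA
  have k5 : xA * aB ≤ 918 / 10000 * aB := mul_le_mul_of_nonneg_right (by linarith) haB
  have k6 : m * bi ≤ 917 / 10000 * bi := mul_le_mul_of_nonneg_right hm hbi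
  rw [k2, k3]
  nlinarith

private lemma point1 (h : PartX G w f) {iA iB iC : Fin 3} {m : ℝ} (l : LabX G w f iA iB iC m)
    (v : V) :
    9195 / 10000 * OG.be1 G w f iA iB v + 1 / 10000 * G.bb w f v ≤ G.bin w f v +
        (∑ i, if i = f v then 0 else
          (1 + 3 * ((pp w f i - 1 / 3) + (pp w f (f v) - 1 / 3))) * G.al w f v i)
        - 3 * G.bb w f v ^ 2 := by
  have hw : ∀ v, 0 ≤ w v := fun v => (h.near.pos v).le
  have hm := m_bd l.abs2
  have hm0 := l.m0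
  have hbb := h.bb_small2 l v
  have hbe := h.be1_small l v
  have hbi := G.bin_nonneg w f hw v
  have hal := G.al_nonneg w f hw v
  have hA : -(1 / 10 ^ 12) ≤ pp w f iA - 1 / 3 := by linarith [l.hA]
  have hB : -(1 / 10 ^ 12) ≤ pp w f iB - 1 / 3 := by linarith [l.hB]
  have hC := l.hC
  have hs := l.sum
  have ebb : G.bb w f v = G.bin w f v + ∑ j, if j = f v then 0 else G.al w f v j := by
    unfold OG.bb
    rw [OG.bcr_eq]
  have hC' : pp w f iC - 1 / 3 = -m := by rw [hC]; ring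
  rcases three l.ab l.ac l.bc (f v) with hv | hv | hv
  · rw [hv, off3 _ l.ab l.ac l.bc] at ebb ⊢
    have ebe : OG.be1 G w f iA iB v = G.bin w f v + G.al w f v iB := by
      unfold OG.be1
      rw [if_pos hv]
    rw [hC']
    exact numA m _ _ _ _ _ _ _ hm hm0 hA hs (hal iB) (hal iC) hbi ebe ebb hbb hbe
  · rw [hv, off3 _ l.ab.symm l.bc l.ac] at ebb ⊢
    have ebe : OG.be1 G w f iA iB v = G.bin w f v + G.al w f v iA := by
      unfold OG.be1
      rw [if_neg (by rw [hv]; exact l.ab.symm), if_pos hv]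
    rw [hC']
    exact numA m _ _ _ _ _ _ _ hm hm0 hB (by linarith) (hal iA) (hal iC) hbi ebe ebb hbb hbe
  · rw [hv, off3 _ l.ac.symm l.bc.symm l.ab] at ebb ⊢
    have ebe : OG.be1 G w f iA iB v = 0 := by
      unfold OG.be1
      rw [if_neg (by rw [hv]; exact l.ac.symm), if_neg (by rw [hv]; exact l.bc.symm)]
    rw [hC', ebe, mul_zero, zero_add]
    exact numC m _ _ _ _ _ _ hm hA hB hs hbi (hal iA) (hal iB) ebb hbb

private lemma point2 (h : PartX G w f) {iA iB iC : Fin 3} {m : ℝ} (l : LabX G w f iA iB iC m)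
    (v : V) :
    427 / 100 * OG.be1 G w f iA iB v ≤ 21 * (pp w f (f v) * G.bin w f v +
      (∑ i, if i = f v then 0 else (pp w f i + pp w f (f v)) * G.al w f v i)
      - 2 * G.bb w f v ^ 2) - G.bin w f v + G.bcr w f v := by
  have hw : ∀ v, 0 ≤ w v := fun v => (h.near.pos v).le
  have hm := m_bd l.abs2
  have hm0 := l.m0
  have hbb := h.bb_small2 l v
  have hbe := h.be1_small l v
  have hbi := G.bin_nonneg w f hw v
  have hal := G.al_nonneg w f hw v
  have hC := l.hC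
  have hs := l.sum
  have ebb : G.bb w f v = G.bin w f v + ∑ j, if j = f v then 0 else G.al w f v j := by
    unfold OG.bb
    rw [OG.bcr_eq]
  rw [OG.bcr_eq]
  obtain ⟨xA, hxA⟩ : ∃ xA, xA = pp w f iA - 1 / 3 := ⟨_, rfl⟩
  obtain ⟨xB, hxB⟩ : ∃ xB, xB = pp w f iB - 1 / 3 := ⟨_, rfl⟩
  have eA : pp w f iA = 1 / 3 + xA := by rw [hxA]; ring
  have eB : pp w f iB = 1 / 3 + xB := by rw [hxB]; ring
  have hA0 : -(1 / 10 ^ 12) ≤ xA := by rw [hxA]; linarith [l.hA]
  have hB0 : -(1 / 10 ^ 12) ≤ xB := by rw [hxB]; linarith [l.hB]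
  have hs' : xA + xB = m := by rw [hxA, hxB]; exact hs
  rcases three l.ab l.ac l.bc (f v) with hv | hv | hv
  · rw [hv, off3 _ l.ab l.ac l.bc] at ebb
    rw [hv, off3 _ l.ab l.ac l.bc, off3 _ l.ab l.ac l.bc]
    have ebe : OG.be1 G w f iA iB v = G.bin w f v + G.al w f v iB := by
      unfold OG.be1
      rw [if_pos hv]
    rw [eA, eB, hC]
    exact numA2 m _ _ _ _ _ _ _ hm hm0 hA0 hs' hbi (hal iB) (hal iC) ebe ebb hbb hbe
  · rw [hv, off3 _ l.ab.symm l.bc l.ac] at ebb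
    rw [hv, off3 _ l.ab.symm l.bc l.ac, off3 _ l.ab.symm l.bc l.ac]
    have ebe : OG.be1 G w f iA iB v = G.bin w f v + G.al w f v iA := by
      unfold OG.be1
      rw [if_neg (by rw [hv]; exact l.ab.symm), if_pos hv]
    rw [eA, eB, hC]
    exact numA2 m _ _ _ _ _ _ _ hm hm0 hB0 (by linarith) hbi (hal iA) (hal iC) ebe ebb hbb hbe
  · rw [hv, off3 _ l.ac.symm l.bc.symm l.ab] at ebb
    rw [hv, off3 _ l.ac.symm l.bc.symm l.ab, off3 _ l.ac.symm l.bc.symm l.ab]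
    have ebe : OG.be1 G w f iA iB v = 0 := by
      unfold OG.be1
      rw [if_neg (by rw [hv]; exact l.ac.symm), if_neg (by rw [hv]; exact l.bc.symm)]
    rw [eA, eB, hC, ebe, mul_zero]
    exact numC2 m _ _ _ _ _ _ hm hA0 hB0 hs' hbi (hal iA) (hal iB) ebb hbb

theorem PartX.fin1 (h : PartX G w f) {iA iB iC : Fin 3} {m : ℝ} (l : LabX G w f iA iB iC m) :
    3 * xxx w f + (9195 / 10000 * OG.B1 G w f iA iB + 1 / 10000 * G.Btot w f) ≤ Phi G w := by
  have hw : ∀ v, 0 ≤ w v := fun v => (h.near.pos v).le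
  have k1 := G.phi_ge w f hw h.near.sum
  have k3 : 9195 / 10000 * OG.B1 G w f iA iB + 1 / 10000 * G.Btot w f ≤
      ∑ v, w v * (G.bin w f v +
        (∑ i, if i = f v then 0 else
          (1 + 3 * ((pp w f i - 1 / 3) + (pp w f (f v) - 1 / 3))) * G.al w f v i)
        - 3 * G.bb w f v ^ 2) := by
    unfold OG.B1 OG.Btot
    rw [Finset.mul_sum, Finset.mul_sum, ← Finset.sum_add_distrib]
    refine Finset.sum_le_sum fun v _ => ?_
    have k := mul_le_mul_of_nonneg_left (point1 h l v) (hw v)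
    have e : 9195 / 10000 * (w v * OG.be1 G w f iA iB v) + 1 / 10000 * (w v * G.bb w f v) =
        w v * (9195 / 10000 * OG.be1 G w f iA iB v + 1 / 10000 * G.bb w f v) := by ring
    rw [e]
    exact k
  unfold xxx Phi
  linarith

theorem PartX.fin2 (h : PartX G w f) {iA iB iC : Fin 3} {m : ℝ} (l : LabX G w f iA iB iC m) :
    3 / 2 * m ^ 2 + 427 / 100 * OG.B1 G w f iA iB ≤ 126 / 10000 + 1 / 10 ^ 9 := by
  have hw : ∀ v, 0 ≤ w v := fun v => (h.near.pos v).le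
  have k1 := G.T1_ge w f hw
  have k2 := h.c1
  have k3 := OG.sum_sq w f G h.near.sum
  have k4 : 427 / 100 * OG.B1 G w f iA iB ≤ 21 * (∑ v, w v * (pp w f (f v) * G.bin w f v +
      (∑ i, if i = f v then 0 else (pp w f i + pp w f (f v)) * G.al w f v i)
      - 2 * G.bb w f v ^ 2)) - G.Bin w f + G.Bcr w f := by
    unfold OG.B1 OG.Bin OG.Bcr
    rw [Finset.mul_sum, Finset.mul_sum, ← Finset.sum_sub_distrib, ← Finset.sum_add_distrib]
    refine Finset.sum_le_sum fun v _ => ?_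
    have k := mul_le_mul_of_nonneg_left (point2 h l v) (hw v)
    have e : 427 / 100 * (w v * OG.be1 G w f iA iB v) =
        w v * (427 / 100 * OG.be1 G w f iA iB v) := by ring
    rw [e]
    refine k.trans (le_of_eq ?_)
    ring
  have k5 := s3 (fun j => (pp w f j - 1 / 3) ^ 2) l.ab l.ac l.bc
  rw [k5] at k3
  have hC' : pp w f iC - 1 / 3 = -m := by rw [l.hC]; ring
  rw [hC'] at k3
  have hs := l.sum
  obtain ⟨xA, hxA⟩ : ∃ xA, xA = pp w f iA - 1 / 3 := ⟨_, rfl⟩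
  obtain ⟨xB, hxB⟩ : ∃ xB, xB = pp w f iB - 1 / 3 := ⟨_, rfl⟩
  rw [← hxA, ← hxB] at k3 hs
  have k6 : m ^ 2 / 2 ≤ xA ^ 2 + xB ^ 2 := by
    rw [← hs]
    nlinarith [sq_nonneg (xA - xB)]
  have k7 : (-m) ^ 2 = m ^ 2 := by ring
  rw [k7] at k3
  have k8 : (1 : ℝ) / 10 ^ 10 ≤ 1 / 10 ^ 9 := by norm_num
  linarith

end FDX
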