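import Mathlib
/-! FDX-Disc. The discrete corner lemma. `R` = arcs, `dA a = #{b ∈ B : R a b}`, `dB b = #{a ∈ A : R b a}`.
PLAN. (1) For i, j < M: `i < #{a ∈ A : dA a ≤ j}` or `j < #{b ∈ B : dB b ≤ i}`. Suppose not. `A' = {a ∈ A : j < dA a}` has more than `|A| - 1 - i ≥ 0`,
precisely `|A'| ≥ |A| - i ≥ 1` elements, `|B'| ≥ |B| - j`, `B' = {b ∈ B : i < dB b}`. Every a ∈ A' has an out-neighbour in B' (dA a > j ≥ |B \ B'|), every
b ∈ B' has an out-neighbour in A'. Take a1 ∈ A' minimising `#{b ∈ B' : R a b}`, b1 ∈ B' with R a1 b1, a2 ∈ A' with R b1 a2. b1 is not an out-neighbour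
of a2 (asymmetry), so by minimality there is b2 ∈ B' with R a2 b2 and not R a1 b2, so R b2 a1 (`hcomp`): contradiction to `hno`.
(2) Layer cake: for natural numbers d, M: `(M - d) * (M - d + 1) = ∑ j ∈ range M, (if d ≤ j then 2 * (M - j) else 0)` (truncated subtraction;
induction on M or `Finset.sum_range_id_mul_two`). So `∑_{a ∈ A} (M - dA a)(M - dA a + 1) = ∑_{j<M} 2 (M - j) #{a ∈ A : dA a ≤ j} ≥
∑_{j<M} ∑_{i<M} 2 (M - j) [i < #{a ∈ A : dA a ≤ j}]`, same for B with `∑_{i<M} ∑_{j<M} 2 (M - i) [j < #{b ∈ B : dB b ≤ i}]`; by (1) the sum is at least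
`∑_{i,j<M} 2 min (M - i) (M - j) = M(M+1)(2M+1)/3` (induction on M). -/
namespace FDX
open Finset
open scoped BigOperators Classical

/-- the first claim of the plan -/
private theorem disc_one {V : Type} (A B : Finset V) (R : V → V → Prop)
    (hcomp : ∀ a ∈ A, ∀ b ∈ B, R a b ∨ R b a) (hasym : ∀ u v, R u v → ¬ R v u)
    (hno : ∀ a ∈ A, ∀ b ∈ B, ∀ a' ∈ A, ∀ b' ∈ B, R a b → R b a' → R a' b' → R b' a → False)
    (M : ℕ) (hA : M ≤ A.card) (hB : M ≤ B.card) (i j : ℕ) (hi : i < M) (hj : j < M) :
    i < (A.filter (fun a => (B.filter (fun b => R a b)).card ≤ j)).card ∨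
      j < (B.filter (fun b => (A.filter (fun a => R b a)).card ≤ i)).card := by
  by_contra hcon
  push Not at hcon
  obtain ⟨h1, h2⟩ := hcon
  set A' := A.filter (fun a => ¬ (B.filter (fun b => R a b)).card ≤ j) with hA'
  set B' := B.filter (fun b => ¬ (A.filter (fun a => R b a)).card ≤ i) with hB'
  have hcA := Finset.card_filter_add_card_filter_not (s := A)
    (fun a => (B.filter (fun b => R a b)).card ≤ j)
  have hcB := Finset.card_filter_add_card_filter_not (s := B)
    (fun b => (A.filter (fun a => R b a)).card ≤ i)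
  have hA'pos : 0 < A'.card := by
    rw [hA']
    omega
  have houtA : ∀ a ∈ A', ∃ b ∈ B', R a b := by
    intro a ha
    rw [hA', Finset.mem_filter] at ha
    by_contra hno'
    push Not at hno'
    have hsub : B.filter (fun b => R a b) ⊆
        B.filter (fun b => (A.filter (fun a => R b a)).card ≤ i) := by
      intro b hb
      rw [Finset.mem_filter] at hb ⊢
      refine ⟨hb.1, ?_⟩
      by_contra hc
      exact hno' b (by rw [hB', Finset.mem_filter]; exact ⟨hb.1, hc⟩) hb.2
    have := Finset.card_le_card hsub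
    omega
  have houtB : ∀ b ∈ B', ∃ a ∈ A', R b a := by
    intro b hb
    rw [hB', Finset.mem_filter] at hb
    by_contra hno'
    push Not at hno'
    have hsub : A.filter (fun a => R b a) ⊆
        A.filter (fun a => (B.filter (fun b => R a b)).card ≤ j) := by
      intro a ha
      rw [Finset.mem_filter] at ha ⊢
      refine ⟨ha.1, ?_⟩
      by_contra hc
      exact hno' a (by rw [hA', Finset.mem_filter]; exact ⟨ha.1, hc⟩) ha.2
    have := Finset.card_le_card hsub
    omega
  obtain ⟨a1, ha1, hmin⟩ := Finset.exists_min_image A' (fun a => (B'.filter (fun b => R a b)).card)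
    (Finset.card_pos.mp hA'pos)
  obtain ⟨b1, hb1, h11⟩ := houtA a1 ha1
  obtain ⟨a2, ha2, h12⟩ := houtB b1 hb1
  have hex : ∃ b2 ∈ B', R a2 b2 ∧ ¬ R a1 b2 := by
    by_contra hno'
    push Not at hno'
    have hsub : B'.filter (fun b => R a2 b) ⊂ B'.filter (fun b => R a1 b) := by
      rw [Finset.ssubset_iff_of_subset]
      · refine ⟨b1, ?_, ?_⟩
        · rw [Finset.mem_filter]
          exact ⟨hb1, h11⟩
        · rw [Finset.mem_filter]
          rintro ⟨-, h⟩
          exact hasym _ _ h12 h
      · intro b hb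
        rw [Finset.mem_filter] at hb ⊢
        exact ⟨hb.1, hno' b hb.1 hb.2⟩
    have h3 := Finset.card_lt_card hsub
    have h4 := hmin a2 ha2
    omega
  obtain ⟨b2, hb2, h22, h21⟩ := hex
  have hmA : ∀ a ∈ A', a ∈ A := fun a ha => by
    rw [hA', Finset.mem_filter] at ha
    exact ha.1
  have hmB : ∀ b ∈ B', b ∈ B := fun b hb => by
    rw [hB', Finset.mem_filter] at hb
    exact hb.1
  have hR : R b2 a1 := by
    rcases hcomp a1 (hmA _ ha1) b2 (hmB _ hb2) with h | h
    · exact absurd h h21
    · exact h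
  exact hno a1 (hmA _ ha1) b1 (hmB _ hb1) a2 (hmA _ ha2) b2 (hmB _ hb2) h11 h12 h22 hR

private theorem disc_tri (e : ℕ) : ∑ k ∈ range e, 2 * (e - k) = e * (e + 1) := by
  induction e with
  | zero => simp
  | succ e ih =>
    rw [Finset.sum_range_succ']
    have : ∀ k ∈ range e, 2 * (e + 1 - (k + 1)) = 2 * (e - k) := by
      intro k _
      rw [Nat.add_sub_add_right]
    rw [Finset.sum_congr rfl this, ih]
    simp only [Nat.sub_zero]
    ring

/-- layer cake -/
private theorem disc_layer (M d : ℕ) : (M - d) * (M - d + 1) =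
    ∑ j ∈ range M, (if d ≤ j then 2 * (M - j) else 0) := by
  rcases Nat.lt_or_ge M d with h | h
  · have : ∀ j ∈ range M, (if d ≤ j then 2 * (M - j) else 0) = 0 := by
      intro j hj
      rw [Finset.mem_range] at hj
      rw [if_neg (by omega)]
    rw [Finset.sum_congr rfl this]
    have h0 : M - d = 0 := by omega
    rw [h0]
    simp
  · obtain ⟨e, rfl⟩ := Nat.exists_eq_add_of_le h
    rw [Finset.sum_range_add]
    have h1 : ∀ j ∈ range d, (if d ≤ j then 2 * (d + e - j) else 0) = 0 := by
      intro j hj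
      rw [Finset.mem_range] at hj
      rw [if_neg (by omega)]
    have h2 : ∀ k ∈ range e, (if d ≤ d + k then 2 * (d + e - (d + k)) else 0) = 2 * (e - k) := by
      intro k _
      rw [if_pos (by omega), Nat.add_sub_add_left]
    rw [Finset.sum_congr rfl h1, Finset.sum_congr rfl h2, disc_tri, Nat.add_sub_cancel_left]
    simp

private theorem disc_sq (M : ℕ) : 3 * ∑ i ∈ range M, ∑ j ∈ range M, 2 * min (M - i) (M - j) =
    M * (M + 1) * (2 * M + 1) := by
  induction M with
  | zero => simp
  | succ M ih =>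
    rw [Finset.sum_range_succ']
    have h1 : ∀ i ∈ range M, ∑ j ∈ range (M + 1), 2 * min (M + 1 - (i + 1)) (M + 1 - j) =
        ∑ j ∈ range M, 2 * min (M - i) (M - j) + 2 * (M - i) := by
      intro i _
      rw [Finset.sum_range_succ']
      congr 1
      · apply Finset.sum_congr rfl
        intro j _
        rw [Nat.add_sub_add_right, Nat.add_sub_add_right]
      · rw [Nat.add_sub_add_right, Nat.sub_zero, Nat.min_eq_left (by omega)]
    have h2 : ∑ j ∈ range (M + 1), 2 * min (M + 1 - 0) (M + 1 - j) = (M + 1) * (M + 2) := by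
      rw [← disc_tri (M + 1)]
      apply Finset.sum_congr rfl
      intro j _
      rw [Nat.sub_zero, Nat.min_eq_right (by omega)]
    rw [Finset.sum_congr rfl h1, Finset.sum_add_distrib, h2, disc_tri, mul_add, mul_add, ih]
    ring

private theorem disc_count (M α : ℕ) : ∑ i ∈ range M, (if i < α then 1 else 0) ≤ α := by
  rw [← Finset.sum_filter, Finset.sum_const, smul_eq_mul, mul_one]
  calc ((range M).filter (fun i => i < α)).card ≤ (range α).card := by
        apply Finset.card_le_card
        intro i hi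
        rw [Finset.mem_filter] at hi
        exact Finset.mem_range.mpr hi.2
    _ = α := Finset.card_range α

private theorem disc_half {V : Type} (A : Finset V) (d : V → ℕ) (M : ℕ) :
    ∑ j ∈ range M, ∑ i ∈ range M, (if i < (A.filter (fun a => d a ≤ j)).card then 2 * (M - j) else 0) ≤
      ∑ a ∈ A, (M - d a) * (M - d a + 1) := by
  have h1 : ∑ a ∈ A, (M - d a) * (M - d a + 1) =
      ∑ j ∈ range M, 2 * (M - j) * (A.filter (fun a => d a ≤ j)).card := by
    rw [Finset.sum_congr rfl (fun a _ => disc_layer M (d a)), Finset.sum_comm]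
    apply Finset.sum_congr rfl
    intro j _
    rw [← Finset.sum_filter, Finset.sum_const, smul_eq_mul, mul_comm]
  rw [h1]
  apply Finset.sum_le_sum
  intro j _
  have h2 := disc_count M (A.filter (fun a => d a ≤ j)).card
  calc ∑ i ∈ range M, (if i < (A.filter (fun a => d a ≤ j)).card then 2 * (M - j) else 0)
      = 2 * (M - j) * ∑ i ∈ range M, (if i < (A.filter (fun a => d a ≤ j)).card then 1 else 0) := by
        rw [Finset.mul_sum]
        apply Finset.sum_congr rfl
        intro i _
        split_ifs <;> simp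
    _ ≤ 2 * (M - j) * (A.filter (fun a => d a ≤ j)).card := Nat.mul_le_mul_left _ h2

theorem disc {V : Type} (A B : Finset V) (R : V → V → Prop)
    (hcomp : ∀ a ∈ A, ∀ b ∈ B, R a b ∨ R b a) (hasym : ∀ u v, R u v → ¬ R v u)
    (hno : ∀ a ∈ A, ∀ b ∈ B, ∀ a' ∈ A, ∀ b' ∈ B, R a b → R b a' → R a' b' → R b' a → False)
    (M : ℕ) (hA : M ≤ A.card) (hB : M ≤ B.card) :
    M * (M + 1) * (2 * M + 1) ≤
      3 * (∑ a ∈ A, (M - (B.filter (fun b => R a b)).card) * (M - (B.filter (fun b => R a b)).card + 1) +
        ∑ b ∈ B, (M - (A.filter (fun a => R b a)).card) * (M - (A.filter (fun a => R b a)).card + 1)) := by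
  have hA1 := disc_half A (fun a => (B.filter (fun b => R a b)).card) M
  have hB1 := disc_half B (fun b => (A.filter (fun a => R b a)).card) M
  rw [← disc_sq M]
  apply Nat.mul_le_mul_left
  refine le_trans ?_ (Nat.add_le_add hA1 hB1)
  rw [Finset.sum_comm (s := range M) (t := range M) (f := fun j i =>
    (if i < (A.filter (fun a => (fun a => (B.filter (fun b => R a b)).card) a ≤ j)).card
      then 2 * (M - j) else 0)), ← Finset.sum_add_distrib]
  apply Finset.sum_le_sum
  intro i hi
  rw [← Finset.sum_add_distrib]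
  apply Finset.sum_le_sum
  intro j hj
  rw [Finset.mem_range] at hi hj
  rcases disc_one A B R hcomp hasym hno M hA hB i j hi hj with h | h
  · rw [if_pos h]
    have : min (M - i) (M - j) ≤ M - j := min_le_right _ _
    omega
  · have h' : (if j < (B.filter (fun b => (fun b => (A.filter (fun a => R b a)).card) b ≤ i)).card
        then 2 * (M - i) else 0) = 2 * (M - i) := if_pos h
    rw [h']
    have : min (M - i) (M - j) ≤ M - i := min_le_left _ _
    omega

end FDX
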