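import Pool.Agent.FDX.Kgen
import Pool.Agent.FDX.Bd2
import Pool.Agent.FDX.Disc
import Pool.Agent.FDX.Arith
/-! FDX-Case1. No bad pairs. PLAN. `Btot = 0` and w > 0 give `adj u v ↔ f u ≠ f v` (all terms of the sums `bin`, `bcr` vanish; `bb v = 0`).
Suppose `turan n < fe G`; `kgen` with R = 436/1000 Btot = 0 (`phi436`): `YY + 3 SM < 0`. SM ≥ 0 termwise (integers), so YY < 0. Choose labels with
`cp iC` minimal (three distinct indices iA, iB, iC), `M = q - cp iC` (a natural number, positive: otherwise all Y ≥ 0 and YY ≥ 0). By `hx`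
(`|pp - 1/3| ≤ .1228`) `M ≤ cp iA, cp iB`. `disc` with A, B = the parts iA, iB, `R = G.A` (`hno`: NoC4 gives adjacent vertices in one part).
For a ∈ A: `od a ≤ dA a + cp iC = dA a + q - M`, so for t = M - dA a (truncated): `(od a - q)(od a - q - 1) ≥ t (t+1)`; same for b ∈ B. So
`3 SM ≥ M(M+1)(2M+1)`. Also for r = 0: `SM ≥ ∑ Y²`: `SM ≥ -2 ∑ (od - q)` (x(x-1) ≥ -2x for integers x, i.e. x(x+1) ≥ 0), `od_sum`, `sum_sq` with
Bin = Bcr = 0: `n² gam = ∑ X² = ∑ Y²` (r = 0). Finish with `arith1` (Arith.lean). -/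
namespace FDX
open Finset FDF
open scoped BigOperators Classical
variable {V : Type} [Fintype V]

private theorem c1_adj {G : OG V} {f : V → Fin 3} {w : V → ℝ} (hw : ∀ v, 0 < w v)
    (hB : G.Btot w f = 0) (v u : V) : G.adj v u ↔ f u ≠ f v := by
  have hw' : ∀ v, 0 ≤ w v := fun v => (hw v).le
  have h1 : w v * G.bb w f v = 0 :=
    (Finset.sum_eq_zero_iff_of_nonneg (fun v _ => mul_nonneg (hw' v)
      (add_nonneg (G.bin_nonneg w f hw' v) (G.bcr_nonneg w f hw' v)))).1 hB v (mem_univ v)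
  have h2 : G.bb w f v = 0 := by
    rcases mul_eq_zero.1 h1 with h | h
    · exact absurd h (hw v).ne'
    · exact h
  have ha := G.bin_nonneg w f hw' v
  have hb := G.bcr_nonneg w f hw' v
  have h3 : G.bin w f v = 0 := by unfold OG.bb at h2; linarith
  have h4 : G.bcr w f v = 0 := by unfold OG.bb at h2; linarith
  have h5 : (if f u = f v then w u * (1 - G.mm v u) else 0) = 0 := by
    refine (Finset.sum_eq_zero_iff_of_nonneg (fun u _ => ?_)).1 h3 u (mem_univ u)
    split_ifs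
    · exact mul_nonneg (hw' u) (by linarith [G.mm_le_one v u])
    · exact le_refl _
  have h6 : (if f u = f v then 0 else w u * G.mm v u) = 0 := by
    refine (Finset.sum_eq_zero_iff_of_nonneg (fun u _ => ?_)).1 h4 u (mem_univ u)
    split_ifs
    · exact le_refl _
    · exact mul_nonneg (hw' u) (G.mm_nonneg v u)
  by_cases hf : f u = f v
  · rw [if_pos hf] at h5
    have h7 : G.mm v u = 1 := by
      rcases mul_eq_zero.1 h5 with h | h
      · exact absurd h (hw u).ne'
      · linarith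
    constructor
    · intro hadj
      unfold OG.mm at h7
      rw [if_pos hadj] at h7
      norm_num at h7
    · intro hne
      exact absurd hf hne
  · rw [if_neg hf] at h6
    have h7 : G.mm v u = 0 := by
      rcases mul_eq_zero.1 h6 with h | h
      · exact absurd h (hw u).ne'
      · exact h
    constructor
    · intro _
      exact hf
    · intro _
      by_contra hadj
      unfold OG.mm at h7
      rw [if_neg hadj] at h7
      norm_num at h7

private theorem c1_lab (c : Fin 3 → ℕ) : ∃ iA iB iC : Fin 3, iA ≠ iB ∧ iA ≠ iC ∧ iB ≠ iC ∧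
    c iC ≤ c iA ∧ c iC ≤ c iB ∧ (∀ j, j = iA ∨ j = iB ∨ j = iC) ∧
    ∀ g : Fin 3 → ℝ, ∑ j, g j = g iA + g iB + g iC := by
  by_cases h0 : c 0 ≤ c 1 ∧ c 0 ≤ c 2
  · refine ⟨1, 2, 0, by decide, by decide, by decide, h0.1, h0.2, by decide, fun g => ?_⟩
    rw [Fin.sum_univ_three]; ring
  · by_cases h1 : c 1 ≤ c 0 ∧ c 1 ≤ c 2
    · refine ⟨0, 2, 1, by decide, by decide, by decide, h1.1, h1.2, by decide, fun g => ?_⟩
      rw [Fin.sum_univ_three]; ring
    · refine ⟨0, 1, 2, by decide, by decide, by decide, by omega, by omega, by decide, fun g => ?_⟩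
      rw [Fin.sum_univ_three]

private theorem c1_int (x : ℤ) : 0 ≤ x * (x - 1) := by
  rcases le_or_gt x 0 with h | h
  · exact mul_nonneg_of_nonpos_of_nonpos h (by omega)
  · exact mul_nonneg h.le (by omega)

private theorem c1_int3 (x : ℤ) (h : 0 ≤ x) : 0 ≤ x * (x - 1) * (x - 2) := by
  rcases lt_or_ge x 3 with h3 | h3
  · interval_cases x <;> norm_num
  · exact mul_nonneg (mul_nonneg h (by omega)) (by omega)

private theorem c1_pt (o d cC q M : ℕ) (hq : cC + M = q) (ho : o ≤ d + cC) :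
    (((M - d) * (M - d + 1) : ℕ) : ℤ) ≤ ((o : ℤ) - q) * ((o : ℤ) - q - 1) := by
  rcases le_or_gt M d with h | h
  · have h0 : M - d = 0 := by omega
    rw [h0]
    simpa using c1_int ((o : ℤ) - q)
  · obtain ⟨t, ht⟩ : ∃ t : ℕ, M - d = t := ⟨_, rfl⟩
    rw [ht]
    push_cast
    have h1 : (o : ℤ) - q ≤ - t := by omega
    have h2 : (0 : ℤ) ≤ t := by omega
    nlinarith [mul_nonneg h2 (by linarith : (0 : ℤ) ≤ -((o : ℤ) - q) - t),
      mul_nonneg (by linarith : (0 : ℤ) ≤ -((o : ℤ) - q)) (by linarith : (0 : ℤ) ≤ -((o : ℤ) - q) - t)]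

theorem case1 {G : OG V} {f : V → Fin 3} (h : PartX G (uw V) f) (hN : 10 ^ 16 ≤ Fintype.card V)
    (hB : G.Btot (uw V) f = 0) : fe G ≤ turan (Fintype.card V) := by
  by_contra hcon
  push Not at hcon
  have hw := h.near.pos
  have hw' : ∀ v, 0 ≤ uw V v := fun v => (hw v).le
  have hadj := c1_adj hw hB
  have hn0 : 0 < Fintype.card V := lt_of_lt_of_le (by norm_num) hN
  obtain ⟨q, r, hn, hr⟩ : ∃ q r : ℕ, Fintype.card V = 3 * q + r ∧ r < 3 :=
    ⟨Fintype.card V / 3, Fintype.card V % 3, by omega, by omega⟩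
  -- the main inequality
  have hphi := h.phi436
  rw [hB, mul_zero, add_zero] at hphi
  have hk := kgen G f hn hr hn0 0 (by rw [add_zero]; exact hphi)
  rw [hB] at hk
  have hcon' : ((turan (Fintype.card V) : ℝ) - (fe G : ℝ)) < 0 := by
    have : (turan (Fintype.card V) : ℝ) < (fe G : ℝ) := by exact_mod_cast hcon
    linarith
  have hk' : YY f q + 3 * SM G q < 0 := by linarith
  -- the integer s
  obtain ⟨s, hs⟩ : ∃ s : ℤ, s = ∑ v, ((od G v : ℤ) - q) * ((od G v : ℤ) - q - 1) := ⟨_, rfl⟩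
  have hsm : SM G q = (s : ℝ) := by
    rw [hs]; unfold SM; push_cast; rfl
  have hs0 : 0 ≤ s := by
    rw [hs]; exact Finset.sum_nonneg fun v _ => c1_int _
  -- labels
  obtain ⟨iA, iB, iC, hab, hac, hbc, hcA, hcB, hall, hsum⟩ := c1_lab (cp f)
  have hyy : YY f q = (((cp f iA : ℤ) - q) * ((cp f iA : ℤ) - q - 1) * ((cp f iA : ℤ) - q - 2) +
      ((cp f iB : ℤ) - q) * ((cp f iB : ℤ) - q - 1) * ((cp f iB : ℤ) - q - 2) +
      ((cp f iC : ℤ) - q) * ((cp f iC : ℤ) - q - 1) * ((cp f iC : ℤ) - q - 2) : ℤ) := by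
    unfold YY
    rw [hsum]
    push_cast
    rfl
  have hcs : cp f iA + cp f iB + cp f iC = Fintype.card V := by
    have h1 := hsum (fun j => (cp f j : ℝ))
    rw [Fin.sum_univ_three] at h1
    have h2 := cp_sum f
    have h3 : ((cp f 0 + cp f 1 + cp f 2 : ℕ) : ℝ) = ((cp f iA + cp f iB + cp f iC : ℕ) : ℝ) := by
      push_cast; exact h1
    have h4 : cp f 0 + cp f 1 + cp f 2 = cp f iA + cp f iB + cp f iC := by exact_mod_cast h3
    omega
  -- M
  have hMpos : cp f iC < q := by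
    by_contra hq
    push Not at hq
    have a1 := c1_int3 ((cp f iA : ℤ) - q) (by omega)
    have a2 := c1_int3 ((cp f iB : ℤ) - q) (by omega)
    have a3 := c1_int3 ((cp f iC : ℤ) - q) (by omega)
    have a4 : (0 : ℝ) ≤ YY f q := by
      rw [hyy]
      exact Int.cast_nonneg (add_nonneg (add_nonneg a1 a2) a3)
    have a5 : (0 : ℝ) ≤ SM G q := by
      rw [hsm]; exact_mod_cast hs0
    linarith
  obtain ⟨M, hM⟩ : ∃ M : ℕ, cp f iC + M = q := ⟨q - cp f iC, by omega⟩
  have hM1 : 1 ≤ M := by omega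
  -- sizes
  have hnR : (0 : ℝ) < (Fintype.card V : ℝ) := by exact_mod_cast hn0
  have hsz : ∀ j, (1 / 3 - 1228 / 10000) * (Fintype.card V : ℝ) ≤ (cp f j : ℝ) := by
    intro j
    have h1 := h.hx j
    rw [pp_eq] at h1
    have h2 := (abs_le.1 h1).1
    have h3 : 0 ≤ LL G (uw V) ^ 2 := sq_nonneg _
    have h4 : 1 / 3 - 1228 / 10000 ≤ (cp f j : ℝ) / (Fintype.card V : ℝ) := by linarith
    exact (le_div_iff₀ hnR).1 h4
  have hMn : (M : ℝ) ≤ 1228 / 10000 * (Fintype.card V : ℝ) := by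
    have h1 := hsz iC
    have h2 : (cp f iC : ℝ) + (M : ℝ) = (q : ℝ) := by exact_mod_cast hM
    have h3 : (Fintype.card V : ℝ) = 3 * (q : ℝ) + (r : ℝ) := by exact_mod_cast hn
    have h4 : (0 : ℝ) ≤ (r : ℝ) := Nat.cast_nonneg r
    nlinarith
  have hMc : ∀ j, M ≤ cp f j := by
    intro j
    have h1 := hsz j
    have h2 : (M : ℝ) ≤ (cp f j : ℝ) := by nlinarith
    exact_mod_cast h2
  -- the corner lemma
  obtain ⟨A, hA⟩ : ∃ A : Finset V, A = univ.filter (fun v => f v = iA) := ⟨_, rfl⟩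
  obtain ⟨B, hBd⟩ : ∃ B : Finset V, B = univ.filter (fun v => f v = iB) := ⟨_, rfl⟩
  obtain ⟨C, hC⟩ : ∃ C : Finset V, C = univ.filter (fun v => f v = iC) := ⟨_, rfl⟩
  have hmA : ∀ v, v ∈ A ↔ f v = iA := by intro v; rw [hA]; simp
  have hmB : ∀ v, v ∈ B ↔ f v = iB := by intro v; rw [hBd]; simp
  have hmC : ∀ v, v ∈ C ↔ f v = iC := by intro v; rw [hC]; simp
  have hAc : A.card = cp f iA := by rw [hA]; rfl
  have hBc : B.card = cp f iB := by rw [hBd]; rfl
  have hCc : C.card = cp f iC := by rw [hC]; rfl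
  have hdisc := disc A B G.A
    (by
      intro a ha b hb
      rw [hmA] at ha
      rw [hmB] at hb
      have : G.adj a b := (hadj a b).2 (by rw [ha, hb]; exact hab.symm)
      exact this)
    (fun u v huv => G.asymm u v huv)
    (by
      intro a ha b hb a' ha' b' hb' h1 h2 h3 h4
      rw [hmA] at ha ha'
      rw [hmB] at hb hb'
      rcases h.near.c4 a b a' b' h1 h2 h3 h4 with h5 | h5
      · exact (hadj a a').1 h5 (by rw [ha, ha'])
      · exact (hadj b b').1 h5 (by rw [hb, hb']))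
    M (by rw [hAc]; exact hMc iA) (by rw [hBc]; exact hMc iB)
  -- outdegrees
  have hod : ∀ (P Q : Finset V) (v : V), (∀ u, G.A v u → u ∈ Q ∨ u ∈ C) →
      od G v ≤ (Q.filter (fun b => G.A v b)).card + cp f iC := by
    intro P Q v hv
    rw [← hCc]
    refine le_trans (Finset.card_le_card ?_) (Finset.card_union_le _ _)
    intro u hu
    rw [Finset.mem_filter] at hu
    rw [Finset.mem_union, Finset.mem_filter]
    rcases hv u hu.2 with h1 | h1
    · exact Or.inl ⟨h1, hu.2⟩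
    · exact Or.inr h1
  have hodA : ∀ a ∈ A, (((M - (B.filter (fun b => G.A a b)).card) *
      (M - (B.filter (fun b => G.A a b)).card + 1) : ℕ) : ℤ) ≤
      ((od G a : ℤ) - q) * ((od G a : ℤ) - q - 1) := by
    intro a ha
    refine c1_pt _ _ _ _ _ hM (hod A B a ?_)
    intro u hu
    have h1 : f u ≠ f a := (hadj a u).1 (Or.inl hu)
    rw [(hmA a).1 ha] at h1
    rw [hmB, hmC]
    rcases hall (f u) with h2 | h2 | h2
    · exact absurd h2 h1
    · exact Or.inl h2
    · exact Or.inr h2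
  have hodB : ∀ b ∈ B, (((M - (A.filter (fun a => G.A b a)).card) *
      (M - (A.filter (fun a => G.A b a)).card + 1) : ℕ) : ℤ) ≤
      ((od G b : ℤ) - q) * ((od G b : ℤ) - q - 1) := by
    intro b hb
    refine c1_pt _ _ _ _ _ hM (hod B A b ?_)
    intro u hu
    have h1 : f u ≠ f b := (hadj b u).1 (Or.inl hu)
    rw [(hmB b).1 hb] at h1
    rw [hmA, hmC]
    rcases hall (f u) with h2 | h2 | h2
    · exact Or.inl h2
    · exact absurd h2 h1
    · exact Or.inr h2
  have hdAB : Disjoint A B := by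
    rw [Finset.disjoint_left]
    intro v h1 h2
    rw [hmA] at h1
    rw [hmB] at h2
    exact hab (h1.symm.trans h2)
  have hsge : ((∑ a ∈ A, (M - (B.filter (fun b => G.A a b)).card) *
      (M - (B.filter (fun b => G.A a b)).card + 1) +
      ∑ b ∈ B, (M - (A.filter (fun a => G.A b a)).card) *
      (M - (A.filter (fun a => G.A b a)).card + 1) : ℕ) : ℤ) ≤ s := by
    rw [Nat.cast_add, Nat.cast_sum, Nat.cast_sum]
    refine le_trans (add_le_add (Finset.sum_le_sum hodA) (Finset.sum_le_sum hodB)) ?_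
    rw [← Finset.sum_union hdAB, hs]
    exact Finset.sum_le_sum_of_subset_of_nonneg (Finset.subset_univ _) fun v _ _ => c1_int _
  have h1 : (M : ℤ) * (M + 1) * (2 * M + 1) ≤ 3 * s := by
    have h2 : ((M * (M + 1) * (2 * M + 1) : ℕ) : ℤ) ≤ ((3 * (∑ a ∈ A, (M - (B.filter (fun b => G.A a b)).card) *
      (M - (B.filter (fun b => G.A a b)).card + 1) +
      ∑ b ∈ B, (M - (A.filter (fun a => G.A b a)).card) *
      (M - (A.filter (fun a => G.A b a)).card + 1)) : ℕ) : ℤ) := by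
      exact_mod_cast hdisc
    rw [Nat.cast_mul 3] at h2
    have h3 : ((M * (M + 1) * (2 * M + 1) : ℕ) : ℤ) = (M : ℤ) * (M + 1) * (2 * M + 1) := by
      push_cast; ring
    rw [h3] at h2
    have h4 : ((3 : ℕ) : ℤ) = 3 := rfl
    rw [h4] at h2
    linarith
  -- the case r = 0
  have hsqs := G.sum_sq (uw V) f h.near.sum
  have hbin : G.Bin (uw V) f = 0 ∧ G.Bcr (uw V) f = 0 := by
    have e1 := G.Btot_eq (uw V) f
    have e2 : 0 ≤ G.Bin (uw V) f :=
      Finset.sum_nonneg fun v _ => mul_nonneg (hw' v) (G.bin_nonneg (uw V) f hw' v)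
    have e3 : 0 ≤ G.Bcr (uw V) f :=
      Finset.sum_nonneg fun v _ => mul_nonneg (hw' v) (G.bcr_nonneg (uw V) f hw' v)
    constructor <;> linarith
  have h2 : ((r : ℤ) = 0) → ((cp f iA : ℤ) - q) ^ 2 + ((cp f iB : ℤ) - q) ^ 2 + (M : ℤ) ^ 2 ≤ s := by
    intro hr0
    have hr0' : r = 0 := by exact_mod_cast hr0
    subst hr0'
    have hnq : (Fintype.card V : ℝ) = 3 * (q : ℝ) := by exact_mod_cast hn
    have e1 : -2 * ∑ v, ((od G v : ℤ) - q) ≤ s := by
      rw [hs, Finset.mul_sum]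
      refine Finset.sum_le_sum fun v _ => ?_
      have := c1_int (-((od G v : ℤ) - q))
      nlinarith
    have e2 := od_sum G hn0
    have e3 : ∑ v, ((od G v : ℝ) - q) = - ((Fintype.card V : ℝ) ^ 2 * G.gam (uw V) / 2) := by
      rw [Finset.sum_sub_distrib, e2, Finset.sum_const, Finset.card_univ, nsmul_eq_mul, hnq]
      ring
    have e4 : (Fintype.card V : ℝ) ^ 2 * G.gam (uw V) ≤ (s : ℝ) := by
      have e5 : ((-2 * ∑ v, ((od G v : ℤ) - q) : ℤ) : ℝ) ≤ (s : ℝ) := by exact_mod_cast e1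
      push_cast at e5
      rw [e3] at e5
      linarith
    rw [hbin.1, hbin.2, hsum] at hsqs
    have e6 : G.gam (uw V) = (pp (uw V) f iA - 1 / 3) ^ 2 + (pp (uw V) f iB - 1 / 3) ^ 2 +
        (pp (uw V) f iC - 1 / 3) ^ 2 := by linarith
    have e7 : ∀ j, (Fintype.card V : ℝ) ^ 2 * (pp (uw V) f j - 1 / 3) ^ 2 = ((cp f j : ℝ) - q) ^ 2 := by
      intro j
      rw [pp_eq, ← mul_pow]
      congr 1
      rw [mul_sub, mul_div_cancel₀ _ hnR.ne', hnq]
      ring
    have e8 : (Fintype.card V : ℝ) ^ 2 * G.gam (uw V) = ((cp f iA : ℝ) - q) ^ 2 +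
        ((cp f iB : ℝ) - q) ^ 2 + ((cp f iC : ℝ) - q) ^ 2 := by
      rw [e6, mul_add, mul_add, e7, e7, e7]
    rw [e8] at e4
    have e9 : ((cp f iC : ℝ) - q) ^ 2 = (M : ℝ) ^ 2 := by
      have : (q : ℝ) = (cp f iC : ℝ) + (M : ℝ) := by exact_mod_cast hM.symm
      rw [this]; ring
    rw [e9] at e4
    exact_mod_cast e4
  -- the end
  have hfin := arith1 ((cp f iA : ℤ) - q) ((cp f iB : ℤ) - q) M r (by omega) (by omega) (by omega)
    (by omega) (by omega) (by omega) s h1 h2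
  have hMq : (cp f iC : ℤ) - q = -(M : ℤ) := by omega
  rw [hMq] at hyy
  have hfin' : (0 : ℝ) ≤ YY f q + 3 * SM G q := by
    rw [hyy, hsm]
    exact_mod_cast hfin
  linarith

end FDX
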