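import Pool.Agent.FDF.Corner
/-! FDX-Corner. PLAN: as FDF/Corner.lean (`step_aux` and `corner` there), but stop at the sum over A and B (no E2, no `oo_le_aux`): for every θ with
`√(5 b1) < θ < m`: `area` gives zA, zB, `dich` gives the hypothesis of `cover` (x ≤ m ≤ |A|, y ≤ m ≤ |B|), so
`(2/3)(m-θ)³ ≤ ∑_A w (m - F)_+² + ∑_B w (m - F)_+²`; let θ tend to `√(5 b1)`. -/
namespace FDX
open Finset FDF
open scoped BigOperators Classical
variable {V : Type} [Fintype V]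

private theorem be_nn (G : OG V) (w : V → ℝ) (hw : ∀ v, 0 < w v) (P Q : Finset V) (v : V) :
    0 ≤ G.be w P Q v := by
  unfold OG.be
  refine add_nonneg (Finset.sum_nonneg fun u _ => mul_nonneg (hw u).le ?_)
    (Finset.sum_nonneg fun u _ => mul_nonneg (hw u).le (G.mm_nonneg v u))
  have := G.mm_le_one v u
  linarith

private theorem FF_nn (G : OG V) (w : V → ℝ) (hw : ∀ v, 0 < w v) (P Q : Finset V) (v : V) :
    0 ≤ G.FF w P Q v := by
  unfold OG.FF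
  exact add_nonneg (Finset.sum_nonneg fun u _ => mul_nonneg (hw u).le (G.aa_nonneg v u))
    (Finset.sum_nonneg fun u _ => mul_nonneg (hw u).le (G.aa_nonneg v u))

private theorem step_nn (G : OG V) (w : V → ℝ) (h4 : G.NoC4) (hw : ∀ v, 0 < w v) (A B : Finset V)
    (hAB : Disjoint A B) (m : ℝ) (hA : m ≤ ∑ a ∈ A, w a) (hB : m ≤ ∑ b ∈ B, w b)
    (θ : ℝ) (hθ : 0 < θ) (hθm : θ < m)
    (h5 : 5 * (∑ a ∈ A, w a * G.be w A B a + ∑ b ∈ B, w b * G.be w B A b) < θ ^ 2) :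
    2 / 3 * (m - θ) ^ 3 ≤ ∑ a ∈ A, w a * (max (m - G.FF w A B a) 0) ^ 2 +
      ∑ b ∈ B, w b * (max (m - G.FF w A B b) 0) ^ 2 := by
  obtain ⟨zA, zB, hzA, hzB, e1, e2⟩ := area A B w (G.be w A B) w (G.be w B A)
    (fun i _ => (hw i).le) (fun i _ => be_nn G w hw A B i)
    (fun i _ => (hw i).le) (fun i _ => be_nn G w hw B A i) θ hθ h5
  exact cover A B w (G.FF w A B) w (G.FF w A B)
    (fun i _ => (hw i).le) (fun i _ => FF_nn G w hw A B i)
    (fun i _ => (hw i).le) (fun i _ => FF_nn G w hw A B i) m θ hθ hθm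
    (fun x y _ hx _ hy => G.dich w h4 hw A B hAB θ zA zB hzA hzB e1 e2 x y
      (by linarith) (by linarith))

theorem corner (G : OG V) (w : V → ℝ) (h4 : G.NoC4) (hw : ∀ v, 0 < w v) (A B : Finset V) (hAB : Disjoint A B)
    (m : ℝ) (hm0 : 0 < m) (hA : m ≤ ∑ a ∈ A, w a) (hB : m ≤ ∑ b ∈ B, w b) :
    2 / 3 * (max (m - Real.sqrt (5 * (∑ a ∈ A, w a * G.be w A B a + ∑ b ∈ B, w b * G.be w B A b))) 0) ^ 3
      ≤ ∑ a ∈ A, w a * (max (m - G.FF w A B a) 0) ^ 2 + ∑ b ∈ B, w b * (max (m - G.FF w A B b) 0) ^ 2 := by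
  set b1 : ℝ := ∑ a ∈ A, w a * G.be w A B a + ∑ b ∈ B, w b * G.be w B A b with hb1
  set r : ℝ := Real.sqrt (5 * b1) with hr
  have hr0 : 0 ≤ r := Real.sqrt_nonneg _
  rcases le_or_gt m r with h | h
  · rw [max_eq_right (by linarith)]
    have h1 : 0 ≤ ∑ a ∈ A, w a * (max (m - G.FF w A B a) 0) ^ 2 :=
      Finset.sum_nonneg fun v _ => mul_nonneg (hw v).le (sq_nonneg _)
    have h2 : 0 ≤ ∑ b ∈ B, w b * (max (m - G.FF w A B b) 0) ^ 2 :=
      Finset.sum_nonneg fun v _ => mul_nonneg (hw v).le (sq_nonneg _)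
    have h3 : (2 / 3 : ℝ) * 0 ^ 3 = 0 := by norm_num
    rw [h3]
    exact add_nonneg h1 h2
  · rw [max_eq_left (by linarith : (0 : ℝ) ≤ m - r)]
    have hkey : ∀ θ ∈ Set.Ioo r m, 2 / 3 * (m - θ) ^ 3 ≤
        ∑ a ∈ A, w a * (max (m - G.FF w A B a) 0) ^ 2 +
          ∑ b ∈ B, w b * (max (m - G.FF w A B b) 0) ^ 2 := by
      intro θ hθ
      have hθ0 : 0 < θ := lt_of_le_of_lt hr0 hθ.1
      refine step_nn G w h4 hw A B hAB m hA hB θ hθ0 hθ.2 ?_
      exact (Real.sqrt_lt' hθ0).1 hθ.1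
    have hcont : Continuous fun θ : ℝ => 2 / 3 * (m - θ) ^ 3 := by fun_prop
    have ht : Filter.Tendsto (fun θ : ℝ => 2 / 3 * (m - θ) ^ 3) (nhdsWithin r (Set.Ioi r))
        (nhds (2 / 3 * (m - r) ^ 3)) := (hcont.tendsto r).mono_left nhdsWithin_le_nhds
    refine le_of_tendsto ht ?_
    filter_upwards [Ioo_mem_nhdsGT h] with θ hθ using hkey θ hθ

end FDX
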