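import Mathlib
/-! FDX-Num. PLAN: as FDF/Num.lean with slightly different constants. u := √(5 b)/m, b = u² m²/5: `2 (1-u)_+^3 + .1839 u²/m ≤ .7504`,
`m² (1.5 + .854 u²) ≤ .01261`. u ≤ .35: m ≤ .0917, `2(1-u)^3 + 2.0054 u² ≥ .794`; u in [.35,.4]: m ≤ .08865, `+ 2.0744 u² ≥ .763`;
u in [.4,1]: m ≤ .08778, `2(1-u)^3 + 2.095 u² ≥ .7567` (minimum near u = .4435); u ≥ 1: `2.0054 u² ≥ 2`. -/
namespace FDX

private lemma cube_tangent (u c : ℝ) (hu : u ≤ 1) (hc : c ≤ 1) :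
    (1 - c) ^ 3 - 3 * (1 - c) ^ 2 * (u - c) ≤ (1 - u) ^ 3 := by
  have h1 : 0 ≤ (u - c) ^ 2 * (1 - u) := mul_nonneg (sq_nonneg _) (by linarith)
  have h2 : 0 ≤ (u - c) ^ 2 * (1 - c) := mul_nonneg (sq_nonneg _) (by linarith)
  nlinarith [h1, h2]

private lemma core (m u : ℝ) (hm : 0 < m) (hu : 0 ≤ u) (hu1 : u ≤ 1)
    (h2 : 2 * m * (1 - u) ^ 3 + 1839 / 10000 * u ^ 2 ≤ 7504 / 10000 * m)
    (h3 : m ^ 2 * (3 / 2 + 854 / 1000 * u ^ 2) ≤ 1261 / 100000) : False := by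
  have hpos : 0 ≤ 7504 / 10000 - 2 * (1 - u) ^ 3 := by
    by_contra hcon
    push Not at hcon
    have : m * (7504 / 10000 - 2 * (1 - u) ^ 3) < 0 := mul_neg_of_pos_of_neg hm hcon
    nlinarith [sq_nonneg u]
  have hu2 : 0 ≤ m ^ 2 * u ^ 2 := by positivity
  have hbound : ∀ c : ℝ, m ≤ c → 1839 / 10000 * u ^ 2 ≤ c * (7504 / 10000 - 2 * (1 - u) ^ 3) := by
    intro c hc
    have := mul_le_mul_of_nonneg_right hc hpos
    nlinarith
  rcases le_total u (35 / 100) with h | h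
  · have hmc : m ≤ 917 / 10000 := by
      by_contra hcon
      push Not at hcon
      nlinarith
    have hb := hbound _ hmc
    have ht := cube_tangent u (35 / 100) hu1 (by norm_num)
    nlinarith [mul_nonneg hu (sub_nonneg.2 h), mul_nonneg (sub_nonneg.2 h) (sub_nonneg.2 h)]
  rcases le_total u (40 / 100) with h' | h'
  · have hmc : m ≤ 8865 / 100000 := by
      by_contra hcon
      push Not at hcon
      have h5 : (35 / 100 : ℝ) ^ 2 ≤ u ^ 2 := by nlinarith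
      have h6 : m ^ 2 * (35 / 100) ^ 2 ≤ m ^ 2 * u ^ 2 :=
        mul_le_mul_of_nonneg_left h5 (sq_nonneg m)
      nlinarith
    have hb := hbound _ hmc
    have ht := cube_tangent u (40 / 100) hu1 (by norm_num)
    nlinarith [mul_nonneg (sub_nonneg.2 h) (sub_nonneg.2 h')]
  · have hmc : m ≤ 8778 / 100000 := by
      by_contra hcon
      push Not at hcon
      have h5 : (40 / 100 : ℝ) ^ 2 ≤ u ^ 2 := by nlinarith
      have h6 : m ^ 2 * (40 / 100) ^ 2 ≤ m ^ 2 * u ^ 2 :=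
        mul_le_mul_of_nonneg_left h5 (sq_nonneg m)
      nlinarith
    have hb := hbound _ hmc
    have ht := cube_tangent u (4435 / 10000) hu1 (by norm_num)
    nlinarith [sq_nonneg (u - 4435 / 10000)]

theorem num (m b L : ℝ) (hm : 0 < m) (hb : 0 ≤ b)
    (h1 : 2 * (max (m - Real.sqrt (5 * b)) 0) ^ 3 ≤ L)
    (h2 : L + 9195 / 10000 * b ≤ 7504 / 10000 * m ^ 3)
    (h3 : 3 / 2 * m ^ 2 + 427 / 100 * b ≤ 1261 / 100000) : False := by
  obtain ⟨s, hs⟩ : ∃ s, s = Real.sqrt (5 * b) := ⟨_, rfl⟩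
  have hs0 : 0 ≤ s := hs ▸ Real.sqrt_nonneg _
  have hs2 : s ^ 2 = 5 * b := by rw [hs, Real.sq_sqrt (by linarith)]
  rw [← hs] at h1
  obtain ⟨u, hu⟩ : ∃ u, u = s / m := ⟨_, rfl⟩
  have hu0 : 0 ≤ u := by rw [hu]; positivity
  have hsu : s = u * m := by rw [hu]; field_simp
  have hbu : b = u ^ 2 * m ^ 2 / 5 := by
    have : (u * m) ^ 2 = 5 * b := by rw [← hsu]; exact hs2
    nlinarith
  have h3' : m ^ 2 * (3 / 2 + 854 / 1000 * u ^ 2) ≤ 1261 / 100000 := by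
    rw [hbu] at h3
    nlinarith
  have hm2 : 0 < m ^ 2 := by positivity
  rcases le_total u 1 with hle | hge
  · have hmax : max (m - s) 0 = m * (1 - u) := by
      rw [hsu, max_eq_left]
      · ring
      · nlinarith
    rw [hmax] at h1
    refine core m u hm hu0 hle ?_ h3'
    have h4 : m ^ 2 * (2 * m * (1 - u) ^ 3 + 1839 / 10000 * u ^ 2) ≤
        m ^ 2 * (7504 / 10000 * m) := by
      have e1 : m ^ 2 * (2 * m * (1 - u) ^ 3 + 1839 / 10000 * u ^ 2) =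
          2 * (m * (1 - u)) ^ 3 + 9195 / 10000 * (u ^ 2 * m ^ 2 / 5) := by ring
      rw [e1, ← hbu]
      calc _ ≤ L + 9195 / 10000 * b := by linarith
        _ ≤ 7504 / 10000 * m ^ 3 := h2
        _ = _ := by ring
    exact le_of_mul_le_mul_left h4 hm2
  · have hL : 0 ≤ L := le_trans (by positivity) h1
    have h4 : m ^ 2 * (1839 / 10000 * u ^ 2) ≤ m ^ 2 * (7504 / 10000 * m) := by
      have e1 : m ^ 2 * (1839 / 10000 * u ^ 2) = 9195 / 10000 * (u ^ 2 * m ^ 2 / 5) := by ring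
      rw [e1, ← hbu]
      calc _ ≤ L + 9195 / 10000 * b := by linarith
        _ ≤ 7504 / 10000 * m ^ 3 := h2
        _ = _ := by ring
    have h5 := le_of_mul_le_mul_left h4 hm2
    have hmc : m ≤ 917 / 10000 := by
      by_contra hcon
      push Not at hcon
      nlinarith [mul_nonneg hm2.le (sq_nonneg u)]
    nlinarith

end FDX
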