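import Pool.Agent.FDX.Kgen
import Pool.Agent.FDX.Bd4
import Pool.Agent.FDX.Num
import Pool.Agent.FDX.Corner
import Pool.Agent.FDX.Arith
/-! FDX-Case2 (assembly, helper84). -/
namespace FDX
open Finset FDF
open scoped BigOperators Classical
variable {V : Type} [Fintype V]

/-- integers: `x (x-1) ≥ 0` -/
private lemma int_nn (x : ℤ) : 0 ≤ x * (x - 1) := by
  rcases le_or_gt x 0 with h | h
  · nlinarith
  · nlinarith

private lemma mu_nn (G : OG V) (q : ℕ) (v : V) :
    0 ≤ ((od G v : ℝ) - q) * ((od G v : ℝ) - q - 1) := by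
  have h := int_nn ((od G v : ℤ) - q)
  have h2 : (((od G v : ℤ) - q) * (((od G v : ℤ) - q) - 1) : ℤ) = (((od G v : ℤ) - q) * (((od G v : ℤ) - q) - 1) : ℤ) := rfl
  have h3 : (0 : ℝ) ≤ ((((od G v : ℤ) - q) * (((od G v : ℤ) - q) - 1) : ℤ) : ℝ) := by exact_mod_cast h
  push_cast at h3
  exact h3

private lemma SM_nn (G : OG V) (q : ℕ) : 0 ≤ SM G q :=
  Finset.sum_nonneg fun v _ => mu_nn G q v

omit [Fintype V] in
private lemma mm_cases (G : OG V) (u v : V) : G.mm u v = 0 ∨ G.mm u v = 1 := by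
  unfold OG.mm
  by_cases h : G.adj u v
  · rw [if_pos h]; exact Or.inl rfl
  · rw [if_neg h]; exact Or.inr rfl

private lemma Btot_ge (G : OG V) (f : V → Fin 3) (h0 : 0 < Fintype.card V) (hB : 0 < G.Btot (uw V) f) :
    1 / (Fintype.card V : ℝ) ^ 2 ≤ G.Btot (uw V) f := by
  have hn : (0 : ℝ) < (Fintype.card V : ℝ) := by exact_mod_cast h0
  have hw : ∀ v, 0 ≤ uw V v := fun v => by unfold uw; positivity
  have hbin := fun v => G.bin_nonneg (uw V) f hw v
  have hbcr := fun v => G.bcr_nonneg (uw V) f hw v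
  have hbb : ∀ v, 0 ≤ G.bb (uw V) f v := fun v => add_nonneg (hbin v) (hbcr v)
  by_contra hcon
  push Not at hcon
  have h1 : ∀ v, G.bb (uw V) f v < 1 / (Fintype.card V : ℝ) := by
    intro v
    have h2 : uw V v * G.bb (uw V) f v ≤ G.Btot (uw V) f :=
      Finset.single_le_sum (f := fun v => uw V v * G.bb (uw V) f v)
        (fun i _ => mul_nonneg (hw i) (hbb i)) (Finset.mem_univ v)
    have h3 : uw V v * G.bb (uw V) f v < 1 / (Fintype.card V : ℝ) ^ 2 := lt_of_le_of_lt h2 hcon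
    have h4 : uw V v * (Fintype.card V : ℝ) = 1 := by unfold uw; field_simp
    have h5 : (1 / (Fintype.card V : ℝ) ^ 2) * (Fintype.card V : ℝ) = 1 / (Fintype.card V : ℝ) := by
      field_simp
    calc G.bb (uw V) f v = (uw V v * G.bb (uw V) f v) * (Fintype.card V : ℝ) := by
          rw [mul_right_comm, h4, one_mul]
      _ < (1 / (Fintype.card V : ℝ) ^ 2) * (Fintype.card V : ℝ) := mul_lt_mul_of_pos_right h3 hn
      _ = _ := h5
  have h2 : ∀ v, G.bin (uw V) f v = 0 := by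
    intro v
    refine Finset.sum_eq_zero fun u _ => ?_
    by_cases hf : f u = f v
    · rw [if_pos hf]
      rcases mm_cases G v u with h | h
      · exfalso
        have h3 : (if f u = f v then uw V u * (1 - G.mm v u) else 0) ≤ G.bin (uw V) f v := by
          refine Finset.single_le_sum (f := fun u => if f u = f v then uw V u * (1 - G.mm v u) else 0)
            (fun i _ => ?_) (Finset.mem_univ u)
          split_ifs
          · have := G.mm_le_one v i
            exact mul_nonneg (hw i) (by linarith)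
          · exact le_rfl
        rw [if_pos hf, h] at h3
        have h4 := h1 v
        have h5 := hbcr v
        have h6 : G.bb (uw V) f v = G.bin (uw V) f v + G.bcr (uw V) f v := rfl
        have h7 : uw V u = 1 / (Fintype.card V : ℝ) := rfl
        rw [h7] at h3
        linarith
      · rw [h]; ring
    · rw [if_neg hf]
  have h3 : ∀ v, G.bcr (uw V) f v = 0 := by
    intro v
    refine Finset.sum_eq_zero fun u _ => ?_
    by_cases hf : f u = f v
    · rw [if_pos hf]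
    · rw [if_neg hf]
      rcases mm_cases G v u with h | h
      · rw [h]; ring
      · exfalso
        have h3 : (if f u = f v then 0 else uw V u * G.mm v u) ≤ G.bcr (uw V) f v := by
          refine Finset.single_le_sum (f := fun u => if f u = f v then 0 else uw V u * G.mm v u)
            (fun i _ => ?_) (Finset.mem_univ u)
          split_ifs
          · exact le_rfl
          · exact mul_nonneg (hw i) (G.mm_nonneg v i)
        rw [if_neg hf, h] at h3
        have h4 := h1 v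
        have h5 := hbin v
        have h6 : G.bb (uw V) f v = G.bin (uw V) f v + G.bcr (uw V) f v := rfl
        have h7 : uw V u = 1 / (Fintype.card V : ℝ) := rfl
        rw [h7] at h3
        linarith
  have h4 : G.Btot (uw V) f = 0 := by
    refine Finset.sum_eq_zero fun v _ => ?_
    have : G.bb (uw V) f v = 0 := by
      show G.bin (uw V) f v + G.bcr (uw V) f v = 0
      rw [h2, h3, add_zero]
    rw [this, mul_zero]
  exact absurd h4 hB.ne'

private lemma others : ∀ iC : Fin 3, ∃ iA iB : Fin 3, iA ≠ iB ∧ iA ≠ iC ∧ iB ≠ iC := by decide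

private lemma s3 {α : Type} [AddCommMonoid α] (x : Fin 3 → α) {a b c : Fin 3} (hab : a ≠ b) (hac : a ≠ c) (hbc : b ≠ c) :
    ∑ i, x i = x a + x b + x c := by
  have hu : (univ : Finset (Fin 3)) = {a, b, c} := by
    symm
    apply Finset.eq_univ_of_card
    rw [Finset.card_insert_of_notMem, Finset.card_insert_of_notMem, Finset.card_singleton]
    · rfl
    · simpa using hbc
    · simp [hab, hac]
  rw [hu, Finset.sum_insert (by simp [hab, hac]), Finset.sum_insert (by simpa using hbc),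
    Finset.sum_singleton, add_assoc]

/-- the energy of the outdegrees -/
private lemma E2_le (G : OG V) {q r : ℕ} (hn : Fintype.card V = 3 * q + r) (hr : r < 3)
    (hN : 10 ^ 16 ≤ Fintype.card V) (g1 : -(1 / 10 ^ 14) ≤ G.gam (uw V)) (g2 : G.gam (uw V) ≤ 2 / 100) :
    (Fintype.card V : ℝ) ^ 3 * (3 * G.E2 (uw V)) ≤ 3 * SM G q + (Fintype.card V : ℝ) ^ 2 := by
  have h0 : 0 < Fintype.card V := lt_of_lt_of_le (by norm_num) hN
  have e1 := E2_eq G h0
  have e2 := od_sum G h0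
  have hNr : (10 : ℝ) ^ 16 ≤ (Fintype.card V : ℝ) := by exact_mod_cast hN
  have hnr : (Fintype.card V : ℝ) = 3 * (q : ℝ) + (r : ℝ) := by exact_mod_cast hn
  have e3 : ∑ v : V, ((od G v : ℝ) - (Fintype.card V : ℝ) / 3) ^ 2 =
      SM G q + (1 - 2 * (r : ℝ) / 3) * (∑ v : V, (od G v : ℝ) - (Fintype.card V : ℝ) * q)
        + (Fintype.card V : ℝ) * ((r : ℝ) ^ 2 / 9) := by
    have c1 : (Fintype.card V : ℝ) * (q : ℝ) = ∑ _v : V, (q : ℝ) := by
      rw [Finset.sum_const, nsmul_eq_mul]; rfl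
    have c2 : (Fintype.card V : ℝ) * ((r : ℝ) ^ 2 / 9) = ∑ _v : V, ((r : ℝ) ^ 2 / 9) := by
      rw [Finset.sum_const, nsmul_eq_mul]; rfl
    rw [c1, c2, ← Finset.sum_sub_distrib, Finset.mul_sum]
    unfold SM
    rw [← Finset.sum_add_distrib, ← Finset.sum_add_distrib]
    refine Finset.sum_congr rfl fun v _ => ?_
    rw [hnr]
    ring
  obtain ⟨N, hNd⟩ : ∃ N : ℝ, N = (Fintype.card V : ℝ) := ⟨_, rfl⟩
  obtain ⟨g, hg⟩ : ∃ g : ℝ, g = G.gam (uw V) := ⟨_, rfl⟩
  rw [e3, e2] at e1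
  rw [← hNd, ← hg] at e1 
  rw [← hNd] at hNr hnr ⊢
  rw [← hg] at g1 g2
  have hq : (q : ℝ) = (N - r) / 3 := by rw [hnr]; ring
  have e4 : N ^ 3 * (3 * G.E2 (uw V)) = 3 * SM G q +
      ((3 - 2 * (r : ℝ)) * (N * r / 3 - N ^ 2 * g / 2) + N * (r : ℝ) ^ 2 / 3) := by
    have : N ^ 3 * (3 * G.E2 (uw V)) = 3 * (N ^ 3 * G.E2 (uw V)) := by ring
    rw [this, e1]
    have h5 : N ^ 2 / 3 - N ^ 2 * g / 2 - N * (q : ℝ) = N * r / 3 - N ^ 2 * g / 2 := by
      rw [hq]; ring
    rw [h5]; ring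
  rw [e4]
  have hN2 : N * 10 ^ 16 ≤ N ^ 2 := by nlinarith
  have hg1 : N ^ 2 * g ≤ N ^ 2 * (2 / 100) := mul_le_mul_of_nonneg_left g2 (sq_nonneg _)
  have hg2 : N ^ 2 * (-(1 / 10 ^ 14)) ≤ N ^ 2 * g := mul_le_mul_of_nonneg_left g1 (sq_nonneg _)
  interval_cases r <;> push_cast <;> nlinarith

private lemma YY_int (f : V → Fin 3) (q : ℕ) {a b c : Fin 3} (hab : a ≠ b) (hac : a ≠ c) (hbc : b ≠ c) :
    YY f q = ((((cp f a : ℤ) - q) * (((cp f a : ℤ) - q) - 1) * (((cp f a : ℤ) - q) - 2) +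
      ((cp f b : ℤ) - q) * (((cp f b : ℤ) - q) - 1) * (((cp f b : ℤ) - q) - 2) +
      ((cp f c : ℤ) - q) * (((cp f c : ℤ) - q) - 1) * (((cp f c : ℤ) - q) - 2) : ℤ) : ℝ) := by
  unfold YY
  rw [s3 _ hab hac hbc]
  push_cast
  ring

/-- choice of the labels, `C` is the smallest part -/
private lemma labels (f : V → Fin 3) {q r : ℕ} (hn : Fintype.card V = 3 * q + r) (hr : r < 3)
    (hN : 10 ^ 16 ≤ Fintype.card V) (hY : YY f q < -(435 / 1000 * (Fintype.card V : ℝ))) :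
    ∃ iA iB iC : Fin 3, iA ≠ iB ∧ iA ≠ iC ∧ iB ≠ iC ∧ ∃ M : ℤ, 50000 ≤ M ∧ (cp f iC : ℤ) = q - M ∧
      -2 ≤ (cp f iA : ℤ) - q ∧ -2 ≤ (cp f iB : ℤ) - q ∧ ((cp f iA : ℤ) - q) + ((cp f iB : ℤ) - q) = M + r ∧
      -YY f q ≤ 7501 / 10000 * (M : ℝ) ^ 3 := by
  obtain ⟨iC, -, hmin⟩ := Finset.exists_min_image (univ : Finset (Fin 3)) (cp f) ⟨0, mem_univ _⟩
  obtain ⟨iA, iB, hab, hac, hbc⟩ := others iC
  have hsum : cp f iA + cp f iB + cp f iC = Fintype.card V := by
    have h1 := cp_sum f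
    rw [← h1, ← s3 (cp f) hab hac hbc, Fin.sum_univ_three]
  have hA := hmin iA (mem_univ _)
  have hB := hmin iB (mem_univ _)
  obtain ⟨M, hM⟩ : ∃ M : ℤ, M = q - cp f iC := ⟨_, rfl⟩
  have hYY := YY_int f q hab hac hbc
  obtain ⟨yA, hyA⟩ : ∃ y : ℤ, y = (cp f iA : ℤ) - q := ⟨_, rfl⟩
  obtain ⟨yB, hyB⟩ : ∃ y : ℤ, y = (cp f iB : ℤ) - q := ⟨_, rfl⟩
  have hyC : (cp f iC : ℤ) - q = -M := by rw [hM]; ring
  rw [← hyA, ← hyB, hyC] at hYY
  have hs : yA + yB = M + r := by
    rw [hyA, hyB, hM]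
    have : ((cp f iA : ℤ) + cp f iB + cp f iC) = 3 * q + r := by exact_mod_cast hsum.trans hn
    linarith
  have hA' : -M ≤ yA := by
    rw [hyA, hM]
    have : (cp f iC : ℤ) ≤ cp f iA := by exact_mod_cast hA
    linarith
  have hB' : -M ≤ yB := by
    rw [hyB, hM]
    have : (cp f iC : ℤ) ≤ cp f iB := by exact_mod_cast hB
    linarith
  have hNr : (10 : ℝ) ^ 16 ≤ (Fintype.card V : ℝ) := by exact_mod_cast hN
  obtain ⟨Z, hZ⟩ : ∃ Z : ℤ, Z = yA * (yA - 1) * (yA - 2) + yB * (yB - 1) * (yB - 2) +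
      (-M) * (-M - 1) * (-M - 2) := ⟨_, rfl⟩
  rw [← hZ] at hYY
  have hZneg : Z < -(435 * 10 ^ 13) := by
    have h1 : (Z : ℝ) < -(435 * 10 ^ 13) := by rw [← hYY]; linarith
    exact_mod_cast h1
  have hM1 : 1 ≤ M := by
    by_contra hc
    have hM0 : M ≤ 0 := by omega
    have hn1 : ∀ y : ℤ, 0 ≤ y → 0 ≤ y * (y - 1) * (y - 2) := by
      intro y hy
      rcases (show y = 0 ∨ y = 1 ∨ 2 ≤ y by omega) with h | h | h
      · subst h; norm_num
      · subst h; norm_num
      · exact mul_nonneg (mul_nonneg hy (by omega)) (by omega)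
    have k1 := hn1 yA (by omega)
    have k2 := hn1 yB (by omega)
    have k3 := hn1 (-M) (by omega)
    linarith
  have hM2 : 50000 ≤ M := by
    by_contra hc
    have hM3 : M ≤ 49999 := by omega
    have k := arith4 yA yB M hM1 hA' hB'
    have k2 : M ^ 3 ≤ 49999 ^ 3 := pow_le_pow_left₀ (by omega) hM3 3
    rw [← hZ] at k
    have k3 : (49999 : ℤ) ^ 3 = 124992500149999 := by norm_num
    rw [k3] at k2
    omega
  have hAB3 : ¬ (yA ≤ -3 ∨ yB ≤ -3) := by
    intro hc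
    have k := arith2 yA yB M r (by omega) (by positivity) hs hA' hB' hc
    rw [← hZ] at k
    omega
  push Not at hAB3
  refine ⟨iA, iB, iC, hab, hac, hbc, M, hM2, by rw [hM]; ring, by rw [← hyA]; omega, by rw [← hyB]; omega,
    by rw [← hyA, ← hyB]; exact hs, ?_⟩
  have k := arith3 (yA : ℝ) (yB : ℝ) (M : ℝ) (r : ℝ) (by exact_mod_cast hM2) (by positivity)
    (by have : r ≤ 2 := by omega
        exact_mod_cast this) (by exact_mod_cast hs)
  rw [hYY, hZ]
  push_cast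
  exact k

private lemma b1_eq {G : OG V} {f : V → Fin 3} {iA iB : Fin 3} (hab : iA ≠ iB) :
    (∑ a ∈ univ.filter (fun v => f v = iA), uw V a * G.be (uw V) (univ.filter (fun v => f v = iA))
        (univ.filter (fun v => f v = iB)) a +
      ∑ b ∈ univ.filter (fun v => f v = iB), uw V b * G.be (uw V) (univ.filter (fun v => f v = iB))
        (univ.filter (fun v => f v = iA)) b) = OG.B1 G (uw V) f iA iB := by
  unfold OG.B1
  have e : ∀ v, uw V v * OG.be1 G (uw V) f iA iB v =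
      (if f v = iA then uw V v * G.be (uw V) (univ.filter (fun v => f v = iA))
        (univ.filter (fun v => f v = iB)) v else 0) +
      (if f v = iB then uw V v * G.be (uw V) (univ.filter (fun v => f v = iB))
        (univ.filter (fun v => f v = iA)) v else 0) := by
    intro v
    unfold OG.be1
    by_cases h1 : f v = iA
    · have h2 : f v ≠ iB := by rw [h1]; exact hab
      rw [if_pos h1, if_pos h1, if_neg h2, add_zero]
      unfold OG.be OG.bin OG.al
      rw [Finset.sum_filter, Finset.sum_filter, h1]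
    · rw [if_neg h1, if_neg h1]
      by_cases h2 : f v = iB
      · rw [if_pos h2, if_pos h2, zero_add]
        unfold OG.be OG.bin OG.al
        rw [Finset.sum_filter, Finset.sum_filter, h2]
      · rw [if_neg h2, if_neg h2]; ring
  rw [Finset.sum_congr rfl (fun v _ => e v), Finset.sum_add_distrib]
  rw [Finset.sum_filter, Finset.sum_filter]

/-- the pointwise estimate of the corner sum -/
private lemma pointc (G : OG V) (f : V → Fin 3) {q : ℕ} (h0 : 0 < Fintype.card V) {iA iB iC : Fin 3}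
    (hab : iA ≠ iB) (hac : iA ≠ iC) (hbc : iB ≠ iC) {M : ℤ} (hC : (cp f iC : ℤ) = q - M) (v : V) :
    (max ((M : ℝ) / (Fintype.card V : ℝ) - G.FF (uw V) (univ.filter (fun v => f v = iA))
      (univ.filter (fun v => f v = iB)) v) 0) ^ 2 ≤
      (((od G v : ℝ) - q) * ((od G v : ℝ) - q - 1)) / (Fintype.card V : ℝ) ^ 2 := by
  have hn : (0 : ℝ) < (Fintype.card V : ℝ) := by exact_mod_cast h0
  have hw : ∀ v, 0 ≤ uw V v := fun v => by unfold uw; positivity
  have hmu := mu_nn G q v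
  have hoo := oo_eq G v
  have hle : G.oo (uw V) v ≤ G.FF (uw V) (univ.filter (fun v => f v = iA))
      (univ.filter (fun v => f v = iB)) v + pp (uw V) f iC := by
    unfold OG.oo OG.FF pp
    rw [Finset.sum_filter, Finset.sum_filter, ← Finset.sum_add_distrib, ← Finset.sum_add_distrib]
    refine Finset.sum_le_sum fun u _ => ?_
    have h1 := G.aa_le_one v u
    have h2 := G.aa_nonneg v u
    have h3 := hw u
    have hcase : f u = iA ∨ f u = iB ∨ f u = iC := by
      have : ∀ a b c j : Fin 3, a ≠ b → a ≠ c → b ≠ c → (j = a ∨ j = b ∨ j = c) := by decide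
      exact this iA iB iC (f u) hab hac hbc
    rcases hcase with h | h | h
    · have e1 : f u ≠ iB := by rw [h]; exact hab
      have e2 : f u ≠ iC := by rw [h]; exact hac
      rw [if_pos h, if_neg e1, if_neg e2]
      linarith
    · have e1 : f u ≠ iA := by rw [h]; exact hab.symm
      have e2 : f u ≠ iC := by rw [h]; exact hbc
      rw [if_neg e1, if_pos h, if_neg e2]
      linarith
    · have e1 : f u ≠ iA := by rw [h]; exact hac.symm
      have e2 : f u ≠ iB := by rw [h]; exact hbc.symm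
      rw [if_neg e1, if_neg e2, if_pos h]
      nlinarith
  rw [hoo, pp_eq] at hle
  have hC' : (cp f iC : ℝ) = (q : ℝ) - (M : ℝ) := by exact_mod_cast hC
  rw [hC'] at hle
  obtain ⟨F, hF⟩ : ∃ F, F = G.FF (uw V) (univ.filter (fun v => f v = iA))
      (univ.filter (fun v => f v = iB)) v := ⟨_, rfl⟩
  rw [← hF] at hle ⊢
  obtain ⟨N, hNd⟩ : ∃ N : ℝ, N = (Fintype.card V : ℝ) := ⟨_, rfl⟩
  rw [← hNd] at hle hn ⊢
  rcases le_total ((M : ℝ) / N - F) 0 with hx | hx
  · rw [max_eq_right hx]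
    have : 0 ≤ (((od G v : ℝ) - q) * ((od G v : ℝ) - q - 1)) / N ^ 2 := div_nonneg hmu (sq_nonneg _)
    simpa using this
  · rw [max_eq_left hx, le_div_iff₀ (by positivity)]
    have h1 : (od G v : ℝ) ≤ N * F + ((q : ℝ) - M) := by
      have h2 : (od G v : ℝ) / N * N ≤ (F + ((q : ℝ) - M) / N) * N := mul_le_mul_of_nonneg_right hle hn.le
      have h3 : (od G v : ℝ) / N * N = od G v := by field_simp
      have h4 : (F + ((q : ℝ) - M) / N) * N = N * F + ((q : ℝ) - M) := by field_simp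
      rw [h3, h4] at h2
      exact h2
    have h2 : 0 ≤ (M : ℝ) - N * F := by
      have h3 : ((M : ℝ) / N - F) * N = (M : ℝ) - N * F := by field_simp
      rw [← h3]
      exact mul_nonneg hx hn.le
    have h3 : ((M : ℝ) / N - F) ^ 2 * N ^ 2 = ((M : ℝ) - N * F) ^ 2 := by
      field_simp
    rw [h3]
    have h4 : (M : ℝ) - N * F ≤ (q : ℝ) - od G v := by linarith
    nlinarith

private lemma m_bd {m : ℝ} (h2 : 3 / 2 * m ^ 2 ≤ 126 / 10000 + 1 / 10 ^ 10) : m ≤ 91652 / 1000000 := by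
  by_contra hc
  push Not at hc
  nlinarith

private lemma sq_bd {xA xB m e : ℝ} (hs : xA + xB = m) (h : xA ^ 2 + xB ^ 2 + m ^ 2 ≤ e) : 3 / 2 * m ^ 2 ≤ e := by
  have e3 : m ^ 2 / 2 ≤ xA ^ 2 + xB ^ 2 := by
    rw [← hs]; nlinarith [sq_nonneg (xA - xB)]
  linarith

theorem case2 {G : OG V} {f : V → Fin 3} (h : PartX G (uw V) f) (hN : 10 ^ 16 ≤ Fintype.card V)
    (hB : 0 < G.Btot (uw V) f) : fe G < turan (Fintype.card V) := by
  by_contra hcon
  push Not at hcon
  obtain ⟨q, r, hr, hn⟩ : ∃ q r, r < 3 ∧ Fintype.card V = 3 * q + r :=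
    ⟨Fintype.card V / 3, Fintype.card V % 3, by omega, by omega⟩
  have h0 : 0 < Fintype.card V := lt_of_lt_of_le (by norm_num) hN
  have hdef : 6 * ((turan (Fintype.card V) : ℝ) - (fe G : ℝ)) ≤ 0 := by
    have : (turan (Fintype.card V) : ℝ) ≤ (fe G : ℝ) := by exact_mod_cast hcon
    linarith
  have hw : ∀ v, 0 ≤ uw V v := fun v => (h.near.pos v).le
  have hNr : (10 : ℝ) ^ 16 ≤ (Fintype.card V : ℝ) := by exact_mod_cast hN
  have hnr : (Fintype.card V : ℝ) = 3 * (q : ℝ) + (r : ℝ) := by exact_mod_cast hn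
  have hr2 : (r : ℝ) ≤ 2 := by
    have : r ≤ 2 := by omega
    exact_mod_cast this
  have hr0 : (0 : ℝ) ≤ (r : ℝ) := by positivity
  have hBge := Btot_ge G f h0 hB
  have hSM := SM_nn G q
  have k1 := kgen G f hn hr h0 _ h.phi436
  obtain ⟨N, hNd⟩ : ∃ N : ℝ, N = (Fintype.card V : ℝ) := ⟨_, rfl⟩
  obtain ⟨B, hBd⟩ : ∃ B : ℝ, B = G.Btot (uw V) f := ⟨_, rfl⟩
  rw [← hNd] at hNr hBge k1 hnr
  rw [← hBd] at hBge hB k1
  have hN0 : 0 < N := by linarith
  have hBN : 1 ≤ N ^ 2 * B := by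
    rw [div_le_iff₀ (by positivity)] at hBge
    linarith
  have hBN3 : N ≤ N ^ 3 * B := by
    have e : N ^ 3 * B = N * (N ^ 2 * B) := by ring
    rw [e]; nlinarith
  have hBN2 : 3 * N ^ 2 * B ≤ 1 / 10000 * (N ^ 3 * B) := by
    have e : 1 / 10000 * (N ^ 3 * B) = (N / 10000) * (N ^ 2 * B) := by ring
    rw [e]; nlinarith
  have hNB0 : 0 ≤ N ^ 3 * B := by positivity
  have k2 : YY f q + 4355 / 10000 * (N ^ 3 * B) + 3 * SM G q ≤ 0 := by
    have e : N ^ 3 * (436 / 1000 * B) = 436 / 1000 * (N ^ 3 * B) := by ring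
    rw [e] at k1
    linarith
  have hY : YY f q < -(435 / 1000 * (Fintype.card V : ℝ)) := by rw [← hNd]; linarith
  obtain ⟨iA, iB, iC, hab, hac, hbc, M, hM, hC, hA2, hB2, hAB, hYM⟩ := labels f hn hr hN hY
  have hMr : (50000 : ℝ) ≤ (M : ℝ) := by exact_mod_cast hM
  have hCr : (cp f iC : ℝ) = (q : ℝ) - (M : ℝ) := by exact_mod_cast hC
  have hAr : (-2 : ℝ) ≤ (cp f iA : ℝ) - q := by exact_mod_cast hA2
  have hBr : (-2 : ℝ) ≤ (cp f iB : ℝ) - q := by exact_mod_cast hB2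
  obtain ⟨m, hm⟩ : ∃ m : ℝ, m = (M : ℝ) / N := ⟨_, rfl⟩
  obtain ⟨m', hm'⟩ : ∃ m' : ℝ, m' = ((M : ℝ) + r / 3) / N := ⟨_, rfl⟩
  have hm0 : 0 < m := by rw [hm]; positivity
  have hmm : m ≤ m' := by
    rw [hm, hm']
    exact div_le_div_of_nonneg_right (by linarith) hN0.le
  have hq : (q : ℝ) = (N - r) / 3 := by rw [hnr]; ring
  have ppA : pp (uw V) f iA = (cp f iA : ℝ) / N := by rw [pp_eq, hNd]
  have ppB : pp (uw V) f iB = (cp f iB : ℝ) / N := by rw [pp_eq, hNd]
  have ppC : pp (uw V) f iC = 1 / 3 - m' := by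
    rw [pp_eq, ← hNd, hCr, hm', hq]
    field_simp
    ring
  have hlow : ∀ x : ℝ, -2 ≤ x - q → 1 / 3 - 1 / 10 ^ 12 ≤ x / N := by
    intro x hx
    rw [le_div_iff₀ hN0]
    rw [hq] at hx
    linarith
  have psum : pp (uw V) f iA + pp (uw V) f iB + pp (uw V) f iC = 1 := by
    rw [← s3 _ hab hac hbc]
    exact pp_sum (uw V) f h.near.sum
  have hsumx : (pp (uw V) f iA - 1 / 3) + (pp (uw V) f iB - 1 / 3) = m' := by
    rw [ppC] at psum; linarith
  have habs2 : 3 / 2 * m' ^ 2 ≤ 126 / 10000 + 1 / 10 ^ 10 := by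
    have e := h.sum_sq_le
    rw [s3 _ hab hac hbc, ppC] at e
    have e2 : (1 / 3 - m' - 1 / 3) ^ 2 = m' ^ 2 := by ring
    rw [e2] at e
    exact sq_bd hsumx e
  have hm'0 : 0 < m' := lt_of_lt_of_le hm0 hmm
  have hm'1 : m' ≤ 91652 / 1000000 := m_bd habs2
  have hmcube : m ^ 3 ≤ 76988 / 10 ^ 8 := by
    have e1 : m ^ 3 ≤ m' ^ 3 := pow_le_pow_left₀ hm0.le hmm 3
    have e2 : m' ^ 3 = m' * m' ^ 2 := by ring
    have e3 : m' * m' ^ 2 ≤ 91652 / 1000000 * m' ^ 2 := mul_le_mul_of_nonneg_right hm'1 (sq_nonneg _)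
    linarith
  obtain ⟨Lam, hLam⟩ : ∃ L : ℝ, L = 3 * SM G q / N ^ 3 := ⟨_, rfl⟩
  have hN3 : 0 < N ^ 3 := by positivity
  have hLamN : N ^ 3 * Lam = 3 * SM G q := by rw [hLam]; field_simp
  have hmN : N ^ 3 * m ^ 3 = (M : ℝ) ^ 3 := by rw [hm]; field_simp
  have k3 : Lam + 435 / 1000 * B ≤ 7501 / 10000 * m ^ 3 := by
    refine le_of_mul_le_mul_left ?_ hN3
    have e1 : N ^ 3 * (Lam + 435 / 1000 * B) = N ^ 3 * Lam + 435 / 1000 * (N ^ 3 * B) := by ring
    have e2 : N ^ 3 * (7501 / 10000 * m ^ 3) = 7501 / 10000 * (N ^ 3 * m ^ 3) := by ring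
    rw [e1, e2, hLamN, hmN]
    linarith
  have hgam1 := gam_ge h.near
  have hgam2 : G.gam (uw V) ≤ 2 / 100 := by
    have e1 := h.c1
    have e2 : 0 ≤ G.T1 (uw V) := OG.T1_nonneg hw
    linarith
  have hE := E2_le G hn hr hN hgam1 hgam2
  rw [← hNd] at hE
  have hE2 : 3 * G.E2 (uw V) ≤ Lam + 1 / 10 ^ 16 := by
    refine le_of_mul_le_mul_left ?_ hN3
    have e1 : N ^ 3 * (Lam + 1 / 10 ^ 16) = N ^ 3 * Lam + N ^ 2 * (N / 10 ^ 16) := by ring
    rw [e1, hLamN]
    have e2 : 1 ≤ N / 10 ^ 16 := by rw [le_div_iff₀ (by norm_num)]; linarith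
    nlinarith [sq_nonneg N]
  have hLL := LL_sq (G := G) hw
  have habs1 : LL G (uw V) ^ 2 + 435 / 1000 * G.Btot (uw V) f ≤ 5779 / 10 ^ 7 := by
    rw [hLL, ← hBd]
    linarith
  have l : LabX G (uw V) f iA iB iC m' :=
    ⟨hab, hac, hbc, by rw [ppA]; exact hlow _ hAr, by rw [ppB]; exact hlow _ hBr, ppC, hsumx, hm'0,
      habs1, by linarith⟩
  have f1 := kgen G f hn hr h0 _ (h.fin1 l)
  have f2 := h.fin2 l
  obtain ⟨b1, hb1⟩ : ∃ b1, b1 = OG.B1 G (uw V) f iA iB := ⟨_, rfl⟩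
  rw [← hNd, ← hBd, ← hb1] at f1
  rw [← hb1] at f2
  have k4 : Lam + 9195 / 10000 * b1 ≤ 7504 / 10000 * m ^ 3 := by
    have k5 : Lam + 9195 / 10000 * b1 ≤ 7501 / 10000 * m ^ 3 := by
      refine le_of_mul_le_mul_left ?_ hN3
      have e1 : N ^ 3 * (Lam + 9195 / 10000 * b1) = N ^ 3 * Lam + N ^ 3 * (9195 / 10000 * b1) := by ring
      have e2 : N ^ 3 * (7501 / 10000 * m ^ 3) = 7501 / 10000 * (N ^ 3 * m ^ 3) := by ring
      rw [e1, e2, hLamN, hmN]
      have e3 : N ^ 3 * (9195 / 10000 * b1 + 1 / 10000 * B) =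
          N ^ 3 * (9195 / 10000 * b1) + 1 / 10000 * (N ^ 3 * B) := by ring
      rw [e3] at f1
      linarith
    have : 0 ≤ m ^ 3 := by positivity
    linarith
  have k6 : 3 / 2 * m ^ 2 + 427 / 100 * b1 ≤ 1261 / 100000 := by
    have e1 : m ^ 2 ≤ m' ^ 2 := pow_le_pow_left₀ hm0.le hmm 2
    linarith
  have hb0 : 0 ≤ b1 := by
    rw [hb1, ← b1_eq hab]
    have hnn : ∀ (P Q : Finset V) v, 0 ≤ G.be (uw V) P Q v := fun P Q v => by
      unfold OG.be
      refine add_nonneg (Finset.sum_nonneg fun u _ => mul_nonneg (hw u) ?_)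
        (Finset.sum_nonneg fun u _ => mul_nonneg (hw u) (G.mm_nonneg v u))
      have := G.mm_le_one v u
      linarith
    exact add_nonneg (Finset.sum_nonneg fun u _ => mul_nonneg (hw u) (hnn _ _ u))
      (Finset.sum_nonneg fun u _ => mul_nonneg (hw u) (hnn _ _ u))
  -- the corner
  have hAB' : Disjoint (univ.filter (fun v => f v = iA)) (univ.filter (fun v => f v = iB)) := by
    rw [Finset.disjoint_left]
    intro v ha hb
    simp only [mem_filter, mem_univ, true_and] at ha hb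
    exact hab (ha.symm.trans hb)
  have sA : ∑ a ∈ univ.filter (fun v => f v = iA), uw V a = pp (uw V) f iA := by
    rw [Finset.sum_filter]; rfl
  have sB : ∑ a ∈ univ.filter (fun v => f v = iB), uw V a = pp (uw V) f iB := by
    rw [Finset.sum_filter]; rfl
  have hpA : m ≤ pp (uw V) f iA := by have := l.hA; linarith
  have hpB : m ≤ pp (uw V) f iB := by have := l.hB; linarith
  have key := corner G (uw V) h.near.c4 h.near.pos _ _ hAB' m hm0 (by rw [sA]; exact hpA)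
    (by rw [sB]; exact hpB)
  rw [b1_eq hab, ← hb1] at key
  have hpt : ∀ v, uw V v * (max (m - G.FF (uw V) (univ.filter (fun v => f v = iA))
      (univ.filter (fun v => f v = iB)) v) 0) ^ 2 ≤
      (((od G v : ℝ) - q) * ((od G v : ℝ) - q - 1)) / N ^ 3 := by
    intro v
    have e1 := pointc G f h0 hab hac hbc hC v
    rw [← hNd, ← hm] at e1
    have e2 := mul_le_mul_of_nonneg_left e1 (hw v)
    refine e2.trans (le_of_eq ?_)
    unfold uw
    rw [← hNd]
    field_simp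
  have hsum : ∑ a ∈ univ.filter (fun v => f v = iA), uw V a * (max (m - G.FF (uw V)
        (univ.filter (fun v => f v = iA)) (univ.filter (fun v => f v = iB)) a) 0) ^ 2 +
      ∑ b ∈ univ.filter (fun v => f v = iB), uw V b * (max (m - G.FF (uw V)
        (univ.filter (fun v => f v = iA)) (univ.filter (fun v => f v = iB)) b) 0) ^ 2 ≤ SM G q / N ^ 3 := by
    rw [← Finset.sum_union hAB']
    unfold SM
    rw [Finset.sum_div]
    calc _ ≤ ∑ v ∈ univ.filter (fun v => f v = iA) ∪ univ.filter (fun v => f v = iB),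
          (((od G v : ℝ) - q) * ((od G v : ℝ) - q - 1)) / N ^ 3 := Finset.sum_le_sum fun v _ => hpt v
      _ ≤ _ := Finset.sum_le_sum_of_subset_of_nonneg (Finset.subset_univ _)
          (fun v _ _ => div_nonneg (mu_nn G q v) hN3.le)
  have hcorner : 2 * (max (m - Real.sqrt (5 * b1)) 0) ^ 3 ≤ Lam := by
    have e1 : Lam = 3 * (SM G q / N ^ 3) := by rw [hLam]; ring
    rw [e1]
    linarith
  exact num m b1 Lam hm0 hb0 hcorner k4 k6

end FDX
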