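import Pool.Agent.FDX.Defs
import Pool.Agent.FDF.Fin1
import Pool.Agent.FDF.Fin2
/-! FDX-Cert. The certificates with a small error. PLAN: copy the proof of `FDF.master` (FDF/Ev.lean) with the hypothesis
`he : ∀ v, ee w v ≤ 4/9 + 1/10^15` and the conclusion `-3 ≤ ∑ ...`: the only change is the term `hm`: it is now
`dg tabMu tc * (4 - 9 ee a) ≥ -(2^48) * 9/10^15 ≥ -3` for every (a,b,c) (`dg T k < 281474976710656 = 2^48`: `Nat.mod_lt`), and its weighted
sum over a b c is `≥ -3` (weights sum to one: `col0`). Then copy `FDF.stC1`, `FDF.stC2` (FDF/Fin1.lean, Fin2.lean): after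
the division by `D1.D = D2.D = 53084160000` the error is `3/53084160000 ≤ 1/10^10`. The facts `chk1_all`, `psd1_all`, `p1_q1`, `chk2_all`,
`psd2_all`, `p2_q1`, `OG.O1`, `OG.O2`, `eval`, `exp_nonneg`, `psd_nonneg`, `col0..col3` are used as they are (they are public). -/
namespace FDX
open Finset FDF
open scoped BigOperators Classical

theorem master (C : Cert) (hC : ∀ u < 3, ∀ v < 3, ∀ w < 3, chkAll C (M0 u v w) = true)
    (hP : ∀ s < 7, ∃ L lb n, psdB C.tabQ L (s * 729) lb n = true) (hP1 : ∃ L lb n, psdB C.tabQ1 L 0 lb n = true)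
    {V : Type} [Fintype V] (G : OG V) (h4 : G.NoC4) (w : V → ℝ) (hw : ∀ v, 0 ≤ w v) (hs : ∑ v, w v = 1)
    (he : ∀ v, G.ee w v ≤ 4 / 9 + 1 / 10 ^ 15) :
    -3 ≤ ∑ a, ∑ b, ∑ c, ∑ x, ∑ y, w a * w b * w c * w x * w y *
      ((C.K : ℝ) - 140737488355328 - dg C.tabO (9 * G.rel a b + (3 * G.rel a c + G.rel b c))
        - C.DB * (G.t3 a b c * G.bad a b c x y)) := by
  have h0 := exp_nonneg C hC G h4 w hw
  have hq : ∀ a b c, 0 ≤ ∑ x, ∑ y, w x * w y * qq C (9 * G.rel a b + (3 * G.rel a c + G.rel b c))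
      (9 * G.rel a x + (3 * G.rel b x + G.rel c x)) (9 * G.rel a y + (3 * G.rel b y + G.rel c y)) := by
    intro a b c
    unfold qq
    by_cases h7 : slot (9 * G.rel a b + (3 * G.rel a c + G.rel b c)) = 7
    · simp [h7]
    · have hlt : slot (9 * G.rel a b + (3 * G.rel a c + G.rel b c)) < 7 := lt_of_le_of_ne (slot_le _) h7
      obtain ⟨L, lb, n, hL⟩ := hP _ hlt
      have := psd_nonneg hL w (fun x => 9 * G.rel a x + (3 * G.rel b x + G.rel c x)) (by
        intro x
        have h1 := G.rel_lt a x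
        have h2 := G.rel_lt b x
        have h3 := G.rel_lt c x
        show 9 * G.rel a x + (3 * G.rel b x + G.rel c x) < 27
        omega)
      simp only [if_neg h7]
      exact this
  have hq1 : ∀ a, 0 ≤ ∑ b, ∑ c, ∑ x, ∑ y, (w b * w c) * (w x * w y) * q1 C (9 * G.rel a b + (3 * G.rel a c + G.rel b c))
      (9 * G.rel a x + (3 * G.rel a y + G.rel x y)) := by
    intro a
    obtain ⟨L, lb, n, hL⟩ := hP1
    have := psd_nonneg hL (fun p : V × V => w p.1 * w p.2) (fun p => 9 * G.rel a p.1 + (3 * G.rel a p.2 + G.rel p.1 p.2)) (by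
        intro p
        have h1 := G.rel_lt a p.1
        have h2 := G.rel_lt a p.2
        have h3 := G.rel_lt p.1 p.2
        show 9 * G.rel a p.1 + (3 * G.rel a p.2 + G.rel p.1 p.2) < 27
        omega)
    simp only [Fintype.sum_prod_type] at this
    refine this.trans (le_of_eq ?_)
    refine Finset.sum_congr rfl fun b _ => Finset.sum_congr rfl fun c _ => Finset.sum_congr rfl fun x _ =>
      Finset.sum_congr rfl fun y _ => ?_
    unfold q1
    rw [zero_add, mul_comm 27 (9 * G.rel a b + (3 * G.rel a c + G.rel b c))]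
  have hm : ∀ a b c, -3 ≤ ∑ x, ∑ y, w x * w y * (dg C.tabMu (9 * G.rel a b + (3 * G.rel a c + G.rel b c)) *
      (4 - 9 * G.hh a x y)) := by
    intro a b c
    have h1 : ∑ x, ∑ y, w x * w y * ((dg C.tabMu (9 * G.rel a b + (3 * G.rel a c + G.rel b c)) : ℝ) *
        (4 - 9 * G.hh a x y)) = dg C.tabMu (9 * G.rel a b + (3 * G.rel a c + G.rel b c)) * (4 - 9 * G.ee w a) := by
      have h2 : ∑ x, ∑ y, w x * w y = 1 := by
        rw [← Finset.sum_mul_sum, hs, one_mul]
      have h3 : (4 : ℝ) - 9 * G.ee w a = ∑ x, ∑ y, w x * w y * (4 - 9 * G.hh a x y) := by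
        have h4' : ∑ x, ∑ y, w x * w y * (4 - 9 * G.hh a x y) =
            4 * (∑ x, ∑ y, w x * w y) - 9 * (∑ x, ∑ y, w x * w y * G.hh a x y) := by
          rw [Finset.mul_sum, Finset.mul_sum, ← Finset.sum_sub_distrib]
          refine Finset.sum_congr rfl fun x _ => ?_
          rw [Finset.mul_sum, Finset.mul_sum, ← Finset.sum_sub_distrib]
          refine Finset.sum_congr rfl fun y _ => ?_
          ring
        rw [h4', h2]
        unfold OG.ee
        ring
      rw [h3, Finset.mul_sum]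
      refine Finset.sum_congr rfl fun x _ => ?_
      rw [Finset.mul_sum]
      refine Finset.sum_congr rfl fun y _ => ?_
      ring
    rw [h1]
    have h5 : (dg C.tabMu (9 * G.rel a b + (3 * G.rel a c + G.rel b c)) : ℝ) ≤ 281474976710656 := by
      have h6 : dg C.tabMu (9 * G.rel a b + (3 * G.rel a c + G.rel b c)) < 281474976710656 :=
        Nat.mod_lt _ (by norm_num)
      exact_mod_cast h6.le
    have h6 : (0 : ℝ) ≤ dg C.tabMu (9 * G.rel a b + (3 * G.rel a c + G.rel b c)) :=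
      Nat.cast_nonneg _
    have h7 : -(9 / 10 ^ 15 : ℝ) ≤ 4 - 9 * G.ee w a := by linarith [he a]
    have h8 := mul_le_mul_of_nonneg_left h7 h6
    have h9 : (dg C.tabMu (9 * G.rel a b + (3 * G.rel a c + G.rel b c)) : ℝ) * -(9 / 10 ^ 15) ≥ -3 := by
      have h10 : (281474976710656 : ℝ) * (9 / 10 ^ 15) ≤ 3 := by norm_num
      nlinarith
    linarith
  have key : ∑ a, ∑ b, ∑ c, ∑ x, ∑ y, w a * w b * w c * w x * w y *
      ((C.K : ℝ) - 140737488355328 - dg C.tabO (9 * G.rel a b + (3 * G.rel a c + G.rel b c))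
        - C.DB * (G.t3 a b c * G.bad a b c x y)) =
      ∑ a, ∑ b, ∑ c, ∑ x, ∑ y, w a * w b * w c * w x * w y *
      ((HP C G.rel a b c x y : ℝ) - (HN C G.rel a b c x y : ℝ)) +
      (∑ a, ∑ b, ∑ c, w a * w b * w c * ∑ x, ∑ y, w x * w y * qq C (9 * G.rel a b + (3 * G.rel a c + G.rel b c))
      (9 * G.rel a x + (3 * G.rel b x + G.rel c x)) (9 * G.rel a y + (3 * G.rel b y + G.rel c y))) +
      (∑ a, w a * ∑ b, ∑ c, ∑ x, ∑ y, (w b * w c) * (w x * w y) * q1 C (9 * G.rel a b + (3 * G.rel a c + G.rel b c))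
      (9 * G.rel a x + (3 * G.rel a y + G.rel x y))) +
      (∑ a, ∑ b, ∑ c, w a * w b * w c * ∑ x, ∑ y, w x * w y *
        (dg C.tabMu (9 * G.rel a b + (3 * G.rel a c + G.rel b c)) * (4 - 9 * G.hh a x y))) := by
    simp only [Finset.mul_sum]
    simp only [← Finset.sum_add_distrib]
    refine Finset.sum_congr rfl fun a _ => Finset.sum_congr rfl fun b _ => Finset.sum_congr rfl fun c _ =>
      Finset.sum_congr rfl fun x _ => Finset.sum_congr rfl fun y _ => ?_
    rw [eval]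
    ring
  rw [key]
  have e1 : 0 ≤ ∑ a, ∑ b, ∑ c, w a * w b * w c * ∑ x, ∑ y, w x * w y *
      qq C (9 * G.rel a b + (3 * G.rel a c + G.rel b c))
      (9 * G.rel a x + (3 * G.rel b x + G.rel c x)) (9 * G.rel a y + (3 * G.rel b y + G.rel c y)) :=
    Finset.sum_nonneg fun a _ => Finset.sum_nonneg fun b _ => Finset.sum_nonneg fun c _ =>
      mul_nonneg (mul_nonneg (mul_nonneg (hw a) (hw b)) (hw c)) (hq a b c)
  have e2 : 0 ≤ ∑ a, w a * ∑ b, ∑ c, ∑ x, ∑ y, (w b * w c) * (w x * w y) *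
      q1 C (9 * G.rel a b + (3 * G.rel a c + G.rel b c)) (9 * G.rel a x + (3 * G.rel a y + G.rel x y)) :=
    Finset.sum_nonneg fun a _ => mul_nonneg (hw a) (hq1 a)
  have e3 : -3 ≤ ∑ a, ∑ b, ∑ c, w a * w b * w c * ∑ x, ∑ y, w x * w y *
        (dg C.tabMu (9 * G.rel a b + (3 * G.rel a c + G.rel b c)) * (4 - 9 * G.hh a x y)) := by
    have e4 : ∑ a, ∑ b, ∑ c, w a * w b * w c * (-3) = -3 := by
      have e5 := col0 w hs
      calc ∑ a, ∑ b, ∑ c, w a * w b * w c * (-3) = (∑ a, ∑ b, ∑ c, w a * w b * w c) * (-3) := by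
            simp only [Finset.sum_mul]
        _ = -3 := by rw [e5, one_mul]
    rw [← e4]
    exact Finset.sum_le_sum fun a _ => Finset.sum_le_sum fun b _ => Finset.sum_le_sum fun c _ =>
      mul_le_mul_of_nonneg_left (hm a b c) (mul_nonneg (mul_nonneg (hw a) (hw b)) (hw c))
  linarith

theorem stC1 : StC1X := by
  intro V _ G w h4 hw hs he
  have hm := master D1.C chk1_all psd1_all ⟨_, _, _, p1_q1⟩ G h4 w hw hs he
  have h1 : ∀ a b c x y : V, w a * w b * w c * w x * w y *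
      ((D1.C.K : ℝ) - 140737488355328 - dg D1.C.tabO (9 * G.rel a b + (3 * G.rel a c + G.rel b c))
        - D1.C.DB * (G.t3 a b c * G.bad a b c x y)) =
      w a * w b * w c * w x * w y * (((D1.C.K : ℝ) - 140737488355328) - (D1.D : ℝ) * G.mm a b - 7 * (D1.D : ℝ) * G.t1 a b c) := by
    intro a b c x y
    rw [G.O1 a b c]
    have : ((D1.C.DB : ℕ) : ℝ) = 0 := by norm_num [D1.C]
    rw [this]
    ring
  simp only [h1] at hm
  rw [col3 w hs (fun a b c => ((D1.C.K : ℝ) - 140737488355328) - (D1.D : ℝ) * G.mm a b - 7 * (D1.D : ℝ) * G.t1 a b c)] at hm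
  have h2 : ∑ a, ∑ b, ∑ c, w a * w b * w c *
      (((D1.C.K : ℝ) - 140737488355328) - (D1.D : ℝ) * G.mm a b - 7 * (D1.D : ℝ) * G.t1 a b c) =
      ((D1.C.K : ℝ) - 140737488355328) * (∑ a, ∑ b, ∑ c, w a * w b * w c)
        - (D1.D : ℝ) * (∑ a, ∑ b, ∑ c, w a * w b * w c * G.mm a b) - 7 * (D1.D : ℝ) * G.T1 w := by
    unfold OG.T1
    simp only [Finset.mul_sum, ← Finset.sum_sub_distrib]
    refine Finset.sum_congr rfl fun a _ => Finset.sum_congr rfl fun b _ => Finset.sum_congr rfl fun c _ => ?_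
    ring
  rw [h2, col0 w hs, col2 w hs (fun a b => G.mm a b)] at hm
  have h3 : ∑ a, ∑ b, w a * w b * G.mm a b = G.gam w + 1 / 3 := by
    unfold OG.gam
    have h4 : ∀ a, ∑ b, w a * w b * G.mm a b = w a * (G.nn w a - 1 / 3) + 1 / 3 * w a := by
      intro a
      unfold OG.nn
      simp only [mul_assoc]
      rw [← Finset.mul_sum]
      ring
    rw [Finset.sum_congr rfl fun a _ => h4 a, Finset.sum_add_distrib, ← Finset.mul_sum, hs]
    ring
  rw [h3] at hm
  have hD : ((D1.D : ℕ) : ℝ) = 53084160000 := by norm_num [D1.D]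
  have hK : ((D1.C.K : ℕ) : ℝ) = 140737488355328 + 53084160000 / 10000 * 126 + 53084160000 / 3 := by
    norm_num [D1.C, D1.K]
  rw [hD, hK] at hm
  linarith

theorem stC2 : StC2X := by
  intro V _ G w h4 hw hs he
  have hm := master D2.C chk2_all psd2_all ⟨_, _, _, p2_q1⟩ G h4 w hw hs he
  have hK : ((D2.C.K : ℕ) : ℝ) = 140737488355328 + 53084160000 / 100 + 53084160000 / 27 * 40 := by
    norm_num [D2.C, D2.K]
  have hB : ((D2.C.DB : ℕ) : ℝ) = 53084160000 := by norm_num [D2.C, D2.D]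
  have h1 : ∀ a b c x y : V, w a * w b * w c * w x * w y *
      ((D2.C.K : ℝ) - 140737488355328 - dg D2.C.tabO (9 * G.rel a b + (3 * G.rel a c + G.rel b c))
        - D2.C.DB * (G.t3 a b c * G.bad a b c x y)) =
      w a * w b * w c * w x * w y * (53084160000 / 100 * G.t3 a b c
      - 53084160000 / 27 * 20 * ((3 * G.aa a b - 1) * (3 * G.aa a c - 1))) -
      53084160000 * (w a * w b * w c * w x * w y * (G.t3 a b c * G.bad a b c x y)) := by
    intro a b c x y
    rw [G.O2 a b c, hK, hB]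
    ring
  simp only [h1, Finset.sum_sub_distrib] at hm
  rw [col3 w hs (fun a b c => 53084160000 / 100 * G.t3 a b c
      - 53084160000 / 27 * 20 * ((3 * G.aa a b - 1) * (3 * G.aa a c - 1)))] at hm
  have hb : ∑ a, ∑ b, ∑ c, ∑ x, ∑ y, 53084160000 * (w a * w b * w c * w x * w y * (G.t3 a b c * G.bad a b c x y)) =
      53084160000 * G.Bad5 w := by
    unfold OG.Bad5
    simp only [Finset.mul_sum]
  have h2 : ∑ a, ∑ b, ∑ c, w a * w b * w c *
      (53084160000 / 100 * G.t3 a b c - 53084160000 / 27 * 20 * ((3 * G.aa a b - 1) * (3 * G.aa a c - 1))) =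
      53084160000 / 100 * G.T0 w
        - 53084160000 / 27 * 20 * (∑ a, ∑ b, ∑ c, w a * w b * w c * ((3 * G.aa a b - 1) * (3 * G.aa a c - 1))) := by
    unfold OG.T0
    simp only [Finset.mul_sum, ← Finset.sum_sub_distrib]
    refine Finset.sum_congr rfl fun a _ => Finset.sum_congr rfl fun b _ => Finset.sum_congr rfl fun c _ => ?_
    ring
  have h3 : ∑ a, ∑ b, ∑ c, w a * w b * w c * ((3 * G.aa a b - 1) * (3 * G.aa a c - 1)) = 9 * G.E2 w := by
    unfold OG.E2
    rw [Finset.mul_sum]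
    refine Finset.sum_congr rfl fun a _ => ?_
    have h4 : ∑ b, w b * (3 * G.aa a b - 1) = 3 * (G.oo w a - 1 / 3) := by
      unfold OG.oo
      have : ∀ b, w b * (3 * G.aa a b - 1) = 3 * (w b * G.aa a b) - w b := by intro b; ring
      rw [Finset.sum_congr rfl fun b _ => this b, Finset.sum_sub_distrib, ← Finset.mul_sum, hs]
      ring
    have h5 : ∑ b, ∑ c, w a * w b * w c * ((3 * G.aa a b - 1) * (3 * G.aa a c - 1)) =
        w a * ((∑ b, w b * (3 * G.aa a b - 1)) * (∑ c, w c * (3 * G.aa a c - 1))) := by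
      rw [Finset.sum_mul_sum, Finset.mul_sum]
      refine Finset.sum_congr rfl fun b _ => ?_
      rw [Finset.mul_sum]
      refine Finset.sum_congr rfl fun c _ => ?_
      ring
    rw [h5, h4]
    ring
  rw [hb, h2, h3] at hm
  linarith

end FDX
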