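import Pool.Agent.FDX.Cnt
import Pool.Agent.FDF.OptEx
/-! FDX-Clone. Near regularity of an extremal orgraph: replace the vertex u by a copy of v. With `π x = if x = u then v else x`,
`G'.A x y = G.A (π x) (π y)`: `dd G' (uw) = dd G (uw + (1/n) (1_v - 1_u))`, expand the cubic form; the exact count `cnt` for G' and G and
`na G' ≤ na G + n` give the bound. -/
namespace FDX
open Finset FDF
open scoped BigOperators Classical
variable {V : Type} [Fintype V]

private lemma cl_hit12 (G : OG V) (a b c : V) : G.hit a b c ↔ G.hit b a c := by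
  unfold OG.hit
  have h1 := G.adj_comm a b
  have h2 := G.adj_comm a c
  have h3 := G.adj_comm b c
  tauto

private lemma cl_hit23 (G : OG V) (a b c : V) : G.hit a b c ↔ G.hit a c b := by
  unfold OG.hit
  have h1 := G.adj_comm a b
  have h2 := G.adj_comm a c
  have h3 := G.adj_comm b c
  tauto

private lemma cl_hh12 (G : OG V) (a b c : V) : G.hh a b c = G.hh b a c := by
  unfold OG.hh
  rw [cl_hit12 G a b c]

private lemma cl_hh23 (G : OG V) (a b c : V) : G.hh a b c = G.hh a c b := by
  unfold OG.hh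
  rw [cl_hit23 G a b c]

private noncomputable def BB (G : OG V) (x y z : V → ℝ) : ℝ :=
  ∑ a, ∑ b, ∑ c, x a * y b * z c * G.hh a b c

private lemma BB_add1 (G : OG V) (x x' y z : V → ℝ) (t : ℝ) :
    BB G (fun v => x v + t * x' v) y z = BB G x y z + t * BB G x' y z := by
  unfold BB
  rw [Finset.mul_sum, ← Finset.sum_add_distrib]
  refine Finset.sum_congr rfl fun a _ => ?_
  rw [Finset.mul_sum, ← Finset.sum_add_distrib]
  refine Finset.sum_congr rfl fun b _ => ?_
  rw [Finset.mul_sum, ← Finset.sum_add_distrib]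
  refine Finset.sum_congr rfl fun c _ => ?_
  ring

private lemma BB_swap12 (G : OG V) (x y z : V → ℝ) : BB G x y z = BB G y x z := by
  unfold BB
  rw [Finset.sum_comm]
  refine Finset.sum_congr rfl fun a _ => Finset.sum_congr rfl fun b _ =>
    Finset.sum_congr rfl fun c _ => ?_
  rw [cl_hh12 G b a c]
  ring

private lemma BB_swap23 (G : OG V) (x y z : V → ℝ) : BB G x y z = BB G x z y := by
  unfold BB
  refine Finset.sum_congr rfl fun a _ => ?_
  rw [Finset.sum_comm]
  refine Finset.sum_congr rfl fun b _ =>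
    Finset.sum_congr rfl fun c _ => ?_
  rw [cl_hh23 G a c b]
  ring

private lemma BB_add2 (G : OG V) (x y y' z : V → ℝ) (t : ℝ) :
    BB G x (fun v => y v + t * y' v) z = BB G x y z + t * BB G x y' z := by
  rw [BB_swap12, BB_add1, BB_swap12 G y x z, BB_swap12 G y' x z]

private lemma BB_add3 (G : OG V) (x y z z' : V → ℝ) (t : ℝ) :
    BB G x y (fun v => z v + t * z' v) = BB G x y z + t * BB G x y z' := by
  rw [BB_swap23, BB_add2, BB_swap23 G x z y, BB_swap23 G x z' y]

private lemma BB_dd (G : OG V) (w : V → ℝ) : G.dd w = BB G w w w := by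
  unfold OG.dd OG.ee BB
  refine Finset.sum_congr rfl fun a _ => ?_
  rw [Finset.mul_sum]
  refine Finset.sum_congr rfl fun b _ => ?_
  rw [Finset.mul_sum]
  refine Finset.sum_congr rfl fun c _ => ?_
  ring

private lemma BB_ee (G : OG V) (x w : V → ℝ) : BB G x w w = ∑ a, x a * G.ee w a := by
  unfold OG.ee BB
  refine Finset.sum_congr rfl fun a _ => ?_
  rw [Finset.mul_sum]
  refine Finset.sum_congr rfl fun b _ => ?_
  rw [Finset.mul_sum]
  refine Finset.sum_congr rfl fun c _ => ?_
  ring

private lemma cl_line (G : OG V) (w d : V → ℝ) (t : ℝ) :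
    BB G (fun v => w v + t * d v) (fun v => w v + t * d v) (fun v => w v + t * d v) =
      G.dd w + (3 * ∑ a, d a * G.ee w a) * t + (3 * BB G d d w) * t ^ 2 + BB G d d d * t ^ 3 := by
  rw [BB_dd, BB_add1, BB_add2, BB_add2, BB_add3, BB_add3, BB_add3, BB_add3, ← BB_ee G d w]
  have h1 : BB G w d w = BB G d w w := BB_swap12 _ _ _ _
  have h2 : BB G w w d = BB G d w w := by rw [BB_swap23, BB_swap12]
  have h3 : BB G d w d = BB G d d w := BB_swap23 _ _ _ _
  have h4 : BB G w d d = BB G d d w := by rw [BB_swap12, BB_swap23]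
  rw [h1, h2, h3, h4]
  ring

private lemma cl_hh_abs (G : OG V) (a b c : V) : |G.hh a b c| ≤ 1 := by
  unfold OG.hh
  split_ifs <;> simp

private lemma BB_abs (G : OG V) (x y z : V → ℝ) :
    |BB G x y z| ≤ (∑ a, |x a|) * (∑ b, |y b|) * ∑ c, |z c| := by
  have h1 : |BB G x y z| ≤ ∑ a, ∑ b, ∑ c, |x a| * |y b| * |z c| := by
    unfold BB
    refine (Finset.abs_sum_le_sum_abs _ _).trans (Finset.sum_le_sum fun a _ => ?_)
    refine (Finset.abs_sum_le_sum_abs _ _).trans (Finset.sum_le_sum fun b _ => ?_)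
    refine (Finset.abs_sum_le_sum_abs _ _).trans (Finset.sum_le_sum fun c _ => ?_)
    rw [abs_mul, abs_mul, abs_mul]
    exact mul_le_of_le_one_right (by positivity) (cl_hh_abs G a b c)
  refine h1.trans (le_of_eq ?_)
  rw [Finset.sum_mul_sum, Finset.sum_mul]
  refine Finset.sum_congr rfl fun a _ => ?_
  rw [Finset.sum_mul]
  refine Finset.sum_congr rfl fun b _ => ?_
  rw [Finset.mul_sum]

/-- the orgraph with `u` replaced by a copy of `v` -/
private def cl (G : OG V) (u v : V) : OG V where
  A x y := G.A (if x = u then v else x) (if y = u then v else y)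
  asymm _ _ h := G.asymm _ _ h

private lemma cl_sum (u v : V) (F : V → ℝ) :
    ∑ a, F (if a = u then v else a) = (∑ a, F a) + (F v - F u) := by
  have h1 : ∀ a, F (if a = u then v else a) = F a + (if a = u then (F v - F u) else 0) := by
    intro a
    by_cases h : a = u
    · subst h
      simp
    · simp [h]
  rw [Finset.sum_congr rfl fun a _ => h1 a, Finset.sum_add_distrib]
  simp

/-- the difference of two unit masses -/
private noncomputable def dl (u v : V) : V → ℝ := fun a => (if a = v then (1 : ℝ) else 0) - (if a = u then 1 else 0)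

private lemma dl_sum (u v : V) (F : V → ℝ) : ∑ a, dl u v a * F a = F v - F u := by
  unfold dl
  simp only [sub_mul, ite_mul, one_mul, zero_mul, Finset.sum_sub_distrib, Finset.sum_ite_eq',
    Finset.mem_univ, if_true]

private lemma dl_abs (u v : V) : ∑ a, |dl u v a| ≤ 2 := by
  have h1 : ∀ a, |dl u v a| ≤ (if a = v then (1 : ℝ) else 0) + (if a = u then 1 else 0) := by
    intro a
    unfold dl
    split_ifs <;> norm_num
  refine (Finset.sum_le_sum fun a _ => h1 a).trans (le_of_eq ?_)
  rw [Finset.sum_add_distrib]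
  simp only [Finset.sum_ite_eq', Finset.mem_univ, if_true]
  norm_num

private lemma cl_wsum (u v : V) (F : V → ℝ) (t : ℝ) :
    ∑ a, t * F (if a = u then v else a) = ∑ a, (t + t * dl u v a) * F a := by
  rw [← Finset.mul_sum, cl_sum]
  have h1 : ∀ a, (t + t * dl u v a) * F a = t * F a + t * (dl u v a * F a) := fun a => by ring
  rw [Finset.sum_congr rfl fun a _ => h1 a, Finset.sum_add_distrib, ← Finset.mul_sum,
    ← Finset.mul_sum, dl_sum]
  ring

private lemma cl_dd (G : OG V) (u v : V) (t : ℝ) :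
    BB (cl G u v) (fun _ => t) (fun _ => t) (fun _ => t) =
      BB G (fun x => t + t * dl u v x) (fun x => t + t * dl u v x) (fun x => t + t * dl u v x) := by
  have hhh : ∀ a b c, (cl G u v).hh a b c =
      G.hh (if a = u then v else a) (if b = u then v else b) (if c = u then v else c) :=
    fun _ _ _ => rfl
  unfold BB
  have e3 : ∀ a b, ∑ c, t * t * t * (cl G u v).hh a b c =
      t * (t * ∑ c, (t + t * dl u v c) *
        G.hh (if a = u then v else a) (if b = u then v else b) c) := by
    intro a b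
    rw [← cl_wsum u v (fun c => G.hh (if a = u then v else a) (if b = u then v else b) c) t,
      Finset.mul_sum, Finset.mul_sum]
    refine Finset.sum_congr rfl fun c _ => ?_
    rw [hhh]
    ring
  have e2 : ∀ a, ∑ b, ∑ c, t * t * t * (cl G u v).hh a b c =
      t * ∑ b, (t + t * dl u v b) * ∑ c, (t + t * dl u v c) *
        G.hh (if a = u then v else a) b c := by
    intro a
    rw [Finset.sum_congr rfl fun b _ => e3 a b, ← Finset.mul_sum,
      cl_wsum u v (fun b => ∑ c, (t + t * dl u v c) * G.hh (if a = u then v else a) b c) t]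
  rw [Finset.sum_congr rfl fun a _ => e2 a,
    cl_wsum u v (fun a => ∑ b, (t + t * dl u v b) * ∑ c, (t + t * dl u v c) * G.hh a b c) t]
  refine Finset.sum_congr rfl fun a _ => ?_
  rw [Finset.mul_sum]
  refine Finset.sum_congr rfl fun b _ => ?_
  rw [Finset.mul_sum, Finset.mul_sum]
  refine Finset.sum_congr rfl fun c _ => ?_
  ring

private lemma cl_na_eq (G : OG V) : (na G : ℝ) = ∑ x, ∑ y, if G.A x y then (1 : ℝ) else 0 := by
  unfold na
  rw [← Finset.sum_product', Finset.univ_product_univ, Finset.card_filter]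
  push_cast
  rfl

private lemma cl_na (G : OG V) (u v : V) : (na (cl G u v) : ℝ) ≤ na G + Fintype.card V := by
  set F : V → V → ℝ := fun x y => if G.A x y then (1 : ℝ) else 0 with hF
  have hF0 : ∀ x y, 0 ≤ F x y := by
    intro x y
    simp only [hF]
    split_ifs <;> norm_num
  have hFF : ∀ x y, F x y + F y x ≤ 1 := by
    intro x y
    simp only [hF]
    by_cases h1 : G.A x y
    · rw [if_pos h1, if_neg (G.asymm _ _ h1)]
      norm_num
    · rw [if_neg h1]
      split_ifs <;> norm_num
  have hFd : ∀ x, F x x = 0 := by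
    intro x
    have := hFF x x
    simp only [hF]
    rw [if_neg]
    intro h
    exact G.asymm _ _ h h
  have e1 : (na (cl G u v) : ℝ) =
      ∑ x, ∑ y, F (if x = u then v else x) (if y = u then v else y) := by
    rw [cl_na_eq]
    rfl
  have e2 : (na G : ℝ) = ∑ x, ∑ y, F x y := by
    rw [cl_na_eq]
  rw [e1, e2]
  have e3 : ∀ x, ∑ y, F (if x = u then v else x) (if y = u then v else y) =
      (fun z => (∑ y, F z y) + (F z v - F z u)) (if x = u then v else x) := by
    intro x
    exact cl_sum u v (F (if x = u then v else x))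
  rw [Finset.sum_congr rfl fun x _ => e3 x,
    cl_sum u v (fun z => (∑ y, F z y) + (F z v - F z u))]
  simp only [Finset.sum_add_distrib, Finset.sum_sub_distrib]
  have h1 : (∑ x, F x v) + ∑ y, F v y ≤ Fintype.card V := by
    rw [← Finset.sum_add_distrib]
    calc ∑ x, (F x v + F v x) ≤ ∑ _x : V, (1 : ℝ) := Finset.sum_le_sum fun x _ => hFF x v
      _ = Fintype.card V := by simp
  have h2 : 0 ≤ ∑ x, F x u := Finset.sum_nonneg fun x _ => hF0 x u
  have h3 : 0 ≤ ∑ y, F u y := Finset.sum_nonneg fun y _ => hF0 u y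
  have h4 := hF0 v u
  have h5 := hF0 u v
  rw [hFd u, hFd v]
  linarith

theorem near_reg (G : OG V) (h4 : G.NoC4) (hmax : ∀ G' : OG V, G'.NoC4 → fe G' ≤ fe G)
    (h0 : 0 < Fintype.card V) (u v : V) :
    G.ee (uw V) u ≤ G.ee (uw V) v + 8 / (Fintype.card V : ℝ) := by
  have h4' : (cl G u v).NoC4 := by
    intro a b c d h1 h2 h3 h5
    exact h4 _ _ _ _ h1 h2 h3 h5
  have hfe : (fe (cl G u v) : ℝ) ≤ fe G := by exact_mod_cast hmax _ h4'
  have hna := cl_na G u v
  have c1 := cnt (cl G u v) h0
  have c2 := cnt G h0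
  have hn : (1 : ℝ) ≤ (Fintype.card V : ℝ) := by exact_mod_cast h0
  set n : ℝ := (Fintype.card V : ℝ) with hnd
  have hn0 : 0 < n := by linarith
  have huw : uw V = fun _ => 1 / n := rfl
  have hdd : (cl G u v).dd (uw V) = G.dd (uw V) +
      (3 * (G.ee (uw V) v - G.ee (uw V) u)) * (1 / n) +
      (3 * BB G (dl u v) (dl u v) (uw V)) * (1 / n) ^ 2 +
      BB G (dl u v) (dl u v) (dl u v) * (1 / n) ^ 3 := by
    rw [BB_dd (cl G u v), huw, cl_dd G u v (1 / n),
      cl_line G (fun _ => 1 / n) (dl u v) (1 / n), dl_sum u v (fun a => G.ee (fun _ => 1 / n) a)]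
  have hB2 : |BB G (dl u v) (dl u v) (uw V)| ≤ 4 := by
    refine (BB_abs G _ _ _).trans ?_
    have h1 : ∑ c, |uw V c| = 1 := by
      have : ∀ c, |uw V c| = 1 / n := by
        intro c
        rw [huw, abs_of_pos (by positivity)]
      rw [Finset.sum_congr rfl fun c _ => this c, Finset.sum_const, Finset.card_univ,
        nsmul_eq_mul]
      rw [← hnd]
      field_simp
    rw [h1, mul_one]
    have h2 := dl_abs u v
    have h3 : 0 ≤ ∑ a, |dl u v a| := Finset.sum_nonneg fun a _ => abs_nonneg _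
    nlinarith
  have hB3 : |BB G (dl u v) (dl u v) (dl u v)| ≤ 8 := by
    refine (BB_abs G _ _ _).trans ?_
    have h2 := dl_abs u v
    have h3 : 0 ≤ ∑ a, |dl u v a| := Finset.sum_nonneg fun a _ => abs_nonneg _
    have h4 : (∑ a, |dl u v a|) * (∑ a, |dl u v a|) ≤ 4 := by nlinarith
    nlinarith
  have hB2' := (abs_le.1 hB2)
  have hB3' := (abs_le.1 hB3)
  -- `n³ (dd G' - dd G) ≥ - 3 n`
  have key : -(3 * n) ≤ n ^ 3 * ((cl G u v).dd (uw V) - G.dd (uw V)) := by
    have : n ^ 3 * ((cl G u v).dd (uw V) - G.dd (uw V)) =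
        n ^ 3 * (1 - G.dd (uw V)) - n ^ 3 * (1 - (cl G u v).dd (uw V)) := by ring
    rw [this, c1, c2]
    linarith
  rw [hdd] at key
  have e5 : n ^ 3 * (G.dd (uw V) + (3 * (G.ee (uw V) v - G.ee (uw V) u)) * (1 / n) +
      (3 * BB G (dl u v) (dl u v) (uw V)) * (1 / n) ^ 2 +
      BB G (dl u v) (dl u v) (dl u v) * (1 / n) ^ 3 - G.dd (uw V)) =
      3 * n ^ 2 * (G.ee (uw V) v - G.ee (uw V) u) + 3 * n * BB G (dl u v) (dl u v) (uw V) +
        BB G (dl u v) (dl u v) (dl u v) := by
    field_simp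
    ring
  rw [e5] at key
  have h6 : 3 * n * BB G (dl u v) (dl u v) (uw V) ≤ 3 * n * 4 :=
    mul_le_mul_of_nonneg_left hB2'.2 (by linarith)
  have h7 : 3 * n ^ 2 * (G.ee (uw V) u - G.ee (uw V) v) ≤ 15 * n + 8 := by linarith
  have h8 : 3 * n ^ 2 * (G.ee (uw V) u - G.ee (uw V) v) ≤ 3 * n ^ 2 * (8 / n) := by
    have : 3 * n ^ 2 * (8 / n) = 24 * n := by
      field_simp
      ring
    rw [this]
    linarith
  have h9 := le_of_mul_le_mul_left h8 (by positivity)
  linarith

end FDX
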