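import Pool.Agent.FDX.Defs
/-! FDX-Cnt. Exact count. PLAN. `n³ dd = #{(a,b,c) ∈ V³ : hit}` (see `hdd` in FDF/Count.lean), so `n³ (1 - dd) = #{(a,b,c) : ¬ hit}`. Split the ordered
triples which are not hit: all three different: exactly 6 for every 3-set which is not hit (`hitSet_iff` in FDF/Four.lean; the fibre of
`p ↦ {p.1, p.2.1, p.2.2}` over {a,b,c} consists of the six orderings; `card_eq_sum_card_fiberwise`, see `six_le` in FDF/Count.lean);
a = b ≠ c: `hit a a c ↔ ¬ A a c` (unfold hit, adj: nonadjacent, or `A c a`), similarly `(a,c,a)` and `(c,a,a)`: 3 * (number of arcs);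
a = b = c: hit. Checked numerically. -/
namespace FDX
open Finset FDF
open scoped BigOperators Classical
variable {V : Type} [Fintype V]

private lemma cnt_maps (G : OG V) {p : V × V × V}
    (hp : ¬ G.hit p.1 p.2.1 p.2.2 ∧ p.1 ≠ p.2.1 ∧ p.1 ≠ p.2.2 ∧ p.2.1 ≠ p.2.2) :
    ({p.1, p.2.1, p.2.2} : Finset V) ∈
      ((univ : Finset V).powersetCard 3).filter (fun s => ¬ G.HitSet s) := by
  obtain ⟨h, h1, h2, h3⟩ := hp
  rw [mem_filter, mem_powersetCard]
  exact ⟨⟨subset_univ _, card_eq_three.2 ⟨_, _, _, h1, h2, h3, rfl⟩⟩,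
    fun h' => h ((G.hitSet_iff _ _ _ h1 h2 h3).1 h')⟩

private lemma cnt_fibre (G : OG V) {a b c : V} (hab : a ≠ b) (hac : a ≠ c) (hbc : b ≠ c)
    (hn : ¬ G.HitSet {a, b, c}) :
    (((univ : Finset (V × V × V)).filter (fun p => ¬ G.hit p.1 p.2.1 p.2.2 ∧ p.1 ≠ p.2.1 ∧
      p.1 ≠ p.2.2 ∧ p.2.1 ≠ p.2.2)).filter
        (fun p => ({p.1, p.2.1, p.2.2} : Finset V) = {a, b, c})).card = 6 := by
  have e1 : ({a, c, b} : Finset V) = {a, b, c} := by
    ext x; simp only [mem_insert, mem_singleton]; tauto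
  have e2 : ({b, a, c} : Finset V) = {a, b, c} := by
    ext x; simp only [mem_insert, mem_singleton]; tauto
  have e3 : ({b, c, a} : Finset V) = {a, b, c} := by
    ext x; simp only [mem_insert, mem_singleton]; tauto
  have e4 : ({c, a, b} : Finset V) = {a, b, c} := by
    ext x; simp only [mem_insert, mem_singleton]; tauto
  have e5 : ({c, b, a} : Finset V) = {a, b, c} := by
    ext x; simp only [mem_insert, mem_singleton]; tauto
  have n0 : ¬ G.hit a b c := fun h => hn ((G.hitSet_iff a b c hab hac hbc).2 h)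
  have n1 : ¬ G.hit a c b := fun h => hn (e1 ▸ (G.hitSet_iff a c b hac hab hbc.symm).2 h)
  have n2 : ¬ G.hit b a c := fun h => hn (e2 ▸ (G.hitSet_iff b a c hab.symm hbc hac).2 h)
  have n3 : ¬ G.hit b c a := fun h => hn (e3 ▸ (G.hitSet_iff b c a hbc hab.symm hac.symm).2 h)
  have n4 : ¬ G.hit c a b := fun h => hn (e4 ▸ (G.hitSet_iff c a b hac.symm hbc.symm hab).2 h)
  have n5 : ¬ G.hit c b a := fun h => hn (e5 ▸ (G.hitSet_iff c b a hbc.symm hac.symm hab.symm).2 h)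
  have hset : (((univ : Finset (V × V × V)).filter (fun p => ¬ G.hit p.1 p.2.1 p.2.2 ∧
      p.1 ≠ p.2.1 ∧ p.1 ≠ p.2.2 ∧ p.2.1 ≠ p.2.2)).filter
        (fun p => ({p.1, p.2.1, p.2.2} : Finset V) = {a, b, c})) =
      ({(a, b, c), (a, c, b), (b, a, c), (b, c, a), (c, a, b), (c, b, a)} :
          Finset (V × V × V)) := by
    ext p
    obtain ⟨x, y, z⟩ := p
    rw [mem_filter, mem_filter]
    simp only [mem_univ, true_and, mem_insert, mem_singleton, Prod.mk.injEq]
    constructor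
    · rintro ⟨⟨-, hxy, hxz, hyz⟩, he⟩
      have hx : x ∈ ({a, b, c} : Finset V) := by rw [← he]; simp
      have hy : y ∈ ({a, b, c} : Finset V) := by rw [← he]; simp
      have hz : z ∈ ({a, b, c} : Finset V) := by rw [← he]; simp
      simp only [mem_insert, mem_singleton] at hx hy hz
      rcases hx with rfl | rfl | rfl <;> rcases hy with rfl | rfl | rfl <;>
        rcases hz with rfl | rfl | rfl <;> simp_all
    · rintro (⟨rfl, rfl, rfl⟩ | ⟨rfl, rfl, rfl⟩ | ⟨rfl, rfl, rfl⟩ | ⟨rfl, rfl, rfl⟩ |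
        ⟨rfl, rfl, rfl⟩ | ⟨rfl, rfl, rfl⟩)
      · exact ⟨⟨n0, hab, hac, hbc⟩, rfl⟩
      · exact ⟨⟨n1, hac, hab, hbc.symm⟩, e1⟩
      · exact ⟨⟨n2, hab.symm, hbc, hac⟩, e2⟩
      · exact ⟨⟨n3, hbc, hab.symm, hac.symm⟩, e3⟩
      · exact ⟨⟨n4, hac.symm, hbc.symm, hab⟩, e4⟩
      · exact ⟨⟨n5, hbc.symm, hac.symm, hab.symm⟩, e5⟩
  rw [hset]
  have hba := hab.symm
  have hca := hac.symm
  have hcb := hbc.symm
  rw [card_insert_of_notMem, card_insert_of_notMem, card_insert_of_notMem,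
    card_insert_of_notMem, card_insert_of_notMem, card_singleton] <;>
  simp only [mem_insert, mem_singleton, Prod.mk.injEq, not_or] <;> tauto

private lemma cnt_six (G : OG V) :
    ((univ : Finset (V × V × V)).filter (fun p => ¬ G.hit p.1 p.2.1 p.2.2 ∧ p.1 ≠ p.2.1 ∧
      p.1 ≠ p.2.2 ∧ p.2.1 ≠ p.2.2)).card = fe G * 6 := by
  rw [card_eq_sum_card_fiberwise (f := fun p : V × V × V => ({p.1, p.2.1, p.2.2} : Finset V))
    (t := ((univ : Finset V).powersetCard 3).filter (fun s => ¬ G.HitSet s))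
    (fun p hp => cnt_maps G (mem_filter.1 hp).2)]
  unfold fe
  refine sum_const_nat fun s hs => ?_
  rw [mem_filter, mem_powersetCard] at hs
  obtain ⟨⟨-, hcard⟩, hn⟩ := hs
  obtain ⟨a, b, c, hab, hac, hbc, rfl⟩ := Finset.card_eq_three.1 hcard
  exact cnt_fibre G hab hac hbc hn

private lemma cnt_two (G : OG V) (a c : V) : (¬ G.hit a a c ↔ G.A a c) ∧
    (¬ G.hit a c a ↔ G.A a c) ∧ (¬ G.hit c a a ↔ G.A a c) := by
  have h1 := G.A_irrefl a
  have h2 := G.asymm a c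
  unfold OG.hit OG.adj
  tauto

private lemma cnt_split (G : OG V) :
    ((univ : Finset (V × V × V)).filter (fun p => ¬ G.hit p.1 p.2.1 p.2.2)).card =
      ((univ : Finset (V × V × V)).filter (fun p => ¬ G.hit p.1 p.2.1 p.2.2 ∧ p.1 ≠ p.2.1 ∧
      p.1 ≠ p.2.2 ∧ p.2.1 ≠ p.2.2)).card +
      (((univ : Finset (V × V × V)).filter
        (fun p => ¬ G.hit p.1 p.2.1 p.2.2 ∧ p.1 = p.2.1)).card +
      ((univ : Finset (V × V × V)).filter
        (fun p => ¬ G.hit p.1 p.2.1 p.2.2 ∧ p.1 = p.2.2)).card +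
      ((univ : Finset (V × V × V)).filter
        (fun p => ¬ G.hit p.1 p.2.1 p.2.2 ∧ p.2.1 = p.2.2)).card) := by
  rw [card_filter, card_filter, card_filter, card_filter, card_filter, ← sum_add_distrib,
    ← sum_add_distrib, ← sum_add_distrib]
  refine sum_congr rfl fun p _ => ?_
  obtain ⟨a, b, c⟩ := p
  simp only
  by_cases hh : G.hit a b c
  · simp [hh]
  · by_cases hab : a = b
    · subst hab
      have h1 : a ≠ c := by
        rintro rfl
        exact G.A_irrefl a ((cnt_two G a a).1.1 hh)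
      simp [hh, h1]
    · by_cases hac : a = c
      · subst hac
        have h1 : b ≠ a := fun h => hab h.symm
        simp [hh, hab, h1]
      · by_cases hbc : b = c
        · subst hbc
          simp [hh, hab]
        · simp [hh, hab, hac, hbc]

private lemma cnt_na1 (G : OG V) : ((univ : Finset (V × V × V)).filter
    (fun p => ¬ G.hit p.1 p.2.1 p.2.2 ∧ p.1 = p.2.1)).card = na G := by
  unfold na
  symm
  refine card_bij (fun p _ => (p.1, p.1, p.2)) ?_ ?_ ?_
  · rintro ⟨a, c⟩ h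
    rw [mem_filter] at h ⊢
    exact ⟨mem_univ _, (cnt_two G a c).1.2 h.2, rfl⟩
  · rintro ⟨a, c⟩ _ ⟨a', c'⟩ _ h
    simp only [Prod.mk.injEq] at h ⊢
    exact ⟨h.1, h.2.2⟩
  · rintro ⟨a, b, c⟩ h
    rw [mem_filter] at h
    obtain ⟨-, h1, h2⟩ := h
    simp only at h1 h2
    subst h2
    exact ⟨(a, c), mem_filter.2 ⟨mem_univ _, (cnt_two G a c).1.1 h1⟩, rfl⟩

private lemma cnt_na2 (G : OG V) : ((univ : Finset (V × V × V)).filter
    (fun p => ¬ G.hit p.1 p.2.1 p.2.2 ∧ p.1 = p.2.2)).card = na G := by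
  unfold na
  symm
  refine card_bij (fun p _ => (p.1, p.2, p.1)) ?_ ?_ ?_
  · rintro ⟨a, c⟩ h
    rw [mem_filter] at h ⊢
    exact ⟨mem_univ _, (cnt_two G a c).2.1.2 h.2, rfl⟩
  · rintro ⟨a, c⟩ _ ⟨a', c'⟩ _ h
    simp only [Prod.mk.injEq] at h ⊢
    exact ⟨h.1, h.2.1⟩
  · rintro ⟨a, b, c⟩ h
    rw [mem_filter] at h
    obtain ⟨-, h1, h2⟩ := h
    simp only at h1 h2
    subst h2
    exact ⟨(a, b), mem_filter.2 ⟨mem_univ _, (cnt_two G a b).2.1.1 h1⟩, rfl⟩

private lemma cnt_na3 (G : OG V) : ((univ : Finset (V × V × V)).filter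
    (fun p => ¬ G.hit p.1 p.2.1 p.2.2 ∧ p.2.1 = p.2.2)).card = na G := by
  unfold na
  symm
  refine card_bij (fun p _ => (p.2, p.1, p.1)) ?_ ?_ ?_
  · rintro ⟨a, c⟩ h
    rw [mem_filter] at h ⊢
    exact ⟨mem_univ _, (cnt_two G a c).2.2.2 h.2, rfl⟩
  · rintro ⟨a, c⟩ _ ⟨a', c'⟩ _ h
    simp only [Prod.mk.injEq] at h ⊢
    exact ⟨h.2.1, h.1⟩
  · rintro ⟨c, a, b⟩ h
    rw [mem_filter] at h
    obtain ⟨-, h1, h2⟩ := h
    simp only at h1 h2
    subst h2
    exact ⟨(a, c), mem_filter.2 ⟨mem_univ _, (cnt_two G a c).2.2.1 h1⟩, rfl⟩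

theorem cnt (G : OG V) (h0 : 0 < Fintype.card V) :
    (Fintype.card V : ℝ) ^ 3 * (1 - G.dd (uw V)) = 6 * (fe G : ℝ) + 3 * (na G : ℝ) := by
  have hn : (0 : ℝ) < Fintype.card V := by exact_mod_cast h0
  have hdd : G.dd (uw V) =
      (((univ : Finset (V × V × V)).filter (fun p => G.hit p.1 p.2.1 p.2.2)).card : ℝ) /
        (Fintype.card V : ℝ) ^ 3 := by
    have e1 : (((univ : Finset (V × V × V)).filter (fun p => G.hit p.1 p.2.1 p.2.2)).card : ℝ) =
        ∑ v, ∑ a, ∑ b, G.hh v a b := by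
      rw [card_filter]
      push_cast
      rw [Fintype.sum_prod_type]
      refine sum_congr rfl (fun v _ => ?_)
      rw [Fintype.sum_prod_type]
      refine sum_congr rfl (fun a _ => sum_congr rfl (fun b _ => ?_))
      unfold OG.hh
      rfl
    rw [e1]
    unfold OG.dd OG.ee uw
    simp only [← mul_sum]
    field_simp
  have hsum : ((univ : Finset (V × V × V)).filter (fun p => G.hit p.1 p.2.1 p.2.2)).card +
      ((univ : Finset (V × V × V)).filter (fun p => ¬ G.hit p.1 p.2.1 p.2.2)).card =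
      (Fintype.card V) ^ 3 := by
    rw [card_filter_add_card_filter_not, card_univ, Fintype.card_prod, Fintype.card_prod]
    ring
  rw [cnt_split, cnt_six, cnt_na1, cnt_na2, cnt_na3] at hsum
  have hsum' : (((univ : Finset (V × V × V)).filter (fun p => G.hit p.1 p.2.1 p.2.2)).card : ℝ) +
      ((fe G : ℝ) * 6 + ((na G : ℝ) + na G + na G)) = (Fintype.card V : ℝ) ^ 3 := by
    exact_mod_cast hsum
  rw [hdd]
  have h3 : (Fintype.card V : ℝ) ^ 3 ≠ 0 := by positivity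
  rw [mul_sub, mul_one, mul_div_cancel₀ _ h3]
  linarith

end FDX
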