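import Pool.Agent.FDF.B3
import Pool.Agent.FDF.Four
import Pool.Agent.FDF.ResDefs

/-!
# FDX: the exact Turan number of Fon-der-Flaass 3-graphs (helper84), definitions

Continues the project FDF (`Pool/Agent/FDF`, helper3). Paper proof: `/team-store/fdx_proof.md`.
-/

namespace FDX

open Finset FDF
open scoped BigOperators Classical

variable {V : Type} [Fintype V]

/-- uniform weights -/
noncomputable def uw (V : Type) [Fintype V] : V → ℝ := fun _ => 1 / (Fintype.card V : ℝ)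

/-- number of edges of the 3-graph (3-sets which are not hit) -/
noncomputable def fe (G : OG V) : ℕ :=
  (((univ : Finset V).powersetCard 3).filter (fun s => ¬ G.HitSet s)).card

/-- number of arcs -/
noncomputable def na (G : OG V) : ℕ := ((univ : Finset (V × V)).filter (fun p => G.A p.1 p.2)).card

/-- outdegree -/
noncomputable def od (G : OG V) (v : V) : ℕ := ((univ : Finset V).filter (fun u => G.A v u)).card

/-- size of the part `j` -/
noncomputable def cp (f : V → Fin 3) (j : Fin 3) : ℕ := ((univ : Finset V).filter (fun v => f v = j)).card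

/-- Turan's number: the number of edges of Turan's 3-graph on `n` vertices -/
def turan (n : ℕ) : ℕ :=
  (n / 3) * ((n + 1) / 3) * ((n + 2) / 3) + (n / 3).choose 2 * ((n + 1) / 3) +
    ((n + 1) / 3).choose 2 * ((n + 2) / 3) + ((n + 2) / 3).choose 2 * (n / 3)

/-- a constant depending on the residue of `n` modulo 3 -/
noncomputable def cc (r : ℕ) : ℝ := if r = 0 then 0 else if r = 1 then 10 / 9 else 8 / 9

/-- `Σ μ (μ - 1)`, `μ = outdegree - q` -/
noncomputable def SM (G : OG V) (q : ℕ) : ℝ := ∑ v, ((od G v : ℝ) - q) * ((od G v : ℝ) - q - 1)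

/-- `Phi = dd - 4/9 - 3 E2` -/
noncomputable def Phi (G : OG V) (w : V → ℝ) : ℝ := G.N2 w - G.gam w / 3 + 2 / 3 * G.T1 w

/-- `Σ Y (Y - 1) (Y - 2)`, `Y j = (size of the part j) - q` -/
noncomputable def YY (f : V → Fin 3) (q : ℕ) : ℝ :=
  ∑ j, ((cp f j : ℝ) - q) * ((cp f j : ℝ) - q - 1) * ((cp f j : ℝ) - q - 2)

/-- the product of the deviations of the parts -/
noncomputable def xxx (w : V → ℝ) (f : V → Fin 3) : ℝ :=
  (pp w f 0 - 1 / 3) * (pp w f 1 - 1 / 3) * (pp w f 2 - 1 / 3)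

/-- the auxiliary number `L`, `L² = 3 E2 + 10⁻¹⁵` -/
noncomputable def LL (G : OG V) (w : V → ℝ) : ℝ := Real.sqrt (3 * G.E2 w + 1 / 10 ^ 15)

/-- nearly optimal weighted orgraph -/
structure Near (G : OG V) (w : V → ℝ) : Prop where
  c4 : G.NoC4
  pos : ∀ v, 0 < w v
  sum : ∑ v, w v = 1
  phi : Phi G w + 3 * G.E2 w ≤ 1 / 10 ^ 15
  ee : ∀ v, G.ee w v ≤ 4 / 9 + 1 / 10 ^ 15

/-- standing data after the choice of the optimal partition -/
structure PartX (G : OG V) (w : V → ℝ) (f : V → Fin 3) : Prop where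
  near : Near G w
  min : ∀ f' : V → Fin 3, G.Btot w f ≤ G.Btot w f'
  small : G.Btot w f ≤ 1 / 100 + 1 / 10 ^ 8 - 10 * LL G w ^ 2
  c1 : G.gam w + 7 * G.T1 w ≤ 126 / 10000 + 1 / 10 ^ 10

/-- labelled parts: `C` is the small part -/
structure LabX (G : OG V) (w : V → ℝ) (f : V → Fin 3) (iA iB iC : Fin 3) (m : ℝ) : Prop where
  ab : iA ≠ iB
  ac : iA ≠ iC
  bc : iB ≠ iC
  hA : 1 / 3 - 1 / 10 ^ 12 ≤ pp w f iA
  hB : 1 / 3 - 1 / 10 ^ 12 ≤ pp w f iB
  hC : pp w f iC = 1 / 3 - m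
  sum : (pp w f iA - 1 / 3) + (pp w f iB - 1 / 3) = m
  m0 : 0 < m
  abs1 : LL G w ^ 2 + 435 / 1000 * G.Btot w f ≤ 5779 / 10 ^ 7
  abs2 : 3 / 2 * m ^ 2 ≤ 126 / 10000 + 1 / 10 ^ 9

/-- certificate C1 with a small error -/
def StC1X : Prop := ∀ (V : Type) [Fintype V] (G : OG V) (w : V → ℝ), G.NoC4 → (∀ v, 0 ≤ w v) →
  ∑ v, w v = 1 → (∀ v, G.ee w v ≤ 4 / 9 + 1 / 10 ^ 15) →
    G.gam w + 7 * G.T1 w ≤ 126 / 10000 + 1 / 10 ^ 10

/-- certificate C2 with a small error -/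
def StC2X : Prop := ∀ (V : Type) [Fintype V] (G : OG V) (w : V → ℝ), G.NoC4 → (∀ v, 0 ≤ w v) →
  ∑ v, w v = 1 → (∀ v, G.ee w v ≤ 4 / 9 + 1 / 10 ^ 15) →
    G.Bad5 w + 20 / 3 * G.E2 w ≤ 1 / 100 * G.T0 w + 1 / 10 ^ 10

end FDX
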