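import Pool.Agent.FDX.Defs
/-! FDX-Low. Turan's construction has exactly Turan's number of edges (only `≥` is needed): the cyclically oriented balanced complete
3-partite orgraph; the edges are injectively counted by transversals and by pairs in a class together with a vertex of the previous class. -/
namespace FDX
open Finset FDF FDF.Res
open scoped BigOperators Classical

/-- The orgraph of Turan's construction (reversed orientation). -/
private def lowA (n : ℕ) : Fin n → Fin n → Prop := fun u v => (u : ℕ) % 3 = ((v : ℕ) + 1) % 3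

private theorem low_mem {n : ℕ} {u v w : Fin n} (huv : u ≠ v) (huw : u ≠ w) (hvw : v ≠ w)
    (h : ((v : ℕ) % 3 = ((u : ℕ) + 1) % 3 ∧ (w : ℕ) % 3 = ((v : ℕ) + 1) % 3) ∨
      ((v : ℕ) % 3 = (u : ℕ) % 3 ∧ (w : ℕ) % 3 = ((u : ℕ) + 2) % 3)) :
    ({u, v, w} : Finset (Fin n)) ∈ fdf (lowA n) := by
  unfold fdf
  rw [mem_filter, mem_powersetCard]
  refine ⟨⟨subset_univ _, card_eq_three.mpr ⟨u, v, w, huv, huw, hvw, rfl⟩⟩, ?_⟩
  have hu : u ∈ ({u, v, w} : Finset (Fin n)) := by simp
  have hv : v ∈ ({u, v, w} : Finset (Fin n)) := by simp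
  have hw : w ∈ ({u, v, w} : Finset (Fin n)) := by simp
  rintro ⟨x, hx, h1⟩
  simp only [mem_insert, mem_singleton] at hx
  unfold lowA at h1
  rcases hx with rfl | rfl | rfl
  · rcases h1 with h1 | h1
    · have h2 := (h1 v hv huv.symm).1
      have h3 := (h1 w hw huw.symm).1
      omega
    · have h2 := h1 v hv huv.symm
      have h3 := h1 w hw huw.symm
      omega
  · rcases h1 with h1 | h1
    · have h2 := (h1 u hu huv).1
      have h3 := (h1 w hw hvw.symm).1
      omega
    · have h2 := h1 u hu huv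
      have h3 := h1 w hw hvw.symm
      omega
  · rcases h1 with h1 | h1
    · have h2 := h1 u hu huw
      have h3 := h1 v hv hvw
      omega
    · have h2 := h1 u hu huw
      have h3 := h1 v hv hvw
      omega

theorem low (n : ℕ) : ∃ A : Fin n → Fin n → Prop, IsOrgraph A ∧ NoInducedC4 A ∧ turan n ≤ (fdf A).card := by
  refine ⟨lowA n, ?_, ?_, ?_⟩
  · intro u v h1 h2
    unfold lowA at h1 h2
    omega
  · rintro ⟨a, b, c, d, h1, h2, h3, h4, h5, h6, h7, h8⟩
    unfold lowA at h1 h2 h3 h4 h5 h6 h7 h8
    omega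
  rcases Nat.eq_zero_or_pos n with rfl | hn
  · simp [turan]
  let s : ℕ → ℕ := fun i => (n + 2 - i) / 3
  have hs : ∀ i j, i < 3 → j < s i → 3 * j + i < n := by
    intro i j hi hj
    change j < (n + 2 - i) / 3 at hj
    omega
  let g : ℕ → Fin n := fun x => ⟨x % n, Nat.mod_lt _ hn⟩
  have hg : ∀ x, x < n → ((g x : Fin n) : ℕ) = x := fun x hx => Nat.mod_eq_of_lt hx
  let f : ((ℕ × ℕ) × ℕ) ⊕ (Σ _ : ℕ, ℕ × (Σ _ : ℕ, ℕ)) → Finset (Fin n) := fun p =>
    match p with
    | Sum.inl q => {g (3 * q.1.1), g (3 * q.1.2 + 1), g (3 * q.2 + 2)}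
    | Sum.inr q => {g (3 * q.2.2.1 + q.1), g (3 * q.2.2.2 + q.1), g (3 * q.2.1 + (q.1 + 2) % 3)}
  let D : Finset (((ℕ × ℕ) × ℕ) ⊕ (Σ _ : ℕ, ℕ × (Σ _ : ℕ, ℕ))) :=
    ((range (s 0) ×ˢ range (s 1)) ×ˢ range (s 2)).disjSum
      ((range 3).sigma fun i => (range (s ((i + 2) % 3))) ×ˢ ((range (s i)).sigma fun b => range b))
  have hne : ∀ x y, x < n → y < n → x ≠ y → g x ≠ g y := by
    intro x y hx hy hxy h1
    apply hxy
    rw [← hg x hx, ← hg y hy, h1]
  have hinl : ∀ a b c, (Sum.inl ((a, b), c) : ((ℕ × ℕ) × ℕ) ⊕ (Σ _ : ℕ, ℕ × (Σ _ : ℕ, ℕ))) ∈ D →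
      3 * a < n ∧ 3 * b + 1 < n ∧ 3 * c + 2 < n := by
    intro a b c hp
    simp only [D, inl_mem_disjSum, mem_product, mem_range] at hp
    have h1 := hs 0 a (by omega) hp.1.1
    have h2 := hs 1 b (by omega) hp.1.2
    have h3 := hs 2 c (by omega) hp.2
    exact ⟨by omega, h2, h3⟩
  have hinr : ∀ i c b a, (Sum.inr ⟨i, c, b, a⟩ : ((ℕ × ℕ) × ℕ) ⊕ (Σ _ : ℕ, ℕ × (Σ _ : ℕ, ℕ))) ∈ D →
      i < 3 ∧ a < b ∧ 3 * b + i < n ∧ 3 * a + i < n ∧ 3 * c + (i + 2) % 3 < n := by
    intro i c b a hp
    simp only [D, inr_mem_disjSum, mem_product, mem_range, mem_sigma] at hp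
    have h1 := hs ((i + 2) % 3) c (Nat.mod_lt _ (by omega)) hp.2.1
    have h2 := hs i b hp.1 hp.2.2.1
    exact ⟨hp.1, hp.2.2.2, h2, by omega, h1⟩
  have hcard : D.card ≤ (fdf (lowA n)).card := by
    refine card_le_card_of_injOn f ?_ ?_
    · intro p hp
      rcases p with ⟨⟨a, b⟩, c⟩ | ⟨i, c, b, a⟩
      · have hp' := hinl a b c (mem_coe.mp hp)
        change ({g (3 * a), g (3 * b + 1), g (3 * c + 2)} : Finset (Fin n)) ∈ fdf (lowA n)
        refine low_mem (hne _ _ (by omega) (by omega) (by omega))
          (hne _ _ (by omega) (by omega) (by omega)) (hne _ _ (by omega) (by omega) (by omega)) ?_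
        rw [hg _ (by omega), hg _ (by omega), hg _ (by omega)]
        omega
      · have hp' := hinr i c b a (mem_coe.mp hp)
        change ({g (3 * b + i), g (3 * a + i), g (3 * c + (i + 2) % 3)} : Finset (Fin n)) ∈
          fdf (lowA n)
        refine low_mem (hne _ _ (by omega) (by omega) (by omega))
          (hne _ _ (by omega) (by omega) (by omega)) (hne _ _ (by omega) (by omega) (by omega)) ?_
        rw [hg _ (by omega), hg _ (by omega), hg _ (by omega)]
        omega
    · -- injectivity
      have key : ∀ x y z x' y' z' : ℕ, x < n → y < n → z < n → x' < n → y' < n → z' < n →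
          ({g x, g y, g z} : Finset (Fin n)) = {g x', g y', g z'} →
          (x = x' ∨ x = y' ∨ x = z') ∧ (y = x' ∨ y = y' ∨ y = z') ∧
            (z = x' ∨ z = y' ∨ z = z') := by
        intro x y z x' y' z' hx hy hz hx' hy' hz' h1
        have h2 : ∀ w, w < n → g w ∈ ({g x, g y, g z} : Finset (Fin n)) →
            (w = x' ∨ w = y' ∨ w = z') := by
          intro w hw h3
          rw [h1] at h3
          simp only [mem_insert, mem_singleton] at h3
          rcases h3 with h3 | h3 | h3
          · left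
            rw [← hg w hw, h3, hg x' hx']
          · right; left
            rw [← hg w hw, h3, hg y' hy']
          · right; right
            rw [← hg w hw, h3, hg z' hz']
        exact ⟨h2 x hx (by simp), h2 y hy (by simp), h2 z hz (by simp)⟩
      intro p hp q hq hpq
      rcases p with ⟨⟨a, b⟩, c⟩ | ⟨i, c, b, a⟩ <;>
        rcases q with ⟨⟨a', b'⟩, c'⟩ | ⟨i', c', b', a'⟩
      · have hp' := hinl a b c (mem_coe.mp hp)
        have hq' := hinl a' b' c' (mem_coe.mp hq)
        have h1 := key (3 * a) (3 * b + 1) (3 * c + 2) (3 * a') (3 * b' + 1) (3 * c' + 2)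
          (by omega) (by omega) (by omega) (by omega) (by omega) (by omega) hpq
        have e1 : a = a' := by omega
        have e2 : b = b' := by omega
        have e3 : c = c' := by omega
        rw [e1, e2, e3]
      · exfalso
        have hp' := hinl a b c (mem_coe.mp hp)
        have hq' := hinr i' c' b' a' (mem_coe.mp hq)
        have h1 := key (3 * a) (3 * b + 1) (3 * c + 2) (3 * b' + i') (3 * a' + i')
          (3 * c' + (i' + 2) % 3)
          (by omega) (by omega) (by omega) (by omega) (by omega) (by omega) hpq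
        omega
      · exfalso
        have hp' := hinr i c b a (mem_coe.mp hp)
        have hq' := hinl a' b' c' (mem_coe.mp hq)
        have h1 := key (3 * a') (3 * b' + 1) (3 * c' + 2) (3 * b + i) (3 * a + i)
          (3 * c + (i + 2) % 3)
          (by omega) (by omega) (by omega) (by omega) (by omega) (by omega) hpq.symm
        omega
      · have hp' := hinr i c b a (mem_coe.mp hp)
        have hq' := hinr i' c' b' a' (mem_coe.mp hq)
        have h1 := key (3 * b + i) (3 * a + i) (3 * c + (i + 2) % 3) (3 * b' + i') (3 * a' + i')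
          (3 * c' + (i' + 2) % 3)
          (by omega) (by omega) (by omega) (by omega) (by omega) (by omega) hpq
        have h2 := key (3 * b' + i') (3 * a' + i') (3 * c' + (i' + 2) % 3) (3 * b + i) (3 * a + i)
          (3 * c + (i + 2) % 3)
          (by omega) (by omega) (by omega) (by omega) (by omega) (by omega) hpq.symm
        have e0 : i = i' := by omega
        subst e0
        have e1 : a = a' := by omega
        have e2 : b = b' := by omega
        have e3 : c = c' := by omega
        rw [e1, e2, e3]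
  have hC : ∀ m, (∑ b ∈ range m, (range b).card) = m.choose 2 := by
    intro m
    simp only [card_range]
    rw [Finset.sum_range_id, Nat.choose_two_right]
  have hD : D.card = s 0 * s 1 * s 2 + (s 2 * (s 0).choose 2 + s 0 * (s 1).choose 2 +
      s 1 * (s 2).choose 2) := by
    simp only [D, card_disjSum, card_product, card_range, card_sigma]
    rw [Finset.sum_range_succ, Finset.sum_range_succ, Finset.sum_range_succ, Finset.sum_range_zero,
      Finset.sum_range_id, Finset.sum_range_id, Finset.sum_range_id, ← Nat.choose_two_right,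
      ← Nat.choose_two_right, ← Nat.choose_two_right, Nat.zero_add]
  have h0 : s 0 = (n + 2) / 3 := rfl
  have h1 : s 1 = (n + 1) / 3 := rfl
  have h2 : s 2 = n / 3 := rfl
  rw [h0, h1, h2] at hD
  refine le_trans (le_of_eq ?_) hcard
  rw [hD]
  unfold turan
  ring

end FDX
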