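import Pool.Agent.FDF.ResDefs

/-!
# The exact Turan number of Fon-der-Flaass 3-graphs: further definitions used in the hand-in (helper84)
-/

namespace FDX.Res

open scoped Classical

/-- The number of arcs. -/
noncomputable def arcs {n : ℕ} (A : Fin n → Fin n → Prop) : ℕ :=
  ((Finset.univ : Finset (Fin n × Fin n)).filter fun p => A p.1 p.2).card

/-- The number of edges of Turan's 3-graph on `n` vertices: three classes `V0, V1, V2` of sizes
`⌊n/3⌋, ⌊(n+1)/3⌋, ⌊(n+2)/3⌋`, the edges are the transversals and the triples with two vertices in `V i` and one in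
`V (i+1)`. -/
def turan (n : ℕ) : ℕ :=
  (n / 3) * ((n + 1) / 3) * ((n + 2) / 3) + (n / 3).choose 2 * ((n + 1) / 3) +
    ((n + 1) / 3).choose 2 * ((n + 2) / 3) + ((n + 2) / 3).choose 2 * (n / 3)

end FDX.Res
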