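import Pool.Agent.FDX.Main
import Pool.Agent.FDX.Low
import Pool.Agent.FDX.ResDefs
import Pool.Agent.FDF.Fin4
/-! FDX: the final theorems (helper84) -/
namespace FDX.Res
open Finset Filter FDF FDF.Res
open scoped BigOperators Classical Topology

private lemma turan_eq (n : ℕ) : turan n = FDX.turan n := rfl

private lemma fe_eq {n : ℕ} (A : Fin n → Fin n → Prop) (h : IsOrgraph A) : fe (toOG A h) = (fdf A).card := by
  rw [fdf_eq A h]; rfl

private lemma na_eq' {n : ℕ} (A : Fin n → Fin n → Prop) (h : IsOrgraph A) : na (toOG A h) = arcs A := by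
  unfold na arcs toOG
  congr 1

/-- the sharp inequality -/
theorem upper_arcs {n : ℕ} (A : Fin n → Fin n → Prop) (h : IsOrgraph A) (h4 : NoInducedC4 A) :
    54 * (fdf A).card + 27 * arcs A ≤ 5 * n ^ 3 := by
  have := sharp (toOG A h) (toOG_noC4 A h h4)
  rw [Fintype.card_fin, fe_eq, na_eq'] at this
  exact this

/-- the upper bound -/
theorem le_turan {n : ℕ} (hN : 10 ^ 16 ≤ n) (A : Fin n → Fin n → Prop) (h : IsOrgraph A) (h4 : NoInducedC4 A) :
    (fdf A).card ≤ turan n := by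
  have := main (toOG A h) (toOG_noC4 A h h4) (by rw [Fintype.card_fin]; exact hN)
  rw [Fintype.card_fin, fe_eq] at this
  exact this

/-- the exact Turan number -/
theorem exact {n : ℕ} (hN : 10 ^ 16 ≤ n) : exFDF n = turan n := by
  obtain ⟨A0, a1, a2, a3⟩ := low n
  have hb : BddAbove {k | ∃ A : Fin n → Fin n → Prop, IsOrgraph A ∧ NoInducedC4 A ∧ k = (fdf A).card} := by
    refine ⟨turan n, ?_⟩
    rintro k ⟨A, h1, h2, rfl⟩
    exact le_turan hN A h1 h2
  apply le_antisymm
  · refine csSup_le ⟨_, A0, a1, a2, rfl⟩ ?_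
    rintro k ⟨A, h1, h2, rfl⟩
    exact le_turan hN A h1 h2
  · exact a3.trans (le_csSup hb ⟨A0, a1, a2, rfl⟩)

/-- the structure of the extremal orgraphs -/
theorem extremal {n : ℕ} (hN : 10 ^ 16 ≤ n) (A : Fin n → Fin n → Prop) (h : IsOrgraph A) (h4 : NoInducedC4 A)
    (hA : (fdf A).card = turan n) : ∃ f : Fin n → Fin 3, ∀ u v, (A u v ∨ A v u) ↔ f u ≠ f v := by
  refine struct (toOG A h) (toOG_noC4 A h h4) (by rw [Fintype.card_fin]; exact hN) ?_
  rw [Fintype.card_fin, fe_eq, hA]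
  exact le_rfl

end FDX.Res
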