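import Pool.Agent.FDX.Cnt
import Pool.Agent.FDF.IdD
/-! FDX-Ident. PLAN (n = card V = 3 q + r, w = 1/n). `oo v = od v / n` (`oo_eq`), `na = ∑ od` (`na_eq`), `oo_sum` (FDF/IdD): `∑ w (oo - 1/3) = - gam/2`, so
`∑ od = n²/3 - n² gam/2` (`od_sum`). `E2 = ∑ (od/n - 1/3)²/n` (`E2_eq`). `ident`: `cnt`, `dd_eq` (dd = 4/9 + Phi + 3 E2):
`6 fe = 5 n³/9 - n³ Phi - 3 ∑ (od - n/3)² - 3 ∑ od`, `(od - n/3)² = μ(μ-1) + (1 - 2r/3) μ + r²/9` (μ = od - q), `∑ μ = n²/3 - n² gam/2 - n q`,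
`6 turan n = 15q³-9q², 15q³+6q²-3q, 15q³+21q²+6q` for r = 0, 1, 2 (`turan_eq`: `n/3 = q` etc. by omega, `Nat.choose_two_right`, or
`Nat.cast_choose_two`). Then `ring` in each case. All identities checked numerically. -/
namespace FDX
open Finset FDF
open scoped BigOperators Classical
variable {V : Type} [Fintype V]

theorem turan_eq {q r : ℕ} (hr : r < 3) : (6 * turan (3 * q + r) : ℝ) =
    15 * (q : ℝ) ^ 3 + (if r = 0 then - 9 * (q : ℝ) ^ 2 else if r = 1 then 6 * (q : ℝ) ^ 2 - 3 * q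
      else 21 * (q : ℝ) ^ 2 + 6 * q) := by
  have h3 : r = 0 ∨ r = 1 ∨ r = 2 := by omega
  rcases h3 with h | h | h
  · subst h
    have e1 : (3 * q + 0) / 3 = q := by omega
    have e2 : (3 * q + 0 + 1) / 3 = q := by omega
    have e3 : (3 * q + 0 + 2) / 3 = q := by omega
    unfold turan
    rw [e1, e2, e3, if_pos rfl]
    push_cast [Nat.cast_choose_two]
    ring
  · subst h
    have e1 : (3 * q + 1) / 3 = q := by omega
    have e2 : (3 * q + 1 + 1) / 3 = q := by omega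
    have e3 : (3 * q + 1 + 2) / 3 = q + 1 := by omega
    unfold turan
    rw [e1, e2, e3, if_neg one_ne_zero, if_pos rfl]
    push_cast [Nat.cast_choose_two]
    ring
  · subst h
    have e1 : (3 * q + 2) / 3 = q := by omega
    have e2 : (3 * q + 2 + 1) / 3 = q + 1 := by omega
    have e3 : (3 * q + 2 + 2) / 3 = q + 1 := by omega
    unfold turan
    rw [e1, e2, e3, if_neg (by norm_num), if_neg (by norm_num)]
    push_cast [Nat.cast_choose_two]
    ring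

theorem oo_eq (G : OG V) (v : V) : G.oo (uw V) v = (od G v : ℝ) / (Fintype.card V : ℝ) := by
  have h1 : (od G v : ℝ) = ∑ u, G.aa v u := by
    unfold od
    rw [Finset.card_filter]
    push_cast
    refine Finset.sum_congr rfl fun u _ => ?_
    unfold OG.aa
    split_ifs <;> rfl
  rw [h1]
  unfold OG.oo
  rw [Finset.sum_div]
  refine Finset.sum_congr rfl fun u _ => ?_
  unfold uw
  ring

theorem na_eq (G : OG V) : (na G : ℝ) = ∑ v, (od G v : ℝ) := by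
  unfold na od
  have h : ∀ v : V, (((univ : Finset V).filter (fun u => G.A v u)).card : ℝ) =
      ∑ u : V, if G.A v u then (1 : ℝ) else 0 := by
    intro v
    rw [Finset.card_filter]
    push_cast
    rfl
  rw [Finset.card_filter]
  push_cast
  rw [Fintype.sum_prod_type]
  exact Finset.sum_congr rfl fun v _ => (h v).symm

private lemma uw_sum (h0 : 0 < Fintype.card V) : ∑ v, uw V v = 1 := by
  unfold uw
  rw [Finset.sum_const, Finset.card_univ, nsmul_eq_mul]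
  have h : (Fintype.card V : ℝ) ≠ 0 := by exact_mod_cast h0.ne'
  field_simp

theorem od_sum (G : OG V) (h0 : 0 < Fintype.card V) :
    ∑ v, (od G v : ℝ) = (Fintype.card V : ℝ) ^ 2 / 3 - (Fintype.card V : ℝ) ^ 2 * G.gam (uw V) / 2 := by
  have h : (Fintype.card V : ℝ) ≠ 0 := by exact_mod_cast h0.ne'
  have h1 := G.oo_sum (uw V) (uw_sum h0)
  have h2 : ∑ v, uw V v * (G.oo (uw V) v - 1 / 3) =
      (∑ v, (od G v : ℝ)) / (Fintype.card V : ℝ) ^ 2 - 1 / 3 := by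
    have h3 : ∀ v, uw V v * (G.oo (uw V) v - 1 / 3) =
        (od G v : ℝ) / (Fintype.card V : ℝ) ^ 2 - (1 / 3) * uw V v := by
      intro v
      rw [oo_eq]
      unfold uw
      field_simp
    rw [Finset.sum_congr rfl fun v _ => h3 v, Finset.sum_sub_distrib, ← Finset.mul_sum,
      uw_sum h0, ← Finset.sum_div]
    ring
  rw [h2] at h1
  have h4 : (∑ v, (od G v : ℝ)) / (Fintype.card V : ℝ) ^ 2 = 1 / 3 - G.gam (uw V) / 2 := by linarith
  rw [div_eq_iff (pow_ne_zero 2 h)] at h4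
  rw [h4]
  ring

theorem E2_eq (G : OG V) (h0 : 0 < Fintype.card V) : (Fintype.card V : ℝ) ^ 3 * G.E2 (uw V) =
    ∑ v, ((od G v : ℝ) - (Fintype.card V : ℝ) / 3) ^ 2 := by
  have h : (Fintype.card V : ℝ) ≠ 0 := by exact_mod_cast h0.ne'
  unfold OG.E2
  rw [Finset.mul_sum]
  refine Finset.sum_congr rfl fun v _ => ?_
  rw [oo_eq]
  unfold uw
  field_simp

theorem ident (G : OG V) {q r : ℕ} (hn : Fintype.card V = 3 * q + r) (hr : r < 3) (h0 : 0 < Fintype.card V) :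
    6 * ((turan (Fintype.card V) : ℝ) - (fe G : ℝ)) =
      (Fintype.card V : ℝ) ^ 3 * Phi G (uw V) + 3 * SM G q
        - (3 - (r : ℝ)) * ((Fintype.card V : ℝ) ^ 2 * G.gam (uw V)) + cc r := by
  have hc := cnt G h0
  have hd := G.dd_eq (uw V) (uw_sum h0)
  have hE := E2_eq G h0
  have hS := od_sum G h0
  have hA := na_eq G
  have hphi : G.dd (uw V) = 4 / 9 + Phi G (uw V) + 3 * G.E2 (uw V) := hd
  have hT := turan_eq (q := q) (r := r) hr
  rw [← hn] at hT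
  have hnr : (Fintype.card V : ℝ) = 3 * q + r := by rw [hn]; push_cast; ring
  -- the sum of squares
  have hsq : ∑ v, ((od G v : ℝ) - (Fintype.card V : ℝ) / 3) ^ 2 =
      SM G q + (1 - 2 * (r : ℝ) / 3) * (∑ v, (od G v : ℝ) - (Fintype.card V : ℝ) * q) +
        (Fintype.card V : ℝ) * (r : ℝ) ^ 2 / 9 := by
    have h1 : ∀ v, ((od G v : ℝ) - (Fintype.card V : ℝ) / 3) ^ 2 =
        ((od G v : ℝ) - q) * ((od G v : ℝ) - q - 1) + (1 - 2 * (r : ℝ) / 3) * ((od G v : ℝ) - q) +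
          (r : ℝ) ^ 2 / 9 := by
      intro v
      rw [hnr]
      ring
    rw [Finset.sum_congr rfl fun v _ => h1 v, Finset.sum_add_distrib, Finset.sum_add_distrib,
      ← Finset.mul_sum, Finset.sum_sub_distrib, Finset.sum_const, Finset.sum_const,
      Finset.card_univ, nsmul_eq_mul, nsmul_eq_mul]
    unfold SM
    ring
  rw [hsq] at hE
  rw [hA] at hc
  rw [hphi] at hc
  obtain ⟨N, hN⟩ : ∃ N : ℝ, N = (Fintype.card V : ℝ) := ⟨_, rfl⟩
  obtain ⟨S, hSS⟩ : ∃ S : ℝ, S = ∑ v, (od G v : ℝ) := ⟨_, rfl⟩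
  obtain ⟨E, hEE⟩ : ∃ E : ℝ, E = G.E2 (uw V) := ⟨_, rfl⟩
  obtain ⟨P, hP⟩ : ∃ P : ℝ, P = Phi G (uw V) := ⟨_, rfl⟩
  obtain ⟨g, hg⟩ : ∃ g : ℝ, g = G.gam (uw V) := ⟨_, rfl⟩
  obtain ⟨T, hTT⟩ : ∃ T : ℝ, T = (turan (Fintype.card V) : ℝ) := ⟨_, rfl⟩
  obtain ⟨F, hF⟩ : ∃ F : ℝ, F = (fe G : ℝ) := ⟨_, rfl⟩
  obtain ⟨M, hM⟩ : ∃ M : ℝ, M = SM G q := ⟨_, rfl⟩
  rw [← hN] at hc hE hS hnr
  rw [← hSS] at hc hE hS
  rw [← hEE] at hc hE
  rw [← hP] at hc
  rw [← hg] at hS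
  rw [← hTT] at hT
  rw [← hF] at hc
  rw [← hM] at hE
  rw [← hN, ← hP, ← hg, ← hTT, ← hF, ← hM]
  have hF6 : 6 * F = 5 * N ^ 3 / 9 - N ^ 3 * P - 3 * (N ^ 3 * E) - 3 * S := by linarith
  have h3 : r = 0 ∨ r = 1 ∨ r = 2 := by omega
  rcases h3 with h | h | h
  · subst h
    rw [if_pos rfl] at hT
    have hcc : cc 0 = 0 := if_pos rfl
    rw [hcc]
    have hT6 : 6 * T = 15 * (q : ℝ) ^ 3 + - 9 * (q : ℝ) ^ 2 := hT
    rw [mul_sub, hT6, hF6, hE, hS, hnr]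
    push_cast
    ring
  · subst h
    rw [if_neg one_ne_zero, if_pos rfl] at hT
    have hcc : cc 1 = 10 / 9 := by
      unfold cc
      rw [if_neg one_ne_zero, if_pos rfl]
    rw [hcc]
    have hT6 : 6 * T = 15 * (q : ℝ) ^ 3 + (6 * (q : ℝ) ^ 2 - 3 * q) := hT
    rw [mul_sub, hT6, hF6, hE, hS, hnr]
    push_cast
    ring
  · subst h
    rw [if_neg (by norm_num), if_neg (by norm_num)] at hT
    have hcc : cc 2 = 8 / 9 := by
      unfold cc
      rw [if_neg (by norm_num), if_neg (by norm_num)]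
    rw [hcc]
    have hT6 : 6 * T = 15 * (q : ℝ) ^ 3 + (21 * (q : ℝ) ^ 2 + 6 * q) := hT
    rw [mul_sub, hT6, hF6, hE, hS, hnr]
    push_cast
    ring

end FDX
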