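import Pool.Agent.FDX.Ident
import Pool.Agent.FDF.PSum
/-! FDX-Kgen. The main inequality in integers. -/
namespace FDX
open Finset FDF
open scoped BigOperators Classical
variable {V : Type} [Fintype V]

private theorem kgen_sum_uw (h0 : 0 < Fintype.card V) : ∑ v, uw V v = 1 := by
  unfold uw
  rw [Finset.sum_const, Finset.card_univ, nsmul_eq_mul]
  have h : (Fintype.card V : ℝ) ≠ 0 := by
    have : (0 : ℝ) < Fintype.card V := by exact_mod_cast h0
    exact this.ne'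
  field_simp

private theorem kgen_uw_nonneg (v : V) : 0 ≤ uw V v := by
  unfold uw
  positivity

/-- the polynomial identity -/
private theorem kgen_poly {r : ℕ} (hr : r < 3) (a b c q : ℝ) (h : a + b + c = 3 * q + r) :
    3 * ((a - (3 * q + r) / 3) * (b - (3 * q + r) / 3) * (c - (3 * q + r) / 3)) -
      (3 - (r : ℝ)) * ((a - (3 * q + r) / 3) ^ 2 + (b - (3 * q + r) / 3) ^ 2 +
        (c - (3 * q + r) / 3) ^ 2) + cc r =
      (a - q) * (a - q - 1) * (a - q - 2) + (b - q) * (b - q - 1) * (b - q - 2) +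
        (c - q) * (c - q - 1) * (c - q - 2) := by
  have hc : c = 3 * q + r - a - b := by linarith
  subst hc
  interval_cases r
  · have h1 : cc 0 = 0 := by simp [cc]
    rw [h1]
    push_cast
    ring
  · have h1 : cc 1 = 10 / 9 := by simp [cc]
    rw [h1]
    push_cast
    ring
  · have h1 : cc 2 = 8 / 9 := by simp [cc]
    rw [h1]
    push_cast
    ring

theorem pp_eq (f : V → Fin 3) (j : Fin 3) : pp (uw V) f j = (cp f j : ℝ) / (Fintype.card V : ℝ) := by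
  unfold pp cp uw
  rw [← Finset.sum_filter, Finset.sum_const, nsmul_eq_mul, mul_one_div]

theorem cp_sum (f : V → Fin 3) : cp f 0 + cp f 1 + cp f 2 = Fintype.card V := by
  have h := Finset.card_eq_sum_card_fiberwise (s := (univ : Finset V)) (t := (univ : Finset (Fin 3)))
    (f := f) (fun _ _ => Finset.mem_coe.2 (Finset.mem_univ _))
  rw [Fin.sum_univ_three, Finset.card_univ] at h
  exact h.symm

theorem kgen (G : OG V) (f : V → Fin 3) {q r : ℕ} (hn : Fintype.card V = 3 * q + r) (hr : r < 3)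
    (h0 : 0 < Fintype.card V) (R : ℝ) (hR : 3 * xxx (uw V) f + R ≤ Phi G (uw V)) :
    YY f q + (Fintype.card V : ℝ) ^ 3 * R + 3 * SM G q - 3 * (Fintype.card V : ℝ) ^ 2 * G.Btot (uw V) f ≤
      6 * ((turan (Fintype.card V) : ℝ) - (fe G : ℝ)) := by
  have hid := ident G hn hr h0
  have hnR : (Fintype.card V : ℝ) = 3 * q + r := by
    rw [hn]
    push_cast
    ring
  set n : ℝ := (Fintype.card V : ℝ) with hnd
  have hn0 : 0 < n := by
    rw [hnd]
    exact_mod_cast h0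
  have hsum : (cp f 0 : ℝ) + cp f 1 + cp f 2 = 3 * q + r := by
    rw [← hnR, hnd]
    exact_mod_cast cp_sum f
  have hx : n ^ 3 * xxx (uw V) f = ((cp f 0 : ℝ) - n / 3) * ((cp f 1 : ℝ) - n / 3) *
      ((cp f 2 : ℝ) - n / 3) := by
    unfold xxx
    rw [pp_eq, pp_eq, pp_eq, ← hnd]
    field_simp
  have hsq := OG.sum_sq (uw V) f G (kgen_sum_uw h0)
  rw [Fin.sum_univ_three, pp_eq, pp_eq, pp_eq, ← hnd] at hsq
  have hg : n ^ 2 * G.gam (uw V) = (((cp f 0 : ℝ) - n / 3) ^ 2 + ((cp f 1 : ℝ) - n / 3) ^ 2 +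
      ((cp f 2 : ℝ) - n / 3) ^ 2) + n ^ 2 * (G.Bcr (uw V) f - G.Bin (uw V) f) := by
    have h1 : G.gam (uw V) = ((cp f 0 : ℝ) / n - 1 / 3) ^ 2 + ((cp f 1 : ℝ) / n - 1 / 3) ^ 2 +
        ((cp f 2 : ℝ) / n - 1 / 3) ^ 2 + (G.Bcr (uw V) f - G.Bin (uw V) f) := by linarith
    rw [h1]
    field_simp
  have hB0 : 0 ≤ G.Bin (uw V) f :=
    Finset.sum_nonneg fun v _ => mul_nonneg (kgen_uw_nonneg v)
      (OG.bin_nonneg (uw V) f G kgen_uw_nonneg v)
  have hC0 : 0 ≤ G.Bcr (uw V) f :=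
    Finset.sum_nonneg fun v _ => mul_nonneg (kgen_uw_nonneg v)
      (OG.bcr_nonneg (uw V) f G kgen_uw_nonneg v)
  have hBt := OG.Btot_eq (uw V) f G
  have hr3 : (r : ℝ) ≤ 2 := by
    have : r ≤ 2 := by omega
    exact_mod_cast this
  have hr0 : (0 : ℝ) ≤ r := Nat.cast_nonneg r
  have hn2 : 0 ≤ n ^ 2 := sq_nonneg n
  have h1 : (3 - (r : ℝ)) * (n ^ 2 * (G.Bcr (uw V) f - G.Bin (uw V) f)) ≤
      3 * n ^ 2 * G.Btot (uw V) f := by
    rw [hBt]
    have e1 : 0 ≤ n ^ 2 * G.Bcr (uw V) f := mul_nonneg hn2 hC0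
    have e2 : 0 ≤ n ^ 2 * G.Bin (uw V) f := mul_nonneg hn2 hB0
    nlinarith [mul_nonneg hr0 e1, mul_nonneg (by linarith : (0 : ℝ) ≤ 6 - r) e2]
  have h2 := kgen_poly hr (cp f 0 : ℝ) (cp f 1 : ℝ) (cp f 2 : ℝ) (q : ℝ) hsum
  rw [← hnR] at h2
  have h3 : YY f q = ((cp f 0 : ℝ) - q) * ((cp f 0 : ℝ) - q - 1) * ((cp f 0 : ℝ) - q - 2) +
      ((cp f 1 : ℝ) - q) * ((cp f 1 : ℝ) - q - 1) * ((cp f 1 : ℝ) - q - 2) +
      ((cp f 2 : ℝ) - q) * ((cp f 2 : ℝ) - q - 1) * ((cp f 2 : ℝ) - q - 2) := by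
    unfold YY
    rw [Fin.sum_univ_three]
  have h4 : n ^ 3 * (3 * xxx (uw V) f + R) ≤ n ^ 3 * Phi G (uw V) :=
    mul_le_mul_of_nonneg_left hR (by positivity)
  rw [hid, h3, ← h2, hg]
  have h5 : n ^ 3 * (3 * xxx (uw V) f + R) = 3 * (n ^ 3 * xxx (uw V) f) + n ^ 3 * R := by ring
  rw [h5, hx] at h4
  rw [mul_add (3 - (r : ℝ))]
  linarith

end FDX
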