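import Pool.Agent.FDX.Clone
import Pool.Agent.FDX.Ident
/-! FDX-NearX. PLAN. `∑ w ee = dd` (definition of dd), so by `near_reg` and averaging over v: `ee u ≤ dd + 8/n`. `cnt`:
`dd = 1 - (6 fe + 3 na)/n³ ≤ 1 - 6 turan/n³`, `turan_eq` with `n = 3 q + r`: `6 turan ≥ 5 n³/9 - 2 n²`, so `dd ≤ 4/9 + 2/n`. `dd_eq` (FDF/IdD):
`Phi + 3 E2 = dd - 4/9 ≤ 2/n ≤ 1/10^15`; `ee ≤ 4/9 + 10/n ≤ 4/9 + 1/10^15`. -/
namespace FDX
open Finset FDF
open scoped BigOperators Classical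
variable {V : Type} [Fintype V]

omit [Fintype V] in
private theorem turan_low (n : ℕ) :
    5 / 9 * (n : ℝ) ^ 3 - 2 * (n : ℝ) ^ 2 ≤ 6 * (turan n : ℝ) := by
  have hr : n % 3 < 3 := Nat.mod_lt _ (by norm_num)
  have hn : 3 * (n / 3) + n % 3 = n := Nat.div_add_mod n 3
  have h1 := turan_eq (q := n / 3) hr
  rw [hn] at h1
  rw [h1]
  have hnr : (n : ℝ) = 3 * ((n / 3 : ℕ) : ℝ) + ((n % 3 : ℕ) : ℝ) := by
    exact_mod_cast hn.symm
  have hq : (0 : ℝ) ≤ ((n / 3 : ℕ) : ℝ) := Nat.cast_nonneg _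
  rw [hnr]
  generalize ((n / 3 : ℕ) : ℝ) = q at hq ⊢
  have h3 : n % 3 = 0 ∨ n % 3 = 1 ∨ n % 3 = 2 := by omega
  rcases h3 with h3 | h3 | h3
  · rw [h3]
    norm_num
    nlinarith [mul_nonneg hq hq, mul_nonneg (mul_nonneg hq hq) hq]
  · rw [h3]
    norm_num
    nlinarith [mul_nonneg hq hq, mul_nonneg (mul_nonneg hq hq) hq]
  · rw [h3]
    norm_num
    nlinarith [mul_nonneg hq hq, mul_nonneg (mul_nonneg hq hq) hq]

theorem near_of_max (G : OG V) (h4 : G.NoC4) (hmax : ∀ G' : OG V, G'.NoC4 → fe G' ≤ fe G)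
    (hN : 10 ^ 16 ≤ Fintype.card V) (ht : turan (Fintype.card V) ≤ fe G) : Near G (uw V) := by
  have hc0 : 0 < Fintype.card V := lt_of_lt_of_le (by norm_num) hN
  have hNr : (10 : ℝ) ^ 16 ≤ (Fintype.card V : ℝ) := by exact_mod_cast hN
  have hn0 : (0 : ℝ) < (Fintype.card V : ℝ) := by exact_mod_cast hc0
  have hsum : ∑ v, uw V v = 1 := by
    unfold uw
    rw [Finset.sum_const, Finset.card_univ, nsmul_eq_mul]
    field_simp
  have hpos : ∀ v, 0 < uw V v := fun v => by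
    unfold uw
    positivity
  have hinv : 1 / (Fintype.card V : ℝ) ≤ 1 / 10 ^ 16 :=
    one_div_le_one_div_of_le (by norm_num) hNr
  -- the density
  have hdd : G.dd (uw V) ≤ 4 / 9 + 2 * (1 / (Fintype.card V : ℝ)) := by
    have h1 := cnt G hc0
    have h2 := turan_low (Fintype.card V)
    have h3 : (turan (Fintype.card V) : ℝ) ≤ (fe G : ℝ) := by exact_mod_cast ht
    have h5 : (0 : ℝ) ≤ (na G : ℝ) := Nat.cast_nonneg _
    have h6 : 5 / 9 * (Fintype.card V : ℝ) ^ 3 - 2 * (Fintype.card V : ℝ) ^ 2 ≤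
        (Fintype.card V : ℝ) ^ 3 * (1 - G.dd (uw V)) := by linarith
    have h7 : (Fintype.card V : ℝ) ^ 3 * (G.dd (uw V)) ≤
        (Fintype.card V : ℝ) ^ 3 * (4 / 9 + 2 * (1 / (Fintype.card V : ℝ))) := by
      have h8 : (Fintype.card V : ℝ) ^ 3 * (4 / 9 + 2 * (1 / (Fintype.card V : ℝ))) =
          4 / 9 * (Fintype.card V : ℝ) ^ 3 + 2 * (Fintype.card V : ℝ) ^ 2 := by
        field_simp
      rw [h8]
      linarith
    exact le_of_mul_le_mul_left h7 (by positivity)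
  refine ⟨h4, hpos, hsum, ?_, ?_⟩
  · have h1 := G.dd_eq (uw V) hsum
    unfold Phi
    have h2 : 2 * (1 / (10 : ℝ) ^ 16) ≤ 1 / 10 ^ 15 := by norm_num
    linarith
  · intro u
    have h1 : G.ee (uw V) u ≤ G.dd (uw V) + 8 / (Fintype.card V : ℝ) := by
      have h2 : G.ee (uw V) u = ∑ v, uw V v * G.ee (uw V) u := by
        rw [← Finset.sum_mul, hsum, one_mul]
      have h3 : G.dd (uw V) + 8 / (Fintype.card V : ℝ) =
          ∑ v, uw V v * (G.ee (uw V) v + 8 / (Fintype.card V : ℝ)) := by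
        simp only [mul_add]
        rw [Finset.sum_add_distrib, ← Finset.sum_mul, hsum, one_mul]
        rfl
      rw [h2, h3]
      exact Finset.sum_le_sum fun v _ =>
        mul_le_mul_of_nonneg_left (near_reg G h4 hmax hc0 u v) (hpos v).le
    have h2 : 8 / (Fintype.card V : ℝ) = 8 * (1 / (Fintype.card V : ℝ)) := by ring
    rw [h2] at h1
    have h3 : 10 * (1 / (10 : ℝ) ^ 16) = 1 / 10 ^ 15 := by norm_num
    linarith

end FDX
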