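import Pool.Agent.FDX.Pt
import Pool.Agent.FDF.Tri
/-! FDX-Tri. A good partition. PLAN: copy FDF/Tri.lean (the lemmas `bad_nonneg`, `t3_nonneg`, `btr`, `Bad5_eq`, `total`, `ff`, `prt_cases`,
`ff_bad` are private there: copy them). `good_tri`: suppose `btr a b c > K := 1/100 + 1/10^8 - 10 L²` for all a b c; then `Bad5 ≥ K * T0`
(t3 ≥ 0), while `Bad5 ≤ T0/100 + 1/10^10 - (20/3) E2` (`h2`), with `10 L² = 30 E2 + 1/10^14`: `(1/10^8 - 1/10^14) T0 - 1/10^10 ≤
E2 (30 T0 - 20/3) ≤ E2 * 30/10^14` contradicts `1/5 ≤ T0 ≤ 2/9 + 1/10^14`, `0 ≤ E2 ≤ 1` (`(oo - 1/3)² ≤ 1` since 0 ≤ oo ≤ 1).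
`exists_PartX`: as `exists_Part` in FDF/Boot.lean (`exists_min` in FDF/PMin.lean). -/
namespace FDX
open Finset FDF
open scoped BigOperators Classical
variable {V : Type} {G : OG V} [Fintype V] {w : V → ℝ}

omit [Fintype V] in
private lemma bad_nonneg (a b c x y : V) : 0 ≤ G.bad a b c x y := by
  unfold OG.bad; split_ifs <;> norm_num

omit [Fintype V] in
private lemma t3_nonneg (a b c : V) : 0 ≤ G.t3 a b c := by
  unfold OG.t3
  have h1 := G.mm_le_one a b
  have h2 := G.mm_le_one a c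
  have h3 := G.mm_le_one b c
  have h4 : 0 ≤ 1 - G.mm a b := by linarith
  have h5 : 0 ≤ 1 - G.mm a c := by linarith
  have h6 : 0 ≤ 1 - G.mm b c := by linarith
  positivity

/-- the measure of the bad pairs of a triangle -/
private noncomputable def btr (G : OG V) (w : V → ℝ) (a b c : V) : ℝ :=
  ∑ x, ∑ y, w x * w y * G.bad a b c x y

private lemma Bad5_eq : G.Bad5 w = ∑ a, ∑ b, ∑ c, w a * w b * w c * G.t3 a b c * btr G w a b c := by
  unfold OG.Bad5 btr
  refine Finset.sum_congr rfl fun a _ => Finset.sum_congr rfl fun b _ =>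
    Finset.sum_congr rfl fun c _ => ?_
  rw [Finset.mul_sum]
  refine Finset.sum_congr rfl fun x _ => ?_
  rw [Finset.mul_sum]
  refine Finset.sum_congr rfl fun y _ => ?_
  ring

private lemma total (k : ℝ) : ∑ a, ∑ b, ∑ c, w a * w b * w c * G.t3 a b c * (btr G w a b c + k) =
    G.Bad5 w + k * G.T0 w := by
  rw [Bad5_eq]
  unfold OG.T0
  rw [Finset.mul_sum, ← Finset.sum_add_distrib]
  refine Finset.sum_congr rfl fun a _ => ?_
  rw [Finset.mul_sum, ← Finset.sum_add_distrib]
  refine Finset.sum_congr rfl fun b _ => ?_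
  rw [Finset.mul_sum, ← Finset.sum_add_distrib]
  refine Finset.sum_congr rfl fun c _ => ?_
  ring

private lemma oo_bds (hw : ∀ v, 0 ≤ w v) (hs : ∑ v, w v = 1) (v : V) :
    0 ≤ G.oo w v ∧ G.oo w v ≤ 1 := by
  unfold OG.oo
  have ha : ∀ u, 0 ≤ G.aa v u ∧ G.aa v u ≤ 1 := by
    intro u
    unfold OG.aa
    split_ifs <;> constructor <;> norm_num
  constructor
  · exact Finset.sum_nonneg fun u _ => mul_nonneg (hw u) (ha u).1
  · rw [← hs]
    exact Finset.sum_le_sum fun u _ => mul_le_of_le_one_right (hw u) (ha u).2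

private lemma E2_le (hw : ∀ v, 0 ≤ w v) (hs : ∑ v, w v = 1) : G.E2 w ≤ 1 := by
  unfold OG.E2
  conv_rhs => rw [← hs]
  refine Finset.sum_le_sum fun v _ => ?_
  refine mul_le_of_le_one_right (hw v) ?_
  obtain ⟨h1, h2⟩ := oo_bds (G := G) hw hs v
  nlinarith

private lemma good_tri (h : Near G w) (h1 : StC1X) (h2 : StC2X) :
    ∃ a b c, btr G w a b c ≤ 1 / 100 + 1 / 10 ^ 8 - 10 * LL G w ^ 2 := by
  have hw : ∀ v, 0 ≤ w v := fun v => (h.pos v).le
  have hE : 0 ≤ G.E2 w := OG.E2_nonneg hw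
  have hE1 : G.E2 w ≤ 1 := E2_le hw h.sum
  have hlam := LL_sq (G := G) hw
  have hc1 := h1 V G w h.c4 hw h.sum h.ee
  have hc2 := h2 V G w h.c4 hw h.sum h.ee
  have hT0 := T0_le h
  have hT1 := T0_ge h hc1
  by_contra hcon
  push Not at hcon
  have hterm : ∀ a b c, 0 ≤ w a * w b * w c * G.t3 a b c *
      (btr G w a b c + -(1 / 100 + 1 / 10 ^ 8 - 10 * LL G w ^ 2)) := by
    intro a b c
    have h4 := t3_nonneg (G := G) a b c
    have h3 := (hcon a b c).le
    have h5 : 0 ≤ btr G w a b c + -(1 / 100 + 1 / 10 ^ 8 - 10 * LL G w ^ 2) := by linarith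
    have := hw a; have := hw b; have := hw c
    positivity
  have htot := total (G := G) (w := w) (-(1 / 100 + 1 / 10 ^ 8 - 10 * LL G w ^ 2))
  have hge : 0 ≤ G.Bad5 w + -(1 / 100 + 1 / 10 ^ 8 - 10 * LL G w ^ 2) * G.T0 w := by
    rw [← htot]
    exact Finset.sum_nonneg fun a _ => Finset.sum_nonneg fun b _ =>
      Finset.sum_nonneg fun c _ => hterm a b c
  rw [hlam] at hge
  have h6 : G.E2 w * (30 * G.T0 w - 20 / 3) ≤ 30 / 10 ^ 14 := by
    have h7 : 30 * G.T0 w - 20 / 3 ≤ 30 / 10 ^ 14 := by linarith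
    calc G.E2 w * (30 * G.T0 w - 20 / 3) ≤ G.E2 w * (30 / 10 ^ 14) :=
          mul_le_mul_of_nonneg_left h7 hE
      _ ≤ 1 * (30 / 10 ^ 14) := mul_le_mul_of_nonneg_right hE1 (by positivity)
      _ = 30 / 10 ^ 14 := one_mul _
  nlinarith

/-- the partition given by a triangle -/
private noncomputable def ff (G : OG V) (a b c x : V) : Fin 3 :=
  if G.prt a b c x = 0 then 0 else if G.prt a b c x = 1 then 1
    else if G.prt a b c x = 2 then 2 else 0

omit [Fintype V] in
private lemma prt_cases (a b c x : V) : G.prt a b c x = 0 ∨ G.prt a b c x = 1 ∨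
    G.prt a b c x = 2 ∨ G.prt a b c x = 3 := by
  unfold OG.prt; split_ifs <;> simp

private lemma ff_bad (a b c v u : V) :
    (if ff G a b c u = ff G a b c v then 1 - G.mm v u else G.mm v u) ≤ G.bad a b c v u := by
  by_cases hb : G.badP a b c v u
  · have h1 : G.bad a b c v u = 1 := by unfold OG.bad; rw [if_pos hb]
    rw [h1]
    have h2 := G.mm_nonneg v u
    have h3 := G.mm_le_one v u
    split_ifs
    · linarith
    · exact h3
  · have h1 : G.bad a b c v u = 0 := by unfold OG.bad; rw [if_neg hb]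
    rw [h1]
    unfold OG.badP at hb
    push Not at hb
    obtain ⟨hv3, hu3, hsame, hdiff⟩ := hb
    have hmm : G.mm v u = if G.adj v u then 0 else 1 := rfl
    split_ifs with hf
    · have hp : G.prt a b c v = G.prt a b c u := by
        unfold ff at hf
        rcases prt_cases (G := G) a b c v with e1 | e1 | e1 | e1 <;>
          rcases prt_cases (G := G) a b c u with e2 | e2 | e2 | e2 <;>
          simp_all
      rw [hmm, if_neg (hsame hp)]
      norm_num
    · have hp : G.prt a b c v ≠ G.prt a b c u := by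
        intro hp
        apply hf
        unfold ff
        rw [hp]
      rw [hmm, if_pos (hdiff hp)]

theorem exists_part (h : Near G w) (h1 : StC1X) (h2 : StC2X) :
    ∃ f : V → Fin 3, G.Btot w f ≤ 1 / 100 + 1 / 10 ^ 8 - 10 * LL G w ^ 2 := by
  obtain ⟨a, b, c, habc⟩ := good_tri h h1 h2
  refine ⟨ff G a b c, le_trans ?_ habc⟩
  unfold OG.Btot btr OG.bb OG.bin OG.bcr
  refine Finset.sum_le_sum fun v _ => ?_
  rw [← Finset.sum_add_distrib, Finset.mul_sum]
  refine Finset.sum_le_sum fun u _ => ?_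
  have h1 := ff_bad (G := G) a b c v u
  have hv := (h.pos v).le
  have hu := (h.pos u).le
  have h3 : (if ff G a b c u = ff G a b c v then w u * (1 - G.mm v u) else 0) +
      (if ff G a b c u = ff G a b c v then 0 else w u * G.mm v u) =
      w u * (if ff G a b c u = ff G a b c v then 1 - G.mm v u else G.mm v u) := by
    split_ifs <;> ring
  rw [h3, ← mul_assoc]
  exact mul_le_mul_of_nonneg_left h1 (mul_nonneg hv hu)

theorem exists_PartX (h : Near G w) (h1 : StC1X) (h2 : StC2X) : ∃ f, PartX G w f := by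
  obtain ⟨f0, h0⟩ := exists_part h h1 h2
  obtain ⟨f, -, hf⟩ := Finset.exists_min_image (Finset.univ : Finset (V → Fin 3))
    (fun f => G.Btot w f) ⟨fun _ => 0, Finset.mem_univ _⟩
  have hf' : ∀ f' : V → Fin 3, G.Btot w f ≤ G.Btot w f' := fun f' => hf f' (Finset.mem_univ _)
  exact ⟨f, h, hf', (hf' f0).trans h0, h1 V G w h.c4 (fun v => (h.pos v).le) h.sum h.ee⟩

end FDX
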