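import Pool.Agent.FDX.Case1
import Pool.Agent.FDX.Case2
import Pool.Agent.FDX.NearX
import Pool.Agent.FDX.Tri
import Pool.Agent.FDX.Cert
import Pool.Agent.FDF.Main
/-! FDX-Main (assembly, helper84). -/
namespace FDX
open Finset FDF FDF.Res
open scoped BigOperators Classical

/-- an extremal orgraph exists -/
private lemma exists_ext {V : Type} [Fintype V] (G : OG V) (h4 : G.NoC4) :
    ∃ G1 : OG V, G1.NoC4 ∧ ∀ G' : OG V, G'.NoC4 → fe G' ≤ fe G1 := by
  have hfin : {k | ∃ G' : OG V, G'.NoC4 ∧ fe G' = k}.Finite := by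
    refine (Set.finite_le_nat ((univ : Finset V).powersetCard 3).card).subset ?_
    rintro k ⟨G', -, rfl⟩
    exact card_filter_le _ _
  obtain ⟨k, ⟨G1, h41, rfl⟩, hmax⟩ := Set.Finite.exists_maximal hfin ⟨_, G, h4, rfl⟩
  refine ⟨G1, h41, ?_⟩
  intro G' h'
  by_contra hc
  push Not at hc
  exact absurd (hmax ⟨G', h', rfl⟩ hc.le) (not_le.2 hc)

private lemma ext_aux {V : Type} [Fintype V] (G1 : OG V) (h41 : G1.NoC4) (hN : 10 ^ 16 ≤ Fintype.card V)
    (hmax : ∀ G' : OG V, G'.NoC4 → fe G' ≤ fe G1) (hle : turan (Fintype.card V) ≤ fe G1) :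
    ∃ f : V → Fin 3, PartX G1 (uw V) f ∧ G1.Btot (uw V) f = 0 := by
  have hnear := near_of_max G1 h41 hmax hN hle
  obtain ⟨f, hf⟩ := exists_PartX hnear stC1 stC2
  have hB0 : 0 ≤ G1.Btot (uw V) f := by
    have hw : ∀ v, 0 ≤ uw V v := fun v => (hnear.pos v).le
    exact Finset.sum_nonneg fun v _ => mul_nonneg (hw v)
      (add_nonneg (G1.bin_nonneg (uw V) f hw v) (G1.bcr_nonneg (uw V) f hw v))
  refine ⟨f, hf, ?_⟩
  rcases hB0.lt_or_eq with hB | hB
  · exact absurd (case2 hf hN hB) (not_lt.2 hle)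
  · exact hB.symm

/-- the exact upper bound -/
theorem main {V : Type} [Fintype V] (G : OG V) (h4 : G.NoC4) (hN : 10 ^ 16 ≤ Fintype.card V) :
    fe G ≤ turan (Fintype.card V) := by
  by_contra hcon
  push Not at hcon
  obtain ⟨G1, h41, hmax⟩ := exists_ext G h4
  have hlt : turan (Fintype.card V) < fe G1 := lt_of_lt_of_le hcon (hmax G h4)
  obtain ⟨f, hf, hB⟩ := ext_aux G1 h41 hN hmax hlt.le
  exact absurd (case1 hf hN hB) (not_le.2 hlt)

/-- the structure of the extremal orgraphs: complete 3-partite -/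
theorem struct {V : Type} [Fintype V] (G : OG V) (h4 : G.NoC4) (hN : 10 ^ 16 ≤ Fintype.card V)
    (hG : turan (Fintype.card V) ≤ fe G) : ∃ f : V → Fin 3, ∀ u v, G.adj u v ↔ f u ≠ f v := by
  have hmax : ∀ G' : OG V, G'.NoC4 → fe G' ≤ fe G := fun G' h' => (main G' h' hN).trans hG
  obtain ⟨f, hf, hB⟩ := ext_aux G h4 hN hmax hG
  refine ⟨f, ?_⟩
  have hpos := hf.near.pos
  have hw : ∀ v, 0 ≤ uw V v := fun v => (hpos v).le
  have hbin := fun v => G.bin_nonneg (uw V) f hw v
  have hbcr := fun v => G.bcr_nonneg (uw V) f hw v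
  have hbb : ∀ v, G.bb (uw V) f v = 0 := by
    intro v
    have h1 := (Finset.sum_eq_zero_iff_of_nonneg
      (fun v _ => mul_nonneg (hw v) (add_nonneg (hbin v) (hbcr v)))).1 hB v (Finset.mem_univ v)
    rcases mul_eq_zero.1 h1 with h2 | h2
    · exact absurd h2 (hpos v).ne'
    · exact h2
  intro u v
  have h0 : G.bin (uw V) f u + G.bcr (uw V) f u = 0 := hbb u
  have h1 : G.bin (uw V) f u = 0 := by have := hbin u; have := hbcr u; linarith
  have h2 : G.bcr (uw V) f u = 0 := by have := hbin u; have := hbcr u; linarith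
  have h3 := (Finset.sum_eq_zero_iff_of_nonneg (fun x _ => by
    split_ifs
    · have := G.mm_le_one u x
      exact mul_nonneg (hw x) (by linarith)
    · exact le_rfl)).1 h1 v (Finset.mem_univ v)
  have h4' := (Finset.sum_eq_zero_iff_of_nonneg (fun x _ => by
    split_ifs
    · exact le_rfl
    · exact mul_nonneg (hw x) (G.mm_nonneg u x))).1 h2 v (Finset.mem_univ v)
  constructor
  · intro ha hf'
    rw [if_pos hf'.symm] at h3
    have h5 : G.mm u v = 0 := by unfold OG.mm; rw [if_pos ha]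
    rw [h5] at h3
    have := hpos v
    linarith
  · intro hne
    by_contra ha
    rw [if_neg (fun e => hne e.symm)] at h4'
    have h5 : G.mm u v = 1 := by unfold OG.mm; rw [if_neg ha]
    rw [h5] at h4'
    have := hpos v
    linarith

/-- the sharp inequality for all `n` -/
theorem sharp {V : Type} [Fintype V] (G : OG V) (h4 : G.NoC4) :
    54 * fe G + 27 * na G ≤ 5 * Fintype.card V ^ 3 := by
  rcases Nat.eq_zero_or_pos (Fintype.card V) with h0 | h0
  · have h1 : (univ : Finset V) = ∅ := by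
      rw [Finset.univ_eq_empty_iff]
      exact Fintype.card_eq_zero_iff.1 h0
    have h2 : fe G = 0 := by
      unfold fe
      rw [h1]
      simp
    have h3 : na G = 0 := by
      unfold na
      have : IsEmpty V := Fintype.card_eq_zero_iff.1 h0
      simp
    rw [h2, h3, h0]
    norm_num
  · have hn : (0 : ℝ) < (Fintype.card V : ℝ) := by exact_mod_cast h0
    have hw : ∀ v, 0 ≤ uw V v := fun v => by unfold uw; positivity
    have hs : ∑ v, uw V v = 1 := by
      unfold uw
      rw [Finset.sum_const, nsmul_eq_mul, Finset.card_univ]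
      field_simp
    have h1 := OG.weighted FDF.stC1 FDF.stC2 G h4 (uw V) hw hs
    have h2 := cnt G h0
    have h3 : (Fintype.card V : ℝ) ^ 3 * (1 - G.dd (uw V)) ≤ (Fintype.card V : ℝ) ^ 3 * (5 / 9) :=
      mul_le_mul_of_nonneg_left (by linarith) (by positivity)
    rw [h2] at h3
    have h4 : (54 * (fe G : ℝ) + 27 * (na G : ℝ)) ≤ 5 * (Fintype.card V : ℝ) ^ 3 := by linarith
    exact_mod_cast h4

end FDX
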