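import Pool.Agent.FDX.Defs
import Pool.Agent.FDF.Pt
/-! FDX-Pt. Consequences for a nearly optimal orgraph. PLAN: as `FDF/Pt.lean` (`dd_eq`, `ee_eq'`, `T0_eq` in FDF/IdD, FDF/IdE) with `L = LL G w`
in the place of `lam`: `L² = 3 E2 + 10⁻¹⁵`, `L > 0`, `E2 / L ≤ L / 3`. `pt`: for every b `-2 (oo b - 1/3) ≤ L + (oo b - 1/3)²/L`.
`gam_ge`: `phi`, N2, T1, E2 ≥ 0 (`T1_nonneg`, `N2_nonneg`, `E2_nonneg`). `T0_le`, `T0_ge`: `T0_eq` (`T0 = 2/9 - 5/3 gam + 2 N2 + T1/3`). -/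
namespace FDX
open Finset FDF
open scoped BigOperators Classical
variable {V : Type} {G : OG V} [Fintype V] {w : V → ℝ}

theorem LL_sq (hw : ∀ v, 0 ≤ w v) : LL G w ^ 2 = 3 * G.E2 w + 1 / 10 ^ 15 := by
  unfold LL
  have h := OG.E2_nonneg (G := G) hw
  exact Real.sq_sqrt (by positivity)

theorem LL_pos (hw : ∀ v, 0 ≤ w v) : 0 < LL G w := by
  unfold LL
  have h := OG.E2_nonneg (G := G) hw
  exact Real.sqrt_pos.mpr (by positivity)

theorem gam_ge (h : Near G w) : -(1 / 10 ^ 14) ≤ G.gam w := by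
  have hw : ∀ v, 0 ≤ w v := fun v => (h.pos v).le
  have h1 := h.phi
  have h2 := OG.N2_nonneg (G := G) hw
  have h3 := OG.T1_nonneg (G := G) hw
  have h4 := OG.E2_nonneg (G := G) hw
  unfold Phi at h1
  norm_num at h1 ⊢
  linarith

theorem T0_le (h : Near G w) : G.T0 w ≤ 2 / 9 + 1 / 10 ^ 14 := by
  have hw : ∀ v, 0 ≤ w v := fun v => (h.pos v).le
  have h1 := h.phi
  have h2 := OG.N2_nonneg (G := G) hw
  have h3 := OG.T1_nonneg (G := G) hw
  have h4 := OG.E2_nonneg (G := G) hw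
  have h6 := G.T0_eq w h.sum
  unfold Phi at h1
  norm_num at h1 ⊢
  linarith

theorem T0_ge (h : Near G w) (h1 : G.gam w + 7 * G.T1 w ≤ 126 / 10000 + 1 / 10 ^ 10) : 1 / 5 ≤ G.T0 w := by
  have hw : ∀ v, 0 ≤ w v := fun v => (h.pos v).le
  have h2 := OG.N2_nonneg (G := G) hw
  have h3 := OG.T1_nonneg (G := G) hw
  have h6 := G.T0_eq w h.sum
  norm_num at h1 ⊢
  linarith

theorem pt (h : Near G w) (v : V) :
    (G.nn w v - 1 / 3 + LL G w / 2) ^ 2 + (G.oo w v - 1 / 3 + LL G w / 2) ^ 2 + 2 * G.chi w v ≤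
      2 / 3 * LL G w + LL G w ^ 2 / 2 + 1 / 10 ^ 15 := by
  have hw : ∀ v, 0 ≤ w v := fun v => (h.pos v).le
  have hl := LL_pos (G := G) hw
  have hl2 := LL_sq (G := G) hw
  have h1 := G.ee_eq' w h.sum v
  have h2 := h.ee v
  have h3 : - 2 * ∑ b, w b * G.aa b v * (G.oo w b - 1 / 3) ≤
      ∑ b, (LL G w * (w b * G.aa b v) + (w b * (G.oo w b - 1 / 3) ^ 2) / LL G w) := by
    rw [Finset.mul_sum]
    refine Finset.sum_le_sum fun b _ => ?_
    have e1 : 0 ≤ w b * G.aa b v := mul_nonneg (hw b) (G.aa_nonneg b v)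
    have e2 : w b * G.aa b v * ((G.oo w b - 1 / 3) ^ 2 / LL G w) ≤
        (w b * (G.oo w b - 1 / 3) ^ 2) / LL G w := by
      rw [mul_div_assoc]
      have e3 : 0 ≤ (G.oo w b - 1 / 3) ^ 2 / LL G w := by positivity
      have e4 : w b * G.aa b v ≤ w b := by
        have := mul_le_mul_of_nonneg_left (G.aa_le_one b v) (hw b)
        linarith
      exact mul_le_mul_of_nonneg_right e4 e3
    have e5 : - 2 * (G.oo w b - 1 / 3) ≤ LL G w + (G.oo w b - 1 / 3) ^ 2 / LL G w := by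
      have e6 : LL G w + (G.oo w b - 1 / 3) ^ 2 / LL G w + 2 * (G.oo w b - 1 / 3) =
          (LL G w + (G.oo w b - 1 / 3)) ^ 2 / LL G w := by
        field_simp
        ring
      have e7 : 0 ≤ (LL G w + (G.oo w b - 1 / 3)) ^ 2 / LL G w := by positivity
      linarith
    have e8 := mul_le_mul_of_nonneg_left e5 e1
    linarith
  rw [Finset.sum_add_distrib, ← Finset.mul_sum, ← Finset.sum_div] at h3
  have h4 : ∑ b, w b * G.aa b v = G.ii w v := rfl
  have h5 : ∑ b, w b * (G.oo w b - 1 / 3) ^ 2 = G.E2 w := rfl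
  rw [h4, h5] at h3
  have h6 : G.E2 w / LL G w ≤ LL G w / 3 := by
    rw [div_le_iff₀ hl]
    have : 3 * G.E2 w ≤ LL G w ^ 2 := by
      rw [hl2]
      have : (0 : ℝ) ≤ 1 / 10 ^ 15 := by positivity
      linarith
    nlinarith
  have h7 := G.nn_add_oo_add_ii w h.sum v
  have h8 : G.ii w v = 1 - G.nn w v - G.oo w v := by linarith
  rw [h8] at h3
  nlinarith

end FDX
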